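import Pool.Agent.Full.Loc1.Pot

/-!
# The potential of two blocked dead ends

`exists_pot`: `S = 1` on the main part of the domain, `S = 0` behind the blocking chains; `S` is constant
along the strands, the gluing of the domain and the gluing with the closed row.
-/

set_option autoImplicit false

namespace Full
open Function Relation Loc1 Pool.Agent.Helper69.RSW

namespace Slab

/-- the properties of the potential of two blocked dead ends; the left box has the columns `[c1, d1)` of the
chart `phL y`, the right box the columns `[c2, d2)` of the chart `phR y` -/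
structure Pot (D : Slab) (x y a c1 d1 c2 d2 : ℤ) (ω : Finset ZT) (S : Half ZT → ZMod 2) : Prop where
  mate : ∀ q, S (mate ω q) = S q
  gc : ∀ q, S (D.gc x y q) = S q
  go : ∀ q, S (D.go x y q) = S q
  same : ∀ q, S q = 1 → D.gc x y q = D.go x y q
  z : S (Slab.z x y) = 1
  /-- outside of the two dead ends -/
  out : ∀ q : Half ZT, (∀ i j, D.b ≤ j → j < D.t → (D.l ≤ i → i < D.l + a → q.1 ≠ phL y (i, j)) ∧
    (D.r - a ≤ i → i < D.r → q.1 ≠ phR y (i, j))) → S q = 1
  /-- in front of the left box -/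
  frontL : ∀ i j v, d1 ≤ i → i < D.l + a → D.b ≤ j → j < D.t → S (phL y (i, j), v) = 1
  /-- in front of the right box -/
  frontR : ∀ i j v, D.r - a ≤ i → i < c2 → D.b ≤ j → j < D.t → S (phR y (i, j), v) = 1
  /-- behind the left box -/
  backL : ∀ i j v, D.l ≤ i → i < c1 → D.b ≤ j → j < D.t → S (phL y (i, j), v) = 0
  /-- behind the right box -/
  backR : ∀ i j v, d2 ≤ i → i < D.r → D.b ≤ j → j < D.t → S (phR y (i, j), v) = 0
  /-- the potential is zero only in the corridor -/
  cor : ∀ q : Half ZT, S q = 0 → ∃ i j v, -a ≤ i ∧ i < a ∧ D.b ≤ j ∧ j < D.t ∧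
    q = (phC D.l D.r y (i, j), v)

/-- the box of a blocking chain is not empty -/
theorem _root_.Full.Block.lt {r c d b t : ℤ} {S Q : Finset (ℤ × ℤ)} (h : Block r c d b t S Q)
    (hbt : b < t) : c < d := by
  by_contra hcd
  have h1 := h.odd b le_rfl hbt
  have h2 : Q.filter (fun p => p.2 = b) = ∅ := by
    rw [Finset.filter_eq_empty_iff]
    intro p hp
    have := h.sub p hp
    omega
  rw [h2, Finset.card_empty, Nat.cast_zero] at h1
  exact zero_ne_one h1

variable {D : Slab} {x y a c1 d1 c2 d2 : ℤ} {rL rR : ℤ} {QL QR : Finset (ℤ × ℤ)} {ω : Finset ZT}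

open Classical in
/-- **the potential of two blocked dead ends** -/
theorem exists_pot (hD : D.Good x y a) (hl : rL = 0 ∨ rL = 1) (hr : rR = 0 ∨ rR = 1)
    (hL : Block rL c1 d1 D.b D.t (pre (phL y) (box c1 d1 D.b D.t) ω) QL)
    (hR : Block rR c2 d2 D.b D.t (pre (phR y) (box c2 d2 D.b D.t) ω) QR)
    (h1 : D.l < c1) (h2 : d1 < D.l + a) (h3 : D.r - a < c2) (h4 : d2 < D.r) :
    ∃ S : Half ZT → ZMod 2, D.Pot x y a c1 d1 c2 d2 ω S ∧
      ∀ q, S q = 0 ↔ q ∈ D.zone y a rL rR QL QR := by
  have hB := blocked_of hL hR h1 h2 h3 h4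
  have key : ∀ {p q : Half ZT}, (p ∈ D.zone y a rL rR QL QR ↔ q ∈ D.zone y a rL rR QL QR) →
      (if p ∈ D.zone y a rL rR QL QR then (0 : ZMod 2) else 1) =
      if q ∈ D.zone y a rL rR QL QR then 0 else 1 := fun h => by simp only [h]
  have xl := hD.xl
  have xr := hD.xr
  have h5 := hL.lt hD.bt
  have h6 := hR.lt hD.bt
  have hmem : ∀ {i j v}, D.l ≤ i → i < D.l + a → D.b ≤ j → j < D.t →
      ((phL y (i, j), v) ∈ D.zone y a rL rR QL QR ↔ sep rL QL ((i, j), v) = 0) := by
    intro i j v a1 a2 a3 a4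
    constructor
    · rintro (⟨i', j', v', b1, b2, b3, b4, b5, b6⟩ | ⟨i', j', v', b1, b2, b3, b4, b5, b6⟩)
      · have e1 := phL_inj (congrArg Prod.fst b5)
        have e2 : v = v' := congrArg Prod.snd b5
        rw [e1.1, e1.2, e2]; exact b6
      · exact absurd (congrArg Prod.fst b5) (phL_ne_phR (by omega))
    · intro h
      exact Or.inl ⟨i, j, v, a1, a2, a3, a4, rfl, h⟩
  have hmem' : ∀ {i j v}, D.r - a ≤ i → i < D.r → D.b ≤ j → j < D.t →
      ((phR y (i, j), v) ∈ D.zone y a rL rR QL QR ↔ sep rR QR ((i, j), v) = 1) := by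
    intro i j v a1 a2 a3 a4
    constructor
    · rintro (⟨i', j', v', b1, b2, b3, b4, b5, b6⟩ | ⟨i', j', v', b1, b2, b3, b4, b5, b6⟩)
      · exact absurd (congrArg Prod.fst b5).symm (phL_ne_phR (by omega))
      · have e1 := phR_inj (congrArg Prod.fst b5)
        have e2 : v = v' := congrArg Prod.snd b5
        rw [e1.1, e1.2, e2]; exact b6
    · intro h
      exact Or.inr ⟨i, j, v, a1, a2, a3, a4, rfl, h⟩
  refine ⟨fun q => if q ∈ D.zone y a rL rR QL QR then 0 else 1,
    ⟨fun q => key hB.mate_iff, fun q => key (hB.gc_iff hD hl hr), fun q => key (hB.go_iff hD hl hr),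
      ?_, if_neg (z_notMem_zone hD), fun q hq => if_neg (notMem_zone hq), ?_, ?_, ?_, ?_, ?_⟩, ?_⟩
  · intro q hq
    refine hB.gc_eq_go hD hl hr fun h => ?_
    rw [if_pos h] at hq
    exact zero_ne_one hq
  · intro i j v a1 a2 a3 a4
    refine if_neg fun h => ?_
    rw [hmem (by omega) a2 a3 a4,
      sep_right hL a1 a3 a4] at h
    exact one_ne_zero h
  · intro i j v a1 a2 a3 a4
    refine if_neg fun h => ?_
    rw [hmem' a1 (by omega) a3 a4, sep_left hR a2] at h
    exact zero_ne_one h
  · intro i j v a1 a2 a3 a4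
    refine if_pos ?_
    rw [hmem a1 (by omega) a3 a4]
    exact sep_left hL a2 _
  · intro i j v a1 a2 a3 a4
    refine if_pos ?_
    rw [hmem' (by omega) a2 a3 a4]
    exact sep_right hR a1 a3 a4 _
  · intro q hq
    have h : q ∈ D.zone y a rL rR QL QR := by
      by_contra h
      have : (if q ∈ D.zone y a rL rR QL QR then (0 : ZMod 2) else 1) = 1 := if_neg h
      rw [this] at hq
      exact one_ne_zero hq
    rcases h with ⟨i, j, v, b1, b2, b3, b4, b5, b6⟩ | ⟨i, j, v, b1, b2, b3, b4, b5, b6⟩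
    · refine ⟨i - D.l, j, v, by omega, by omega, b3, b4, ?_⟩
      rw [phC_pos (by omega), b5, show D.l + (i - D.l) = i by ring]
    · refine ⟨i - D.r, j, v, by omega, by omega, b3, b4, ?_⟩
      rw [phC_neg (by omega), b5, show D.r + (i - D.r) = i by ring]
  · intro q
    constructor
    · intro hq
      by_contra h
      have : (if q ∈ D.zone y a rL rR QL QR then (0 : ZMod 2) else 1) = 1 := if_neg h
      exact one_ne_zero (this.symm.trans hq)
    · intro h
      exact if_pos h

end Slab

end Full
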