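import Pool.Agent.Full.Geo.Slab
import Pool.Agent.Full.X3.GoodC

/-!
# Dead ends of the rows of a shape

`good_of_chan`: the slab of a row of a shape whose rows have long dead ends (`Chan m A`) satisfies
`Slab.Good x y a` for all `z = (x, y)` in the middle of the row; `exists_lengths` chooses the lengths.
-/

set_option autoImplicit false

namespace Full
open Function Relation Loc1

namespace Shape
variable {S : Shape} {n : ℕ} {s : S.Q × Bool → ℕ}

section
variable (hS : S.Ok) (hs : S.Small2 n s) (hd : S.Tree)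
include hS hs hd

/-- the openings in the floor of a row -/
lemma side_low_att (r : S.R) {i : ℤ} (h1 : S.fl n s (.inl r) ≤ i) (h2 : i ≤ S.fr n s (.inl r))
    (h : (i, S.fb n (.inl r) - 1) ∈ S.side n s (.inl r) false) :
    ∃ k, S.Att k r false ∧ S.fl n s (.inr k) ≤ i ∧ i < S.fr n s (.inr k) := by
  rw [mem_side] at h
  obtain ⟨p, hp, hu⟩ := h
  have h5 := fl_lt_fr hS hs (.inl r)
  have h6 := fb_lt_ft (n := n) hS hs.1 (.inl r)
  have hq : (min i (S.fr n s (.inl r) - 1), S.fb n (.inl r)) ∈ S.room n s (.inl r) :=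
    mem_room.2 (by simp only; omega)
  have h7 := near_low hS hs hd hp hq hu (by simp only; omega) (by simp only; omega)
    (by simp only; omega) (by simp only; omega)
  rcases p with r' | k
  · exact absurd h7 (fun h => h)
  · rw [mem_room] at hu
    exact ⟨k, h7, hu.1.1, hu.1.2⟩

/-- the openings in the ceiling of a row -/
lemma side_up_att (r : S.R) {i : ℤ} (h1 : S.fl n s (.inl r) ≤ i) (h2 : i ≤ S.fr n s (.inl r))
    (h : (i, S.ft n (.inl r)) ∈ S.side n s (.inl r) true) :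
    ∃ k, S.Att k r true ∧ S.fl n s (.inr k) ≤ i ∧ i < S.fr n s (.inr k) := by
  rw [mem_side] at h
  obtain ⟨p, hp, hu⟩ := h
  have h5 := fl_lt_fr hS hs (.inl r)
  have h6 := fb_lt_ft (n := n) hS hs.1 (.inl r)
  have hq : (min i (S.fr n s (.inl r) - 1), S.ft n (.inl r) - 1) ∈ S.room n s (.inl r) :=
    mem_room.2 (by simp only; omega)
  have h7 := near_up hS hs hd hp hq hu (by simp only; omega) (by simp only; omega)
    (by simp only; omega) (by simp only; omega)
  rcases p with r' | k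
  · exact absurd h7 (fun h => h)
  · rw [mem_room] at hu
    exact ⟨k, h7, hu.1.1, hu.1.2⟩

omit hS hd in
lemma fl_bd (q : S.Q) : (n : ℝ) * S.xl q ≤ S.fl n s q ∧ (S.fl n s q : ℝ) ≤ n * S.xl q + n / 2 := by
  have h1 := hs.2 (q, false)
  have h2 : (2 : ℝ) * (s (q, false) : ℝ) ≤ n := by exact_mod_cast h1
  have h3 : (0 : ℝ) ≤ (s (q, false) : ℝ) := by positivity
  unfold fl
  push_cast
  constructor <;> linarith

omit hS hd in
lemma fr_bd (q : S.Q) : (n : ℝ) * S.xr q ≤ S.fr n s q ∧ (S.fr n s q : ℝ) ≤ n * S.xr q + n / 2 := by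
  have h1 := hs.2 (q, true)
  have h2 : (2 : ℝ) * (s (q, true) : ℝ) ≤ n := by exact_mod_cast h1
  have h3 : (0 : ℝ) ≤ (s (q, true) : ℝ) := by positivity
  unfold fr
  push_cast
  constructor <;> linarith

omit hS hd in
/-- no opening in the dead ends -/
lemma att_far {m : S.Marks} {A : ℝ} (hCh : S.Chan m A) (r : S.R) {a : ℤ}
    (ha : (a : ℝ) + n / 2 ≤ n * (A * (S.yt (.inl r) - S.yb (.inl r)))) {k : S.K} {b : Bool}
    (hk : S.Att k r b) {i : ℤ} (h1 : S.fl n s (.inr k) ≤ i) (h2 : i < S.fr n s (.inr k)) :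
    S.fl n s (.inl r) + a ≤ i ∧ i < S.fr n s (.inl r) - a := by
  obtain ⟨c1, c2⟩ := hCh.1 k r b hk
  have n0 : (0 : ℝ) ≤ n := by positivity
  have c1' := mul_le_mul_of_nonneg_left c1 n0
  have c2' := mul_le_mul_of_nonneg_left c2 n0
  have e1 := fl_bd hs (S := S) (.inl r)
  have e2 := fl_bd hs (S := S) (.inr k)
  have e3 := fr_bd hs (S := S) (.inl r)
  have e4 := fr_bd hs (S := S) (.inr k)
  have h1' : (S.fl n s (.inr k) : ℝ) ≤ i := by exact_mod_cast h1
  have h2' : (i : ℝ) < S.fr n s (.inr k) := by exact_mod_cast h2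
  constructor
  · have : ((S.fl n s (.inl r) + a : ℤ) : ℝ) ≤ i := by
      push_cast
      linarith [e1.2, e2.1]
    exact_mod_cast this
  · have : (i : ℝ) < ((S.fr n s (.inl r) - a : ℤ) : ℝ) := by
      push_cast
      linarith [e3.1, e4.2]
    exact_mod_cast this

/-- the dead ends of a row -/
theorem deadEnd {m : S.Marks} {A : ℝ} (hCh : S.Chan m A) (r : S.R) {a : ℤ}
    (ha : (a : ℝ) + n / 2 ≤ n * (A * (S.yt (.inl r) - S.yb (.inl r))))
    (ha2 : S.fl n s (.inl r) + a ≤ S.fr n s (.inl r)) :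
    (S.zslab hS hs hd (.inl r)).DeadEnd a := by
  constructor
  · intro i hi hmem
    rw [zslab_l, zslab_r] at hi
    obtain ⟨k, hk, h1, h2⟩ := side_low_att hS hs hd r (by omega) (by omega) hmem
    have := att_far hs hCh r ha hk h1 h2
    omega
  · intro i hi hmem
    rw [zslab_l, zslab_r] at hi
    obtain ⟨k, hk, h1, h2⟩ := side_up_att hS hs hd r (by omega) (by omega) hmem
    have := att_far hs hCh r ha hk h1 h2
    omega

/-- **the middle of a row with long dead ends** -/
theorem good_of_chan {m : S.Marks} {A : ℝ} (hCh : S.Chan m A) (r : S.R) {a x y : ℤ} (ha0 : 2 ≤ a)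
    (ha : (a : ℝ) + n / 2 + 1 ≤ n * (A * (S.yt (.inl r) - S.yb (.inl r))))
    (hx1 : (n : ℝ) * (S.xl (.inl r) + A * (S.yt (.inl r) - S.yb (.inl r))) - 1 ≤ x)
    (hx2 : (x : ℝ) ≤ n * (S.xr (.inl r) - A * (S.yt (.inl r) - S.yb (.inl r))))
    (hy1 : S.fb n (.inl r) ≤ y) (hy2 : y ≤ S.ft n (.inl r)) :
    (S.zslab hS hs hd (.inl r)).Good x y a := by
  have e1 := fl_bd hs (S := S) (.inl r)
  have e3 := fr_bd hs (S := S) (.inl r)
  have h1 : S.fl n s (.inl r) + a ≤ x := by
    have : ((S.fl n s (.inl r) + a : ℤ) : ℝ) ≤ x := by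
      push_cast
      linarith [e1.2]
    exact_mod_cast this
  have h2 : x ≤ S.fr n s (.inl r) - a := by
    have : (x : ℝ) ≤ ((S.fr n s (.inl r) - a : ℤ) : ℝ) := by
      push_cast
      have : (0 : ℝ) ≤ n := by positivity
      linarith [e3.1]
    exact_mod_cast this
  have h3 := fb_lt_ft (n := n) hS hs.1 (.inl r)
  exact {
    dead := deadEnd hS hs hd hCh r (by linarith) (by omega)
    pos := ha0
    bt := by rw [zslab_b, zslab_t]; omega
    xl := h1
    xr := h2
    yb := hy1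
    yt := hy2 }

end

/-- **the lengths**: with `h` the height of the row and `A ≥ 1`, for `n ≥ 32` there are the length `a` of the
dead ends, the length `k` of the boxes and the number `N` of squares in a box; `N` is at least `A / 16 - 2` -/
theorem exists_lengths {n : ℕ} (hn : 32 ≤ n) {h : ℤ} (hh : 1 ≤ h) {A : ℝ} (hA : 1 ≤ A) :
    ∃ (a k : ℤ) (N : ℕ), 2 ≤ a ∧ (a : ℝ) + n / 2 + 1 ≤ n * (A * h) ∧ 1 ≤ k ∧ 4 * k + 4 ≤ a ∧
      (N : ℤ) * (n * h) ≤ k ∧ A / 16 - 2 ≤ N := by
  have hn' : (32 : ℝ) ≤ n := by exact_mod_cast hn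
  have hh' : (1 : ℝ) ≤ h := by exact_mod_cast hh
  have hX : (n : ℝ) ≤ n * (A * h) := by
    have : 1 ≤ A * h := by nlinarith
    nlinarith
  set X : ℝ := n * (A * h) with hXd
  set k : ℤ := ⌊X / 16⌋ with hk
  have k1 : (k : ℝ) ≤ X / 16 := Int.floor_le _
  have k2 : X / 16 - 1 < k := Int.sub_one_lt_floor _
  have k3 : 2 ≤ k := Int.le_floor.2 (by push_cast; linarith)
  have k3' : (2 : ℝ) ≤ k := by exact_mod_cast k3
  have nh0 : (0 : ℤ) < n * h := by positivity
  have nh0' : (0 : ℝ) < n * h := by positivity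
  refine ⟨4 * k + 4, k, (k / (n * h)).toNat, by omega, ?_, by omega, le_rfl, ?_, ?_⟩
  · push_cast
    linarith
  · have h1 : 0 ≤ k / (n * h) := Int.ediv_nonneg (by omega) nh0.le
    rw [Int.toNat_of_nonneg h1]
    exact Int.ediv_mul_le _ nh0.ne'
  · have h1 : 0 ≤ k / (n * h) := Int.ediv_nonneg (by omega) nh0.le
    have h2 : k < (k / (n * h) + 1) * (n * h) := Int.lt_ediv_add_one_mul_self _ nh0
    have h3 : (((k / (n * h)).toNat : ℕ) : ℝ) = ((k / (n * h) : ℤ) : ℝ) := by
      have : (((k / (n * h)).toNat : ℕ) : ℤ) = k / (n * h) := Int.toNat_of_nonneg h1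
      exact_mod_cast this
    rw [h3]
    have h4 : (k : ℝ) < (((k / (n * h) : ℤ) : ℝ) + 1) * (n * h) := by exact_mod_cast h2
    have h5 : X / 16 - 1 < (((k / (n * h) : ℤ) : ℝ) + 1) * (n * h) := k2.trans h4
    have h6 : A / 16 - 1 < ((k / (n * h) : ℤ) : ℝ) + 1 := by
      have e : X = A * (n * h) := by rw [hXd]; ring
      rw [e] at h5
      have h7 : (1 : ℝ) ≤ n * h := by nlinarith
      by_contra hcon
      push Not at hcon
      have := mul_le_mul_of_nonneg_right hcon nh0'.le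
      nlinarith
    linarith

end Shape

end Full
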