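import Pool.Agent.Full.Loc1.Channel

/-!
# The channels at the ends of the row of a domain in two sheets

`D.DeadEnd a`: the `a` columns at both ends of the row rectangle have walls below and above.  `phL`, `phR`
are the planar charts of the row on the left and on the right of the end `z`; `phC` is the chart of the
corridor which arises when the row is closed (the seam lies between the columns `-1` and `0`).
-/

set_option autoImplicit false

namespace Full
open Function Relation Loc1

/-- the planar chart on the left of `z` -/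
def phL (y : ℤ) (p : ℤ × ℤ) : ZT := if p.2 < y then Sum.inl p else Sum.inr p

/-- the planar chart on the right of `z`, coordinates of the upper sheet -/
def phR (y : ℤ) (p : ℤ × ℤ) : ZT := if p.2 < y then Sum.inl (p.1 + 1, p.2) else Sum.inr p

/-- the chart of the corridor of a closed row with the ends `l`, `r` -/
def phC (l r y : ℤ) (p : ℤ × ℤ) : ZT := if 0 ≤ p.1 then phL y (l + p.1, p.2) else phR y (r + p.1, p.2)

section charts
variable {y i j l r : ℤ}

lemma phL_low (h : j < y) : phL y (i, j) = Sum.inl (i, j) := if_pos h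
lemma phL_up (h : ¬ j < y) : phL y (i, j) = Sum.inr (i, j) := if_neg h
lemma phR_low (h : j < y) : phR y (i, j) = Sum.inl (i + 1, j) := if_pos h
lemma phR_up (h : ¬ j < y) : phR y (i, j) = Sum.inr (i, j) := if_neg h
lemma phC_pos (h : 0 ≤ i) : phC l r y (i, j) = phL y (l + i, j) := if_pos h
lemma phC_neg (h : ¬ 0 ≤ i) : phC l r y (i, j) = phR y (r + i, j) := if_neg h

lemma phL_inj {i' j' : ℤ} (h : phL y (i, j) = phL y (i', j')) : i = i' ∧ j = j' := by
  unfold phL at h
  dsimp only at h
  split_ifs at h
  · have := Prod.mk.inj (Sum.inl.inj h)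
    exact this
  · have := Prod.mk.inj (Sum.inr.inj h)
    exact this

lemma phR_inj {i' j' : ℤ} (h : phR y (i, j) = phR y (i', j')) : i = i' ∧ j = j' := by
  unfold phR at h
  dsimp only at h
  split_ifs at h
  · have := Prod.mk.inj (Sum.inl.inj h)
    exact ⟨by omega, this.2⟩
  · have := Prod.mk.inj (Sum.inr.inj h)
    exact this

/-- the charts are disjoint if the first one stays left of the second one -/
lemma phL_ne_phR {i' j' : ℤ} (h : i < i') : phL y (i, j) ≠ phR y (i', j') := by
  intro h1
  unfold phL phR at h1
  dsimp only at h1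
  split_ifs at h1
  · have := Prod.mk.inj (Sum.inl.inj h1)
    omega
  · have := Prod.mk.inj (Sum.inr.inj h1)
    omega

end charts

namespace Surf
variable {τ : Type*} [DecidableEq τ] {S : Surf τ} {T : Finset τ}

lemma glue_wall {t : τ} {d : Dir} (h : ∀ t' ∈ S.nb d t, t' ∉ T) : S.glue T (t, d) = (t, d) := by
  rcases S.glue_cases (T := T) (t, d) with h1 | ⟨t', h1, -, h2, -⟩
  · exact h1
  · exact absurd h2 (h t' h1)

end Surf

namespace Slab
variable {D : Slab} {x y : ℤ}

/-- the row has dead ends of length `a` -/
structure DeadEnd (D : Slab) (a : ℤ) : Prop where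
  low : ∀ i, (D.l ≤ i ∧ i < D.l + a) ∨ (D.r - a < i ∧ i ≤ D.r) → (i, D.b - 1) ∉ D.L
  up : ∀ i, (D.l ≤ i ∧ i < D.l + a) ∨ (D.r - a ≤ i ∧ i < D.r) → (i, D.t) ∉ D.U

lemma mem_phL {i j : ℤ} (h1 : D.l ≤ i) (h2 : i < D.r) (h3 : D.b ≤ j) (h4 : j < D.t) :
    phL y (i, j) ∈ D.T y := by
  by_cases h : j < y
  · rw [phL_low h, mem_low]; right; omega
  · rw [phL_up h, mem_up]; right; omega

lemma mem_phR {i j : ℤ} (_h1 : D.l ≤ i + 1) (h1' : D.l ≤ i) (h2 : i < D.r) (h3 : D.b ≤ j)
    (h4 : j < D.t) : phR y (i, j) ∈ D.T y := by
  by_cases h : j < y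
  · rw [phR_low h, mem_low]; right; omega
  · rw [phR_up h, mem_up]; right; omega

/-- the left channel, with open or closed rows -/
theorem channelL {a : ℤ} (hD : D.DeadEnd a) (b' t' : ℤ) (hx : D.l + a ≤ x) (hr : D.l + a ≤ D.r)
    (hb : D.b ≤ y) (ht : y ≤ D.t) :
    Channel (D.T y) ((zsurf D.l D.r x y b' t').glue (D.T y)) (phL y) D.l (D.l + a) D.b D.t := by
  refine ⟨?_, ?_, ?_, ?_, ?_, ?_⟩
  · intro i j h1 h2 h3 h4
    exact mem_phL h1 (by omega) h3 h4
  · intro i j i' j' _ _ _ _ _ _ _ _ h
    exact phL_inj h
  · intro i j h1 h2 h3 h4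
    refine Surf.glue_of_mem ?_ (mem_phL h1 (by omega) h3 h4) (mem_phL (by omega) (by omega) h3 h4)
    by_cases h : j < y
    · rw [phL_low h, phL_low h]
      exact zs_E_low (by omega) (by omega)
    · rw [phL_up h, phL_up h]
      exact zs_E_up (by omega) (by omega)
  · intro i j h1 h2 h3 h4
    refine Surf.glue_of_mem ?_ (mem_phL h1 (by omega) h3 (by omega))
      (mem_phL (by omega) (by omega) (by omega) h4)
    by_cases h : j + 1 < y
    · rw [phL_low (by omega : j < y), phL_low h]
      exact zs_N_low (by omega)
    · by_cases h5 : j < y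
      · have e : j = y - 1 := by omega
        subst e
        rw [phL_low h5, phL_up h]
        rw [show y - 1 + 1 = y by ring]
        exact zs_N_left h1 (by omega) (by omega)
      · rw [phL_up h5, phL_up h]
        exact zs_N_up (by omega)
  · intro i h1 h2
    refine Surf.glue_wall fun t'' ht'' => ?_
    have hL := hD.low i (Or.inl ⟨h1, h2⟩)
    by_cases h : D.b < y
    · rw [phL_low h, zs_S_low (by omega)] at ht''
      obtain rfl := Option.some.inj ht''
      rw [mem_low]
      rintro (h5 | h5)
      · exact hL h5
      · omega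
    · have e : y = D.b := by omega
      subst e
      rw [phL_up h, zs_S_left h1 (by omega) (by omega)] at ht''
      obtain rfl := Option.some.inj ht''
      rw [mem_low]
      rintro (h5 | h5)
      · exact hL h5
      · omega
  · intro i h1 h2
    refine Surf.glue_wall fun t'' ht'' => ?_
    have hU := hD.up i (Or.inl ⟨h1, h2⟩)
    by_cases h : D.t - 1 < y
    · have e : y = D.t := by omega
      subst e
      rw [phL_low h, zs_N_left h1 (by omega) (by omega)] at ht''
      obtain rfl := Option.some.inj ht''
      rw [mem_up]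
      rintro (h5 | h5)
      · exact hU h5
      · omega
    · rw [phL_up h, zs_N_up (by omega)] at ht''
      obtain rfl := Option.some.inj ht''
      rw [show D.t - 1 + 1 = D.t by ring, mem_up]
      rintro (h5 | h5)
      · exact hU h5
      · omega

/-- the right channel, with open or closed rows -/
theorem channelR {a : ℤ} (hD : D.DeadEnd a) (b' t' : ℤ) (hx : x ≤ D.r - a) (hl : D.l ≤ D.r - a)
    (hb : D.b ≤ y) (ht : y ≤ D.t) :
    Channel (D.T y) ((zsurf D.l D.r x y b' t').glue (D.T y)) (phR y) (D.r - a) D.r D.b D.t := by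
  refine ⟨?_, ?_, ?_, ?_, ?_, ?_⟩
  · intro i j h1 h2 h3 h4
    exact mem_phR (by omega) (by omega) h2 h3 h4
  · intro i j i' j' _ _ _ _ _ _ _ _ h
    exact phR_inj h
  · intro i j h1 h2 h3 h4
    refine Surf.glue_of_mem ?_ (mem_phR (by omega) (by omega) (by omega) h3 h4)
      (mem_phR (by omega) (by omega) (by omega) h3 h4)
    by_cases h : j < y
    · rw [phR_low h, phR_low h]
      exact zs_E_low (by omega) (by omega)
    · rw [phR_up h, phR_up h]
      exact zs_E_up (by omega) (by omega)
  · intro i j h1 h2 h3 h4
    refine Surf.glue_of_mem ?_ (mem_phR (by omega) (by omega) (by omega) h3 (by omega))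
      (mem_phR (by omega) (by omega) (by omega) (by omega) h4)
    by_cases h : j + 1 < y
    · rw [phR_low (by omega : j < y), phR_low h]
      exact zs_N_low (by omega)
    · by_cases h5 : j < y
      · have e : j = y - 1 := by omega
        subst e
        rw [phR_low h5, phR_up h, show y - 1 + 1 = y by ring]
        have h6 := zs_N_right (l := D.l) (r := D.r) (x := x) (y := y) (b := b') (t := t') (i := i + 1)
          (by omega) (by omega) (by omega)
        rw [show i + 1 - 1 = i by ring] at h6
        exact h6
      · rw [phR_up h5, phR_up h]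
        exact zs_N_up (by omega)
  · intro i h1 h2
    refine Surf.glue_wall fun t'' ht'' => ?_
    have hL := hD.low (i + 1) (Or.inr ⟨by omega, by omega⟩)
    by_cases h : D.b < y
    · rw [phR_low h, zs_S_low (by omega)] at ht''
      obtain rfl := Option.some.inj ht''
      rw [mem_low]
      rintro (h5 | h5)
      · exact hL h5
      · omega
    · have e : y = D.b := by omega
      subst e
      rw [phR_up h, zs_S_right (by omega) (by omega) (by omega)] at ht''
      obtain rfl := Option.some.inj ht''
      rw [mem_low]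
      rintro (h5 | h5)
      · exact hL h5
      · omega
  · intro i h1 h2
    refine Surf.glue_wall fun t'' ht'' => ?_
    have hU := hD.up i (Or.inr ⟨h1, h2⟩)
    by_cases h : D.t - 1 < y
    · have e : y = D.t := by omega
      subst e
      rw [phR_low h, zs_N_right (by omega) (by omega) (by omega)] at ht''
      obtain rfl := Option.some.inj ht''
      rw [show i + 1 - 1 = i by ring, mem_up]
      rintro (h5 | h5)
      · exact hU h5
      · omega
    · rw [phR_up h, zs_N_up (by omega)] at ht''
      obtain rfl := Option.some.inj ht''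
      rw [show D.t - 1 + 1 = D.t by ring, mem_up]
      rintro (h5 | h5)
      · exact hU h5
      · omega

/-- the left end of the row is a wall of the domain -/
theorem wallL : WallL (D.go x y) (phL y) D.l D.b D.t := by
  intro j h3 h4
  refine Surf.glue_wall fun t' ht' => ?_
  have hlr := D.hlr
  by_cases h : j < y
  · rw [phL_low h, Surf.mem_nb] at ht'
    cases t' with
    | inl q =>
      obtain ⟨i', j'⟩ := q
      by_cases h6 : i' = D.r ∨ i' = D.l - 1
      · rw [mem_low]
        have h5 : (zsurf D.l D.r x y y y).nb .E (.inl (i', j')) = some (.inl (i' + 1, j')) :=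
          zs_E_low_open (by omega)
        have h7 : (Sum.inl (D.l, j) : ZT) ∈ (some (.inl (i' + 1, j')) : Option ZT) := by
          rw [← h5]; exact ht'
        have h8 := Prod.mk.inj (Sum.inl.inj (Option.some.inj h7))
        rintro (h9 | h9)
        · exact D.hL i' j' (by omega) (by omega) (by omega) (by omega) h9
        · omega
      · have h5 : (zsurf D.l D.r x y y y).nb .E (.inl (i', j')) = some (.inl (i' + 1, j')) :=
          zs_E_low_open (by omega)
        have h7 : (Sum.inl (D.l, j) : ZT) ∈ (some (.inl (i' + 1, j')) : Option ZT) := by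
          rw [← h5]; exact ht'
        have h8 := Prod.mk.inj (Sum.inl.inj (Option.some.inj h7))
        omega
    | inr q =>
      obtain ⟨i', j'⟩ := q
      have h5 : (zsurf D.l D.r x y y y).nb .E (.inr (i', j')) = some (.inr (i' + 1, j')) :=
        zs_E_up_open (by omega)
      have h7 : (Sum.inl (D.l, j) : ZT) ∈ (some (.inr (i' + 1, j')) : Option ZT) := by
        rw [← h5]; exact ht'
      exact absurd (Option.some.inj h7) (by simp)
  · rw [phL_up h, Surf.mem_nb] at ht'
    cases t' with
    | inl q =>
      obtain ⟨i', j'⟩ := q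
      have h5 : (zsurf D.l D.r x y y y).nb .E (.inl (i', j')) = some (.inl (i' + 1, j')) :=
        zs_E_low_open (by omega)
      have h7 : (Sum.inr (D.l, j) : ZT) ∈ (some (.inl (i' + 1, j')) : Option ZT) := by
        rw [← h5]; exact ht'
      exact absurd (Option.some.inj h7) (by simp)
    | inr q =>
      obtain ⟨i', j'⟩ := q
      have h5 : (zsurf D.l D.r x y y y).nb .E (.inr (i', j')) = some (.inr (i' + 1, j')) :=
        zs_E_up_open (by omega)
      have h7 : (Sum.inr (D.l, j) : ZT) ∈ (some (.inr (i' + 1, j')) : Option ZT) := by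
        rw [← h5]; exact ht'
      have h8 := Prod.mk.inj (Sum.inr.inj (Option.some.inj h7))
      rw [mem_up]
      rintro (h9 | h9)
      · exact D.hU i' j' (by omega) (by omega) (by omega) (by omega) h9
      · omega

/-- the right end of the row is a wall of the domain -/
theorem wallR : WallR (D.go x y) (phR y) D.r D.b D.t := by
  intro j h3 h4
  refine Surf.glue_wall fun t' ht' => ?_
  have hlr := D.hlr
  by_cases h : j < y
  · rw [phR_low h, zs_E_low_open (by omega)] at ht'
    obtain rfl := Option.some.inj ht'
    rw [mem_low]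
    rintro (h9 | h9)
    · exact D.hL _ _ (by omega) (by omega) (by omega) (by omega) h9
    · omega
  · rw [phR_up h, zs_E_up_open (by omega)] at ht'
    obtain rfl := Option.some.inj ht'
    rw [mem_up]
    rintro (h9 | h9)
    · exact D.hU _ _ (by omega) (by omega) (by omega) (by omega) h9
    · omega

/-- **the corridor of the closed row** -/
theorem corridor {a : ℤ} (hD : D.DeadEnd a) (ha : 0 ≤ a) (hl : D.l + a ≤ x) (hr : x ≤ D.r - a)
    (hb : D.b ≤ y) (ht : y ≤ D.t) :
    Channel (D.T y) (D.gc x y) (phC D.l D.r y) (-a) a D.b D.t := by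
  have hL := channelL hD D.b D.t hl (by omega) hb ht
  have hR := channelR hD D.b D.t hr (by omega) hb ht
  refine ⟨?_, ?_, ?_, ?_, ?_, ?_⟩
  · intro i j h1 h2 h3 h4
    by_cases h : 0 ≤ i
    · rw [phC_pos h]; exact hL.mem _ _ (by omega) (by omega) h3 h4
    · rw [phC_neg h]; exact hR.mem _ _ (by omega) (by omega) h3 h4
  · intro i j i' j' h1 h2 h3 h4 h5 h6 h7 h8 h
    by_cases a1 : 0 ≤ i <;> by_cases a2 : 0 ≤ i'
    · rw [phC_pos a1, phC_pos a2] at h
      have := phL_inj h
      omega
    · rw [phC_pos a1, phC_neg a2] at h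
      exact absurd h (phL_ne_phR (by omega))
    · rw [phC_neg a1, phC_pos a2] at h
      exact absurd h.symm (phL_ne_phR (by omega))
    · rw [phC_neg a1, phC_neg a2] at h
      have := phR_inj h
      omega
  · intro i j h1 h2 h3 h4
    by_cases a1 : 0 ≤ i
    · rw [phC_pos a1, phC_pos (by omega : 0 ≤ i + 1)]
      have := hL.east (D.l + i) j (by omega) (by omega) h3 h4
      rw [show D.l + i + 1 = D.l + (i + 1) by ring] at this
      exact this
    · by_cases a2 : 0 ≤ i + 1
      · have e : i = -1 := by omega
        subst e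
        rw [phC_neg a1, phC_pos a2, show D.r + -1 = D.r - 1 by ring, show D.l + (-1 + 1) = D.l by ring]
        refine Surf.glue_of_mem ?_ (hR.mem _ _ (by omega) (by omega) h3 h4)
          (hL.mem _ _ (by omega) (by omega) h3 h4)
        by_cases h : j < y
        · rw [phR_low h, phL_low h, show D.r - 1 + 1 = D.r by ring]
          exact zs_E_low_end ⟨h3, h⟩
        · rw [phR_up h, phL_up h]
          exact zs_E_up_end ⟨by omega, h4⟩
      · rw [phC_neg a1, phC_neg a2]
        have := hR.east (D.r + i) j (by omega) (by omega) h3 h4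
        rw [show D.r + i + 1 = D.r + (i + 1) by ring] at this
        exact this
  · intro i j h1 h2 h3 h4
    by_cases a1 : 0 ≤ i
    · rw [phC_pos a1, phC_pos a1]; exact hL.north _ _ (by omega) (by omega) h3 h4
    · rw [phC_neg a1, phC_neg a1]; exact hR.north _ _ (by omega) (by omega) h3 h4
  · intro i h1 h2
    by_cases a1 : 0 ≤ i
    · rw [phC_pos a1]; exact hL.floor _ (by omega) (by omega)
    · rw [phC_neg a1]; exact hR.floor _ (by omega) (by omega)
  · intro i h1 h2
    by_cases a1 : 0 ≤ i
    · rw [phC_pos a1]; exact hL.ceil _ (by omega) (by omega)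
    · rw [phC_neg a1]; exact hR.ceil _ (by omega) (by omega)

end Slab

end Full
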