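import Pool.Agent.Full.Perc.BK
import Pool.Agent.Full.Def.Surf

/-!
# The error of the corridor

An amplitude `A` which equals `c0 * f + c1` on a good event `G`, whose second moment is bounded, has the
expectation `c0 * E f + c1` up to the square root of the probability of the complement of `G`.
-/

set_option autoImplicit false
set_option linter.unusedSectionVars false

namespace Full.Loc1
open Pool.Agent.Helper69.RSW Full.Perc

variable {E : Type*} [DecidableEq E]

/-- complex expectation of a function of the configuration -/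
noncomputable def CEx (F : Finset E) (f : Finset E → ℂ) : ℂ := (∑ S ∈ F.powerset, f S) / 2 ^ F.card

lemma CEx_congr {F : Finset E} {f g : Finset E → ℂ} (h : ∀ S ⊆ F, f S = g S) : CEx F f = CEx F g := by
  unfold CEx
  rw [Finset.sum_congr rfl fun S hS => h S (Finset.mem_powerset.1 hS)]

lemma CEx_add (F : Finset E) (f g : Finset E → ℂ) :
    CEx F (fun S => f S + g S) = CEx F f + CEx F g := by
  unfold CEx; rw [Finset.sum_add_distrib, add_div]

lemma CEx_sub (F : Finset E) (f g : Finset E → ℂ) :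
    CEx F (fun S => f S - g S) = CEx F f - CEx F g := by
  unfold CEx; rw [Finset.sum_sub_distrib, sub_div]

lemma CEx_mul (F : Finset E) (c : ℂ) (f : Finset E → ℂ) :
    CEx F (fun S => c * f S) = c * CEx F f := by
  unfold CEx; rw [← Finset.mul_sum, mul_div_assoc]

lemma CEx_const (F : Finset E) (c : ℂ) : CEx F (fun _ => c) = c := by
  unfold CEx
  rw [Finset.sum_const, Finset.card_powerset, nsmul_eq_mul]
  push_cast
  field_simp

lemma CEx_sum {ι : Type*} (F : Finset E) (I : Finset ι) (f : ι → Finset E → ℂ) :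
    CEx F (fun S => ∑ i ∈ I, f i S) = ∑ i ∈ I, CEx F (f i) := by
  unfold CEx; rw [Finset.sum_comm, Finset.sum_div]

lemma CEx_ofReal (F : Finset E) (f : Finset E → ℝ) :
    CEx F (fun S => (f S : ℂ)) = (Ex F f : ℂ) := by
  unfold CEx Ex
  push_cast
  rfl

lemma norm_CEx_le (F : Finset E) (f : Finset E → ℂ) : ‖CEx F f‖ ≤ Ex F (fun S => ‖f S‖) := by
  unfold CEx Ex
  rw [norm_div, norm_pow]
  have h2 : ‖(2 : ℂ)‖ = 2 := by norm_num
  rw [h2]
  exact div_le_div_of_nonneg_right (norm_sum_le _ _) (by positivity)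

open Classical in
lemma CEx_ite (F : Finset E) (A : Finset E → Prop) :
    CEx F (fun S => if A S then 1 else 0) = (P F A : ℂ) := by
  rw [← Ex_ite, ← CEx_ofReal]
  exact CEx_congr fun S _ => by split_ifs <;> simp

/-- Cauchy-Schwarz for the expectation -/
lemma Ex_mul_sq_le (F : Finset E) (f g : Finset E → ℝ) :
    Ex F (fun S => f S * g S) ^ 2 ≤ Ex F (fun S => f S ^ 2) * Ex F (fun S => g S ^ 2) := by
  unfold Ex
  rw [div_pow, div_mul_div_comm, ← pow_two]
  exact div_le_div_of_nonneg_right (Finset.sum_mul_sq_le_sq_mul_sq _ _ _) (by positivity)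

open Classical in
/-- the expectation on a rare event -/
lemma Ex_bad_le {F : Finset E} {f : Finset E → ℝ} {G : Finset E → Prop} {B p : ℝ}
    (hB : Ex F (fun S => f S ^ 2) ≤ B) (hp : P F (fun S => ¬ G S) ≤ p) :
    Ex F (fun S => if G S then 0 else f S) ≤ √(B * p) := by
  have hB0 : 0 ≤ B := (Ex_nonneg fun S _ => sq_nonneg _).trans hB
  have hp0 : 0 ≤ p := (P_nonneg _ _).trans hp
  refine Real.le_sqrt_of_sq_le ?_
  have h1 := Ex_mul_sq_le F (fun S => f S) (fun S => if G S then 0 else 1)
  have h2 : (fun S => f S * (if G S then (0 : ℝ) else 1)) = fun S => if G S then 0 else f S := by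
    funext S; split_ifs <;> simp
  have h3 : Ex F (fun S => (if G S then (0 : ℝ) else 1) ^ 2) = P F (fun S => ¬ G S) := by
    rw [← Ex_ite]
    exact Ex_congr fun S _ => by by_cases h : G S <;> simp [h]
  rw [h2, h3] at h1
  exact h1.trans (mul_le_mul hB hp (P_nonneg _ _) hB0)

/-- **the error of the corridor** -/
theorem norm_CEx_sub_le {F : Finset E} {A f : Finset E → ℂ} {c0 c1 : ℂ} {G : Finset E → Prop}
    {B p b : ℝ} (hG : ∀ S ⊆ F, G S → A S = c0 * f S + c1) (hb : 0 ≤ b) (hf : ∀ S ⊆ F, ‖f S‖ ≤ b)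
    (hB : Ex F (fun S => ‖A S‖ ^ 2) ≤ B) (hp : P F (fun S => ¬ G S) ≤ p) :
    ‖CEx F A - (c0 * CEx F f + c1)‖ ≤ √(B * p) + (‖c0‖ * b + ‖c1‖) * p := by
  classical
  have h1 : CEx F A - (c0 * CEx F f + c1) = CEx F (fun S => A S - (c0 * f S + c1)) := by
    rw [CEx_sub, CEx_add, CEx_mul, CEx_const]
  rw [h1]
  refine (norm_CEx_le _ _).trans ?_
  have hk : 0 ≤ ‖c0‖ * b + ‖c1‖ := by positivity
  have h2 : ∀ S ⊆ F, ‖A S - (c0 * f S + c1)‖ ≤
      (if G S then 0 else ‖A S‖) + (‖c0‖ * b + ‖c1‖) * (if G S then 0 else 1) := by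
    intro S hS
    by_cases h : G S
    · rw [if_pos h, if_pos h, hG S hS h, sub_self, norm_zero]
      simp
    · rw [if_neg h, if_neg h, mul_one]
      refine (norm_sub_le _ _).trans (add_le_add le_rfl ((norm_add_le _ _).trans ?_))
      rw [norm_mul]
      have := mul_le_mul_of_nonneg_left (hf S hS) (norm_nonneg c0)
      linarith
  refine (Ex_mono h2).trans ?_
  have h3 : Ex F (fun S => if G S then (0 : ℝ) else 1) = P F (fun S => ¬ G S) := by
    rw [← Ex_ite]
    exact Ex_congr fun S _ => by by_cases h : G S <;> simp [h]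
  rw [Ex_add, Ex_mul, h3]
  exact add_le_add (Ex_bad_le hB hp) (mul_le_mul_of_nonneg_left hp hk)

/-! ### the observable as an expectation -/

/-- the value of the end `x` of the strand of `z` -/
noncomputable def val {X : Type*} [DecidableEq X] (e : Fin 3 → X) (x : X) : ℂ :=
  ∑ j : Fin 3, Complex.exp (2 * Real.pi * Complex.I / 3) ^ (j : ℕ) * (if x = e j then 1 else 0)

lemma norm_tau : ‖Complex.exp (2 * Real.pi * Complex.I / 3)‖ = 1 := by
  rw [show (2 * Real.pi * Complex.I / 3 : ℂ) = ((2 * Real.pi / 3 : ℝ) : ℂ) * Complex.I by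
    push_cast; ring]
  exact Complex.norm_exp_ofReal_mul_I _

lemma val_apply {X : Type*} [DecidableEq X] {e : Fin 3 → X} (he : Function.Injective e) (j : Fin 3) :
    val e (e j) = Complex.exp (2 * Real.pi * Complex.I / 3) ^ (j : ℕ) := by
  unfold val
  rw [Finset.sum_eq_single j]
  · rw [if_pos rfl, mul_one]
  · intro i _ hi
    rw [if_neg (fun h => hi (he h).symm), mul_zero]
  · intro h
    exact absurd (Finset.mem_univ j) h

lemma val_of_ne {X : Type*} [DecidableEq X] {e : Fin 3 → X} {x : X} (h : ∀ j, x ≠ e j) :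
    val e x = 0 := by
  unfold val
  exact Finset.sum_eq_zero fun j _ => by rw [if_neg (h j), mul_zero]

lemma norm_val_le {X : Type*} [DecidableEq X] {e : Fin 3 → X} (he : Function.Injective e) (x : X) :
    ‖val e x‖ ≤ 1 := by
  by_cases h : ∃ j, x = e j
  · obtain ⟨j, rfl⟩ := h
    rw [val_apply he, norm_pow, norm_tau, one_pow]
  · push Not at h
    rw [val_of_ne h, norm_zero]
    exact zero_le_one

/-- the observable is the expectation of the value of the end of the strand of `z` -/
theorem obs_eq_CEx {τ : Type*} [DecidableEq τ] (T : Finset τ) (w : Half τ → Half τ) (z : Half τ)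
    (e : Fin 3 → Half τ) :
    obs T w z e = CEx T (fun ω => val e (other (mate ω) w z)) := by
  classical
  unfold obs val
  rw [CEx_sum]
  refine Finset.sum_congr rfl fun j _ => ?_
  rw [CEx_mul, ← CEx_ite]
  congr 1
  exact CEx_congr fun S _ => by congr

/-- **assembly**: the amplitude `A` of the surface with the closed row against the observable of the
domain with the wall `w` -/
theorem norm_amp_sub_obs_le {τ : Type*} [DecidableEq τ] {T : Finset τ} {w : Half τ → Half τ}
    {z : Half τ} {e : Fin 3 → Half τ} (he : Function.Injective e) {A : Finset τ → ℂ} {c0 c1 : ℂ}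
    {G : Finset τ → Prop} {B p : ℝ}
    (hG : ∀ ω ⊆ T, G ω → A ω = c0 * val e (other (mate ω) w z) + c1)
    (hB : Ex T (fun ω => ‖A ω‖ ^ 2) ≤ B) (hp : P T (fun ω => ¬ G ω) ≤ p) :
    ‖CEx T A - (c0 * obs T w z e + c1)‖ ≤ √(B * p) + (‖c0‖ + ‖c1‖) * p := by
  rw [obs_eq_CEx]
  have h := norm_CEx_sub_le (b := 1) hG zero_le_one (fun ω _ => norm_val_le he _) hB hp
  rwa [mul_one] at h

end Full.Loc1
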