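import Pool.Agent.Full.Loc1.ZoneW
import Pool.Agent.Full.Loc1.SlabCh

/-!
# The part of a domain with a closed row behind two blocking chains

A blocking chain in the left and in the right dead end of the row cut off the zone `D.zone`, which contains
the two ends of the row.  It is invariant under the tiles, the gluing `go` of the domain, the gluing `gc`
with the closed row and the closed wall of the domain if the chains have its colours.  In particular the
strand of the end `z` does not notice whether the row is closed, `obs_close_le`.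
-/

set_option autoImplicit false

namespace Full
open Function Relation Loc1 Pool.Agent.Helper69.RSW

namespace Slab
variable (D : Slab) (x y a : ℤ)

/-- the zone between the chain in the left dead end and the chain in the right dead end, through the seam -/
def zone (rL rR : ℤ) (QL QR : Finset (ℤ × ℤ)) : Set (Half ZT) :=
  LeftZ (phL y) D.l (D.l + a) D.b D.t rL QL ∪ RightZ (phR y) (D.r - a) D.r D.b D.t rR QR

/-- blocking chains strictly inside the two dead ends -/
structure Blocked (ω : Finset ZT) (rL rR : ℤ) (QL QR : Finset (ℤ × ℤ)) : Prop where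
  left : Block rL (D.l + 1) (D.l + a - 1) D.b D.t (pre (phL y) (box (D.l + 1) (D.l + a - 1) D.b D.t) ω) QL
  right : Block rR (D.r - a + 1) (D.r - 1) D.b D.t
    (pre (phR y) (box (D.r - a + 1) (D.r - 1) D.b D.t) ω) QR

/-- the geometric hypotheses: dead ends of length `a` on both sides of `z` -/
structure Good : Prop where
  dead : D.DeadEnd a
  pos : 2 ≤ a
  bt : D.b < D.t
  xl : D.l + a ≤ x
  xr : x ≤ D.r - a
  yb : D.b ≤ y
  yt : y ≤ D.t

variable {D x y a} {rL rR : ℤ} {QL QR : Finset (ℤ × ℤ)} {ω : Finset ZT}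

/-- smaller boxes -/
theorem blocked_of {cL dL cR dR : ℤ}
    (hL : Block rL cL dL D.b D.t (pre (phL y) (box cL dL D.b D.t) ω) QL)
    (hR : Block rR cR dR D.b D.t (pre (phR y) (box cR dR D.b D.t) ω) QR)
    (h1 : D.l < cL) (h2 : dL < D.l + a) (h3 : D.r - a < cR) (h4 : dR < D.r) :
    D.Blocked y a ω rL rR QL QR := by
  constructor
  · refine ⟨fun p hp => ?_, fun p hp => ?_, hL.even, hL.odd⟩
    · have := hL.sub p hp; omega
    · rw [← hL.col p hp]
      have := hL.sub p hp
      unfold pre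
      rw [Finset.mem_filter, Finset.mem_filter, show p = (p.1, p.2) from rfl, mem_box, mem_box]
      constructor
      · rintro ⟨-, h6⟩; exact ⟨this, h6⟩
      · rintro ⟨h5, h6⟩; exact ⟨by omega, h6⟩
  · refine ⟨fun p hp => ?_, fun p hp => ?_, hR.even, hR.odd⟩
    · have := hR.sub p hp; omega
    · rw [← hR.col p hp]
      have := hR.sub p hp
      unfold pre
      rw [Finset.mem_filter, Finset.mem_filter, show p = (p.1, p.2) from rfl, mem_box, mem_box]
      constructor
      · rintro ⟨-, h6⟩; exact ⟨this, h6⟩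
      · rintro ⟨h5, h6⟩; exact ⟨by omega, h6⟩

namespace Blocked
variable (hB : D.Blocked y a ω rL rR QL QR)
include hB

/-- the strands -/
theorem mate_mem {q : Half ZT} (hq : q ∈ D.zone y a rL rR QL QR) :
    mate ω q ∈ D.zone y a rL rR QL QR := by
  rcases hq with hq | hq
  · exact Or.inl (LeftZ.mate hB.left hq)
  · exact Or.inr (RightZ.mate hB.right hq)

theorem mate_iff {q : Half ZT} :
    mate ω q ∈ D.zone y a rL rR QL QR ↔ q ∈ D.zone y a rL rR QL QR :=
  ⟨fun h => by have := hB.mate_mem h; rwa [mate_mate] at this, hB.mate_mem⟩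

/-- the gluing of the domain -/
theorem go_mem (hD : D.Good x y a) (hl : rL = 0 ∨ rL = 1) (hr : rR = 0 ∨ rR = 1) {q : Half ZT}
    (hq : q ∈ D.zone y a rL rR QL QR) : D.go x y q ∈ D.zone y a rL rR QL QR := by
  obtain ⟨h1, h2, h3, h4, h5, h6, h7⟩ := hD
  rcases hq with hq | hq
  · rcases LeftZ.glue glu_go (channelL h1 y y h4 (by omega) h6 h7) hl hB.left (by omega) hq with h | ⟨j, a1, a2, rfl⟩
    · exact Or.inl h
    · rw [wallL j a1 a2]; exact Or.inl hq
  · rcases RightZ.glue glu_go (channelR h1 y y h5 (by omega) h6 h7) hr hB.right (by omega) hq with h | ⟨j, a1, a2, rfl⟩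
    · exact Or.inr h
    · rw [wallR j a1 a2]; exact Or.inr hq

theorem go_iff (hD : D.Good x y a) (hl : rL = 0 ∨ rL = 1) (hr : rR = 0 ∨ rR = 1) {q : Half ZT} :
    D.go x y q ∈ D.zone y a rL rR QL QR ↔ q ∈ D.zone y a rL rR QL QR :=
  ⟨fun h => by have := hB.go_mem hD hl hr h; rwa [glu_go.inv] at this, hB.go_mem hD hl hr⟩

/-- the gluing with the closed row, through the seam -/
theorem gc_mem (hD : D.Good x y a) (hl : rL = 0 ∨ rL = 1) (hr : rR = 0 ∨ rR = 1) {q : Half ZT}
    (hq : q ∈ D.zone y a rL rR QL QR) : D.gc x y q ∈ D.zone y a rL rR QL QR := by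
  obtain ⟨h1, h2, h3, h4, h5, h6, h7⟩ := hD
  have hC := corridor (x := x) (y := y) h1 (by omega) h4 h5 h6 h7
  have seam : ∀ j, D.b ≤ j → j < D.t → D.gc x y (phR y (D.r - 1, j), .E) = (phL y (D.l, j), .W) := by
    intro j a1 a2
    have := hC.east (-1) j (by omega) (by omega) a1 a2
    rw [phC_neg (by norm_num), phC_pos (by norm_num), show D.r + -1 = D.r - 1 by ring,
      show D.l + (-1 + 1) = D.l by ring] at this
    exact this
  rcases hq with hq | hq
  · rcases LeftZ.glue glu_gc (channelL h1 D.b D.t h4 (by omega) h6 h7) hl hB.left (by omega) hq with h | ⟨j, a1, a2, rfl⟩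
    · exact Or.inl h
    · right
      rw [← seam j a1 a2, glu_gc.inv]
      exact ⟨D.r - 1, j, .E, by omega, by omega, a1, a2, rfl, sep_right hB.right (by omega) a1 a2 _⟩
  · rcases RightZ.glue glu_gc (channelR h1 D.b D.t h5 (by omega) h6 h7) hr hB.right (by omega) hq with h | ⟨j, a1, a2, rfl⟩
    · exact Or.inr h
    · left
      rw [seam j a1 a2]
      exact ⟨D.l, j, .W, le_rfl, by omega, a1, a2, rfl, sep_left hB.left (by omega) _⟩

theorem gc_iff (hD : D.Good x y a) (hl : rL = 0 ∨ rL = 1) (hr : rR = 0 ∨ rR = 1) {q : Half ZT} :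
    D.gc x y q ∈ D.zone y a rL rR QL QR ↔ q ∈ D.zone y a rL rR QL QR :=
  ⟨fun h => by have := hB.gc_mem hD hl hr h; rwa [glu_gc.inv] at this, hB.gc_mem hD hl hr⟩

/-- the right ends of the rows are in the zone -/
theorem end_mem (hD : D.Good x y a) {j : ℤ} (h1 : D.b ≤ j) (h2 : j < D.t) (v : Dir) :
    (phR y (D.r - 1, j), v) ∈ D.zone y a rL rR QL QR :=
  Or.inr ⟨D.r - 1, j, v, by have := hD.pos; omega, by omega, h1, h2, rfl,
    sep_right hB.right (by omega) h1 h2 _⟩

/-- outside of the zone the two gluings agree on the right sides -/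
theorem gc_eq_go_E (hD : D.Good x y a) {τ : ZT} (hq : (τ, Dir.E) ∉ D.zone y a rL rR QL QR) :
    D.gc x y (τ, .E) = D.go x y (τ, .E) := by
  by_cases hT : τ ∈ D.T y
  swap
  · rw [Glu.out glu_gc _ hT, Glu.out glu_go _ hT]
  have key : (zsurf D.l D.r x y D.b D.t).nb .E τ = (zsurf D.l D.r x y y y).nb .E τ := by
    rcases τ with ⟨i, j⟩ | ⟨i, j⟩
    · by_cases hj : D.b ≤ j ∧ j < y
      · rw [zs_E_low_open (b := y) (t := y) (by omega)]
        refine zs_E_low ?_ ?_
        · rintro rfl
          apply hq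
          have h1 := hB.end_mem hD hj.1 (lt_of_lt_of_le hj.2 hD.yt) .E
          rw [phR_low hj.2, sub_add_cancel] at h1
          exact h1
        · rintro rfl
          rw [mem_low] at hT
          rcases hT with h | h
          · have := D.hlr
            exact D.hL _ _ (by omega) (by omega) hj.1 (by have := hD.yt; omega) h
          · omega
      · rw [zs_E_low_open (b := y) (t := y) (by omega), zs_E_low_open hj]
    · by_cases hj : y ≤ j ∧ j < D.t
      · rw [zs_E_up_open (b := y) (t := y) (by omega)]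
        refine zs_E_up ?_ ?_
        · rintro rfl
          apply hq
          have h1 := hB.end_mem hD (le_trans hD.yb hj.1) hj.2 .E
          rw [phR_up (by omega)] at h1
          exact h1
        · rintro rfl
          rw [mem_up] at hT
          rcases hT with h | h
          · have := D.hlr
            exact D.hU _ _ (by omega) (by omega) (by have := hD.yb; omega) hj.2 h
          · omega
      · rw [zs_E_up_open (b := y) (t := y) (by omega), zs_E_up_open hj]
  show (zsurf D.l D.r x y D.b D.t).glue (D.T y) (τ, .E) = (zsurf D.l D.r x y y y).glue (D.T y) (τ, .E)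
  unfold Surf.glue
  simp only [key]

/-- **outside of the zone the two gluings agree** -/
theorem gc_eq_go (hD : D.Good x y a) (hl : rL = 0 ∨ rL = 1) (hr : rR = 0 ∨ rR = 1) {q : Half ZT}
    (hq : q ∉ D.zone y a rL rR QL QR) : D.gc x y q = D.go x y q := by
  obtain ⟨τ, v⟩ := q
  cases v with
  | E => exact hB.gc_eq_go_E hD hq
  | N => rfl
  | S => rfl
  | W =>
    by_cases h1 : D.go x y (τ, .W) = (τ, .W)
    · rw [h1]
      by_contra h2
      have h3 : (D.gc x y (τ, .W)).2 = Dir.E := straight_gc _ h2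
      have h4 : D.gc x y (τ, .W) ∉ D.zone y a rL rR QL QR := by rwa [hB.gc_iff hD hl hr]
      obtain ⟨τ', hτ'⟩ : ∃ τ', D.gc x y (τ, .W) = (τ', .E) := ⟨_, Prod.ext rfl h3⟩
      rw [hτ'] at h4 h2
      have h5 := hB.gc_eq_go_E hD h4
      rw [← hτ', glu_gc.inv, hτ'] at h5
      have h6 := congrArg (D.go x y) h5
      rw [h1, glu_go.inv] at h6
      exact h2 h6.symm
    · have h3 : (D.go x y (τ, .W)).2 = Dir.E := straight_go _ h1
      have h4 : D.go x y (τ, .W) ∉ D.zone y a rL rR QL QR := by rwa [hB.go_iff hD hl hr]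
      obtain ⟨τ', hτ'⟩ : ∃ τ', D.go x y (τ, .W) = (τ', .E) := ⟨_, Prod.ext rfl h3⟩
      rw [hτ'] at h4 ⊢
      have h5 := hB.gc_eq_go_E hD h4
      rw [← hτ', glu_go.inv] at h5
      rw [← h5, glu_gc.inv]
      exact hτ'

/-- a closed wall of the domain with the colours of the chains -/
theorem wall_mem (hD : D.Good x y a) (hl : rL = 0 ∨ rL = 1) (hr : rR = 0 ∨ rR = 1)
    {w : Half ZT → Half ZT} (hw : Ext (D.T y) (D.go x y) w)
    (hpl : PairsL w (phL y) D.l (D.l + a) D.b D.t rL) (hpr : PairsR w (phR y) (D.r - a) D.r D.b D.t rR)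
    {q : Half ZT} (hq : q ∈ D.zone y a rL rR QL QR) : w q ∈ D.zone y a rL rR QL QR := by
  obtain ⟨h1, h2, h3, h4, h5, h6, h7⟩ := hD
  rcases hq with hq | hq
  · exact Or.inl (LeftZ.wall glu_go (channelL h1 y y h4 (by omega) h6 h7) wallL hw hl hpl hB.left h3
      (by omega) (by omega) hq)
  · exact Or.inr (RightZ.wall glu_go (channelR h1 y y h5 (by omega) h6 h7) wallR hw hr hpr hB.right h3
      (by omega) (by omega) hq)

theorem wall_iff (hD : D.Good x y a) (hl : rL = 0 ∨ rL = 1) (hr : rR = 0 ∨ rR = 1)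
    {w : Half ZT → Half ZT} (hw : Ext (D.T y) (D.go x y) w)
    (hpl : PairsL w (phL y) D.l (D.l + a) D.b D.t rL) (hpr : PairsR w (phR y) (D.r - a) D.r D.b D.t rR)
    {q : Half ZT} : w q ∈ D.zone y a rL rR QL QR ↔ q ∈ D.zone y a rL rR QL QR :=
  ⟨fun h => by have := hB.wall_mem hD hl hr hw hpl hpr h; rwa [hw.inv] at this,
    hB.wall_mem hD hl hr hw hpl hpr⟩

/-- the strands of the surface with the closed row outside of the zone are the strands of the domain -/
theorem other_gc (hD : D.Good x y a) (hl : rL = 0 ∨ rL = 1) (hr : rR = 0 ∨ rR = 1) {q : Half ZT}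
    (hq : q ∉ D.zone y a rL rR QL QR) :
    other (mate ω) (D.gc x y) q = other (mate ω) (D.go x y) q := by
  have h : Barrier (mate ω) (D.go x y) (D.gc x y) (D.zone y a rL rR QL QR)ᶜ :=
    ⟨fun p hp => by rw [Set.mem_compl_iff, hB.mate_iff]; exact hp,
      fun p hp => by rw [Set.mem_compl_iff, hB.go_iff hD hl hr]; exact hp,
      fun p hp => hB.gc_eq_go hD hl hr hp⟩
  exact h.other_eq hq

/-- two closed walls which agree except at the ends of the row -/
theorem other_wall (hD : D.Good x y a) (hl : rL = 0 ∨ rL = 1) (hr : rR = 0 ∨ rR = 1)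
    {w1 w2 : Half ZT → Half ZT} (hw : Ext (D.T y) (D.go x y) w1)
    (hpl : PairsL w1 (phL y) D.l (D.l + a) D.b D.t rL) (hpr : PairsR w1 (phR y) (D.r - a) D.r D.b D.t rR)
    (hagree : ∀ q : Half ZT, (∀ j, D.b ≤ j → j < D.t → q.1 ≠ phL y (D.l, j) ∧ q.1 ≠ phR y (D.r - 1, j)) →
      w2 q = w1 q) {q : Half ZT} (hq : q ∉ D.zone y a rL rR QL QR) :
    other (mate ω) w2 q = other (mate ω) w1 q := by
  have h : Barrier (mate ω) w1 w2 (D.zone y a rL rR QL QR)ᶜ := by
    refine ⟨fun p hp => by rw [Set.mem_compl_iff, hB.mate_iff]; exact hp,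
      fun p hp => by rw [Set.mem_compl_iff, hB.wall_iff hD hl hr hw hpl hpr]; exact hp, fun p hp => ?_⟩
    refine hagree p fun j h1 h2 => ⟨fun h3 => hp ?_, fun h3 => hp ?_⟩
    · left
      exact ⟨D.l, j, p.2, le_rfl, by have := hD.pos; omega, h1, h2, Prod.ext h3 rfl,
        sep_left hB.left (by omega) _⟩
    · rw [show p = (phR y (D.r - 1, j), p.2) from Prod.ext h3 rfl]
      exact hB.end_mem hD h1 h2 _
  exact h.other_eq hq

end Blocked

/-- the half edges outside of the two dead ends are outside of the zone -/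
theorem notMem_zone {q : Half ZT}
    (h : ∀ i j, D.b ≤ j → j < D.t → (D.l ≤ i → i < D.l + a → q.1 ≠ phL y (i, j)) ∧
      (D.r - a ≤ i → i < D.r → q.1 ≠ phR y (i, j))) : q ∉ D.zone y a rL rR QL QR := by
  rintro (⟨i, j, v, h1, h2, h3, h4, h5, -⟩ | ⟨i, j, v, h1, h2, h3, h4, h5, -⟩)
  · exact (h i j h3 h4).1 h1 h2 (congrArg Prod.fst h5)
  · exact (h i j h3 h4).2 h1 h2 (congrArg Prod.fst h5)

/-- the interior end is outside of the zone -/
theorem z_notMem_zone (hD : D.Good x y a) : Slab.z x y ∉ D.zone y a rL rR QL QR := by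
  obtain ⟨h1, h2, h3, h4, h5, h6, h7⟩ := hD
  refine notMem_zone fun i j a1 a2 => ⟨fun a3 a4 h => ?_, fun a3 a4 h => ?_⟩
  · have h8 : (Sum.inl (x, y - 1) : ZT) = phL y (i, j) := h
    by_cases hj : j < y
    · rw [phL_low hj] at h8
      have := Prod.mk.inj (Sum.inl.inj h8)
      omega
    · rw [phL_up hj] at h8
      exact absurd h8 (by simp)
  · have h8 : (Sum.inl (x, y - 1) : ZT) = phR y (i, j) := h
    by_cases hj : j < y
    · rw [phR_low hj] at h8
      have := Prod.mk.inj (Sum.inl.inj h8)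
      omega
    · rw [phR_up hj] at h8
      exact absurd h8 (by simp)

/-- **the dead ends are blocked with high probability**, for any colours of the chains -/
theorem P_not_blocked (hD : D.Good x y a) (A : ℕ) (hA : A * (D.t - D.b) ≤ a - 2) (hl : rL = 0 ∨ rL = 1)
    (hr : rR = 0 ∨ rR = 1) :
    P (D.T y) (fun ω => ¬ ∃ QL QR, D.Blocked y a ω rL rR QL QR) ≤ 2 * thB ^ A := by
  obtain ⟨h1, h2, h3, h4, h5, h6, h7⟩ := hD
  have hL := no_block_prob (T := D.T y) (φ := phL y) (c := D.l + 1) (d := D.l + a - 1) (b := D.b) (t := D.t) A hl h3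
    (by linarith) (fun p _ q _ h => by
      have := phL_inj (i := p.1) (j := p.2) (i' := q.1) (j' := q.2) h
      exact Prod.ext this.1 this.2)
    (by
      rintro ⟨i, j⟩ hp
      rw [mem_box] at hp
      exact mem_phL (by omega) (by omega) hp.2.1 hp.2.2)
  have hR := no_block_prob (T := D.T y) (φ := phR y) (c := D.r - a + 1) (d := D.r - 1) (b := D.b) (t := D.t) A hr h3
    (by linarith) (fun p _ q _ h => by
      have := phR_inj (i := p.1) (j := p.2) (i' := q.1) (j' := q.2) h
      exact Prod.ext this.1 this.2)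
    (by
      rintro ⟨i, j⟩ hp
      rw [mem_box] at hp
      exact mem_phR (by omega) (by omega) (by omega) hp.2.1 hp.2.2)
  refine le_trans (P_mono (B := fun ω =>
    (¬ ∃ Q, Block rL (D.l + 1) (D.l + a - 1) D.b D.t (pre (phL y) (box (D.l + 1) (D.l + a - 1) D.b D.t) ω) Q) ∨
    (¬ ∃ Q, Block rR (D.r - a + 1) (D.r - 1) D.b D.t
      (pre (phR y) (box (D.r - a + 1) (D.r - 1) D.b D.t) ω) Q)) ?_) ((P_or_le _ _ _).trans ?_)
  · intro ω _ hn
    by_contra hcon
    push Not at hcon
    obtain ⟨⟨QL, hQL⟩, QR, hQR⟩ := hcon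
    exact hn ⟨QL, QR, hQL, hQR⟩
  · rw [two_mul]
    exact add_le_add hL hR

/-- **closing the row changes the observable by an exponentially small amount** -/
theorem obs_close_le (hD : D.Good x y a) (A : ℕ) (hA : A * (D.t - D.b) ≤ a - 2) (hl : rL = 0 ∨ rL = 1)
    (hr : rR = 0 ∨ rR = 1) {w1 w2 : Half ZT → Half ZT} (hw : Ext (D.T y) (D.go x y) w1)
    (hpl : PairsL w1 (phL y) D.l (D.l + a) D.b D.t rL) (hpr : PairsR w1 (phR y) (D.r - a) D.r D.b D.t rR)
    (hagree : ∀ q : Half ZT, (∀ j, D.b ≤ j → j < D.t → q.1 ≠ phL y (D.l, j) ∧ q.1 ≠ phR y (D.r - 1, j)) →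
      w2 q = w1 q) (e : Fin 3 → Half ZT) :
    ‖obs (D.T y) w2 (Slab.z x y) e - obs (D.T y) w1 (Slab.z x y) e‖ ≤ 6 * thB ^ A := by
  refine (obs_sub_le (G := fun ω => ∃ QL QR, D.Blocked y a ω rL rR QL QR) ?_ e).trans ?_
  · rintro ω - ⟨QL, QR, hB⟩
    exact hB.other_wall hD hl hr hw hpl hpr hagree (z_notMem_zone hD)
  · have := P_not_blocked (x := x) (y := y) hD A hA hl hr
    linarith

/-- the closed wall of the domain is paired at the dead ends if it has no end there -/
theorem exists_pairsL (hD : D.Good x y a) {w : Half ZT → Half ZT} (hw : Wall (D.T y) (D.go x y) w)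
    (hm : ∀ s, -a ≤ s → s < D.t - D.b + a → w (endL (phL y) D.l D.b D.t s) ≠ endL (phL y) D.l D.b D.t s) :
    ∃ e : ℤ, (e = 0 ∨ e = 1) ∧ PairsL w (phL y) D.l (D.l + a) D.b D.t e := by
  obtain ⟨h1, h2, h3, h4, h5, h6, h7⟩ := hD
  obtain ⟨e, he, -, h⟩ := cappedL glu_go hw (channelL h1 y y h4 (by omega) h6 h7) wallL h3 (by omega)
    (fun s a1 a2 => hm s (by omega) (by omega))
  exact ⟨e, he, h⟩

theorem exists_pairsR (hD : D.Good x y a) {w : Half ZT → Half ZT} (hw : Wall (D.T y) (D.go x y) w)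
    (hm : ∀ s, -a ≤ s → s < D.t - D.b + a → w (endR (phR y) D.r D.b D.t s) ≠ endR (phR y) D.r D.b D.t s) :
    ∃ e : ℤ, (e = 0 ∨ e = 1) ∧ PairsR w (phR y) (D.r - a) D.r D.b D.t e := by
  obtain ⟨h1, h2, h3, h4, h5, h6, h7⟩ := hD
  obtain ⟨e, he, -, h⟩ := cappedR glu_go hw (channelR h1 y y h5 (by omega) h6 h7) wallR h3 (by omega)
    (fun s a1 a2 => hm s (by omega) (by omega))
  exact ⟨e, he, h⟩

end Slab

end Full
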