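import Pool.Agent.Full.Loc1.Chain
import Pool.Agent.Full.Def.Inst
import Pool.Agent.Full.Def.Geo
import Pool.Agent.Rect.Perc.Rsw

/-!
# Blocking chains exist with high probability

`HasChain r b t S` : the tiles of `S`, with their diagonals of the colour `r`, contain an even chain from the
row line `b` to the row line `t`.
* `chain_prob` : in a square box this has probability at least `c0 > 0`, uniformly in the size;
* `no_block_prob` : the probability that a channel of height `H` and length `A * H` contains no `Block` is at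
  most `θ ^ A`.
-/

set_option autoImplicit false

namespace Full
open Finset H47Perc H47Perc.RC
open Pool.Agent.Helper69.RSW (P_nonneg P_mono P_congr P_map P_restrict P_indep P_true P_compl P_le_one Dep Up)

/-! ### general facts on `P` -/

section gen
variable {E : Type*} [DecidableEq E]

theorem P_ball {ι : Type*} (F : Finset E) (s : Finset ι) (G : ι → Finset E)
    (A : ι → Finset E → Prop) (hG : ∀ i ∈ s, G i ⊆ F) (hd : ∀ i ∈ s, ∀ j ∈ s, i ≠ j → Disjoint (G i) (G j))
    (hA : ∀ i ∈ s, Dep (G i) (A i)) : Pool.Agent.Helper69.RSW.P F (fun S => ∀ i ∈ s, A i S) = ∏ i ∈ s, Pool.Agent.Helper69.RSW.P F (A i) := by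
  classical
  induction s using Finset.induction_on with
  | empty =>
    rw [prod_empty, ← P_true F]
    exact P_congr fun S _ => by simp
  | insert a s ha ih =>
    rw [prod_insert ha, ← ih (fun i hi => hG i (mem_insert_of_mem hi))
      (fun i hi j hj => hd i (mem_insert_of_mem hi) j (mem_insert_of_mem hj)) (fun i hi => hA i (mem_insert_of_mem hi))]
    have h1 : Pool.Agent.Helper69.RSW.P F (fun S => ∀ i ∈ insert a s, A i S) = Pool.Agent.Helper69.RSW.P F (fun S => A a S ∧ ∀ i ∈ s, A i S) :=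
      P_congr fun S _ => by simp only [mem_insert, forall_eq_or_imp]
    rw [h1]
    refine P_indep (G := G a) (H := s.biUnion G) (hG a (mem_insert_self _ _))
      (biUnion_subset.2 fun i hi => hG i (mem_insert_of_mem hi)) ?_ (hA a (mem_insert_self _ _)) ?_
    · rw [disjoint_biUnion_right]
      intro i hi
      exact hd a (mem_insert_self _ _) i (mem_insert_of_mem hi) (fun h => ha (h ▸ hi))
    · intro S
      refine forall₂_congr fun i hi => ?_
      rw [hA i (mem_insert_of_mem hi) S, hA i (mem_insert_of_mem hi) (S ∩ s.biUnion G), inter_assoc,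
        inter_eq_right.2 (subset_biUnion_of_mem G hi)]

theorem P_mono_set {G F : Finset E} (h : G ⊆ F) {A : Finset E → Prop} (hA : Up A) : Pool.Agent.Helper69.RSW.P G A ≤ Pool.Agent.Helper69.RSW.P F A := by
  have hdep : Dep G (fun S => A (S ∩ G)) := by
    intro S
    simp only [inter_assoc, inter_self]
  have h1 : Pool.Agent.Helper69.RSW.P G A = Pool.Agent.Helper69.RSW.P G (fun S => A (S ∩ G)) := P_congr fun S hS => by rw [inter_eq_left.2 hS]
  rw [h1, ← P_restrict h hdep]
  exact P_mono fun S _ hx => hA _ _ inter_subset_left hx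

theorem P_ge_of_full (F : Finset E) {A : Finset E → Prop} (h : A F) : 1 / 2 ^ F.card ≤ Pool.Agent.Helper69.RSW.P F A := by
  classical
  unfold Pool.Agent.Helper69.RSW.P
  apply div_le_div_of_nonneg_right _ (by positivity)
  have : 1 ≤ (F.powerset.filter A).card :=
    card_pos.2 ⟨F, mem_filter.2 ⟨mem_powerset.2 subset_rfl, h⟩⟩
  exact_mod_cast this

/-- exchanging present and absent at some places does not change the law -/
theorem P_col (F : Finset E) (κ : E → Prop) [DecidablePred κ] (A : Finset E → Prop) :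
    Pool.Agent.Helper69.RSW.P F (fun S => A (F.filter fun p => p ∈ S ↔ κ p)) = Pool.Agent.Helper69.RSW.P F A := by
  classical
  unfold Pool.Agent.Helper69.RSW.P
  congr 2
  have inv : ∀ S ⊆ F, (F.filter fun p => p ∈ (F.filter fun p => p ∈ S ↔ κ p) ↔ κ p) = S := by
    intro S hS
    ext p
    rw [mem_filter, mem_filter]
    constructor
    · rintro ⟨h1, h2⟩
      by_cases hk : κ p
      · exact (h2.2 hk).2.2 hk
      · by_contra h3
        exact hk (h2.1 ⟨h1, ⟨fun h => absurd h h3, fun h => absurd h hk⟩⟩)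
    · intro h1
      refine ⟨hS h1, ?_⟩
      constructor
      · rintro ⟨_, h2⟩
        exact h2.1 h1
      · exact fun h2 => ⟨hS h1, fun _ => h2, fun _ => h1⟩
  refine Finset.card_bij' (fun S _ => F.filter fun p => p ∈ S ↔ κ p) (fun S _ => F.filter fun p => p ∈ S ↔ κ p)
    ?_ ?_ ?_ ?_
  · intro S hS
    rw [mem_filter] at hS ⊢
    exact ⟨mem_powerset.2 (filter_subset _ _), hS.2⟩
  · intro S hS
    rw [mem_filter] at hS ⊢
    refine ⟨mem_powerset.2 (filter_subset _ _), ?_⟩
    rw [inv S (mem_powerset.1 hS.1)]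
    exact hS.2
  · intro S hS
    exact inv S (mem_powerset.1 (mem_filter.1 hS).1)
  · intro S hS
    exact inv S (mem_powerset.1 (mem_filter.1 hS).1)

end gen

/-! ### chains -/

/-- the lower end of the diagonal of the colour `r` of a tile -/
def eA (r : ℤ) (p : ℤ × ℤ) : ℤ × ℤ := if (p.1 + p.2) % 2 = r then p else (p.1 + 1, p.2)

/-- the upper end of the diagonal of the colour `r` of a tile -/
def eB (r : ℤ) (p : ℤ × ℤ) : ℤ × ℤ := if (p.1 + p.2) % 2 = r then (p.1 + 1, p.2 + 1) else (p.1, p.2 + 1)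

/-- the tiles of `S` contain an even chain of diagonals of the colour `r` from the row line `b` to the row
line `t` -/
def HasChain (r b t : ℤ) (S : Finset (ℤ × ℤ)) : Prop :=
  ∃ Q ⊆ S, (∀ x y : ℤ, (x + y) % 2 = r → b < y → y < t →
    ind Q (x - 1, y - 1) + ind Q (x, y - 1) + ind Q (x - 1, y) + ind Q (x, y) = 0) ∧
    ∀ j, b ≤ j → j < t → ((Q.filter fun p => p.2 = j).card : ZMod 2) = 1

theorem up_HasChain (r b t : ℤ) : Up (HasChain r b t) := by
  rintro S T h ⟨Q, h1, h2⟩
  exact ⟨Q, h1.trans h, h2⟩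

/-- a chain which ends at `v` -/
structure Part (r : ℤ) (S : Finset (ℤ × ℤ)) (u v : ℤ × ℤ) (Q : Finset (ℤ × ℤ)) : Prop where
  sub : Q ⊆ S
  deg : ∀ x y : ℤ, (x + y) % 2 = r → ind Q (x - 1, y - 1) + ind Q (x, y - 1) + ind Q (x - 1, y) + ind Q (x, y) =
    (if (x, y) = u then 1 else 0) + (if (x, y) = v then 1 else 0)
  row : ∀ j : ℤ, ((Q.filter fun p => p.2 = j).card : ZMod 2) =
    (if j < u.2 then 1 else 0) + (if j < v.2 then 1 else 0)

theorem ind_toggle (Q : Finset (ℤ × ℤ)) (p q : ℤ × ℤ) :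
    ind (symmDiff Q {p}) q = ind Q q + (if q = p then 1 else 0) := by
  classical
  unfold ind
  by_cases h1 : q ∈ Q <;> by_cases h2 : q = p
  · rw [if_pos h1, if_pos h2, if_neg, z2_add_self]
    rw [mem_symmDiff, mem_singleton]
    tauto
  · rw [if_pos h1, if_neg h2, if_pos, add_zero]
    rw [mem_symmDiff, mem_singleton]
    tauto
  · rw [if_neg h1, if_pos h2, if_pos, zero_add]
    rw [mem_symmDiff, mem_singleton]
    tauto
  · rw [if_neg h1, if_neg h2, if_neg, zero_add]
    rw [mem_symmDiff, mem_singleton]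
    tauto

theorem card_toggle (Q : Finset (ℤ × ℤ)) (p : ℤ × ℤ) (j : ℤ) :
    (((symmDiff Q {p}).filter fun q => q.2 = j).card : ZMod 2) =
      ((Q.filter fun q => q.2 = j).card : ZMod 2) + (if p.2 = j then 1 else 0) := by
  classical
  by_cases h1 : p ∈ Q
  · have e : symmDiff Q {p} = Q.erase p := by
      ext q
      rw [mem_symmDiff, mem_singleton, mem_erase]
      constructor
      · rintro (⟨h2, h3⟩ | ⟨h2, h3⟩)
        · exact ⟨h3, h2⟩
        · exact absurd (h2 ▸ h1) h3
      · rintro ⟨h2, h3⟩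
        exact Or.inl ⟨h3, h2⟩
    rw [e, filter_erase]
    by_cases h2 : p.2 = j
    · rw [if_pos h2]
      have h3 : p ∈ Q.filter fun q => q.2 = j := mem_filter.2 ⟨h1, h2⟩
      have h4 := card_erase_add_one h3
      rw [← h4, Nat.cast_add, Nat.cast_one, add_assoc, z2_add_self, add_zero]
    · rw [if_neg h2, add_zero, erase_eq_of_notMem]
      intro h3
      exact h2 (mem_filter.1 h3).2
  · have e : symmDiff Q {p} = insert p Q := by
      ext q
      rw [mem_symmDiff, mem_singleton, mem_insert]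
      constructor
      · rintro (⟨h2, h3⟩ | ⟨h2, h3⟩)
        · exact Or.inr h2
        · exact Or.inl h2
      · rintro (h2 | h2)
        · exact Or.inr ⟨h2, h2 ▸ h1⟩
        · exact Or.inl ⟨h2, fun h3 => h1 (h3 ▸ h2)⟩
    rw [e, filter_insert]
    by_cases h2 : p.2 = j
    · rw [if_pos h2, if_pos h2, card_insert_of_notMem (fun h3 => h1 (mem_filter.1 h3).1), Nat.cast_add,
        Nat.cast_one]
    · rw [if_neg h2, if_neg h2, add_zero]

theorem ends_deg {r : ℤ} (hr : r = 0 ∨ r = 1) (p : ℤ × ℤ) {x y : ℤ} (h : (x + y) % 2 = r) :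
    (if ((x - 1, y - 1) : ℤ × ℤ) = p then (1 : ZMod 2) else 0) + (if ((x, y - 1) : ℤ × ℤ) = p then 1 else 0) +
      (if ((x - 1, y) : ℤ × ℤ) = p then 1 else 0) + (if ((x, y) : ℤ × ℤ) = p then 1 else 0) =
    (if (x, y) = eA r p then 1 else 0) + (if (x, y) = eB r p then 1 else 0) := by
  obtain ⟨i, j⟩ := p
  unfold eA eB
  simp only [Prod.mk.injEq]
  by_cases h1 : (i + j) % 2 = r
  · rw [if_pos h1, if_pos h1]
    simp only [Prod.mk.injEq]
    rw [if_neg (by omega : ¬ (x = i ∧ y - 1 = j)), if_neg (by omega : ¬ (x - 1 = i ∧ y = j)), add_zero, add_zero,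
      add_comm]
    congr 1
    apply if_congr _ rfl rfl
    omega
  · rw [if_neg h1, if_neg h1]
    simp only [Prod.mk.injEq]
    rw [if_neg (by omega : ¬ (x - 1 = i ∧ y - 1 = j)), if_neg (by omega : ¬ (x = i ∧ y = j)), add_zero, zero_add,
      add_comm]
    congr 1
    · apply if_congr _ rfl rfl
      omega
    · apply if_congr _ rfl rfl
      omega

theorem ends_row (r : ℤ) (p : ℤ × ℤ) (j : ℤ) : (if p.2 = j then (1 : ZMod 2) else 0) =
    (if j < (eA r p).2 then 1 else 0) + (if j < (eB r p).2 then 1 else 0) := by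
  have h1 : (eA r p).2 = p.2 := by unfold eA; split_ifs <;> rfl
  have h2 : (eB r p).2 = p.2 + 1 := by unfold eB; split_ifs <;> rfl
  rw [h1, h2]
  by_cases h3 : j < p.2
  · rw [if_neg (by omega : ¬ p.2 = j), if_pos h3, if_pos (by omega : j < p.2 + 1), z2_add_self]
  · by_cases h4 : p.2 = j
    · rw [if_pos h4, if_neg h3, if_pos (by omega : j < p.2 + 1), zero_add]
    · rw [if_neg h4, if_neg h3, if_neg (by omega : ¬ j < p.2 + 1), zero_add]

theorem Part.step {r : ℤ} (hr : r = 0 ∨ r = 1) {S : Finset (ℤ × ℤ)} {u v v' : ℤ × ℤ} {Q : Finset (ℤ × ℤ)}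
    (h : Part r S u v Q) {p : ℤ × ℤ} (hp : p ∈ S) (he : (v = eA r p ∧ v' = eB r p) ∨ (v = eB r p ∧ v' = eA r p)) :
    Part r S u v' (symmDiff Q {p}) := by
  classical
  refine ⟨?_, ?_, ?_⟩
  · intro q hq
    rw [mem_symmDiff, mem_singleton] at hq
    rcases hq with ⟨h1, _⟩ | ⟨h1, _⟩
    · exact h.sub h1
    · exact h1 ▸ hp
  · intro x y hxy
    have h1 := h.deg x y hxy
    have h2 := ends_deg hr p hxy
    rw [ind_toggle, ind_toggle, ind_toggle, ind_toggle]
    have h3 : (if (x, y) = eA r p then (1 : ZMod 2) else 0) + (if (x, y) = eB r p then 1 else 0) =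
        (if (x, y) = v then 1 else 0) + (if (x, y) = v' then 1 else 0) := by
      rcases he with ⟨rfl, rfl⟩ | ⟨rfl, rfl⟩
      · rfl
      · rw [add_comm]
    have h4 := z2_add_self (if (x, y) = v then (1 : ZMod 2) else 0)
    linear_combination h1 + h2 + h3 + h4
  · intro j
    rw [card_toggle, h.row j, ends_row r p j]
    rcases he with ⟨rfl, rfl⟩ | ⟨rfl, rfl⟩
    · linear_combination z2_add_self (if j < (eA r p).2 then (1 : ZMod 2) else 0)
    · linear_combination z2_add_self (if j < (eB r p).2 then (1 : ZMod 2) else 0)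

/-- the vertex of a corner of the colour `r` -/
def vz (r : ℤ) (w : ℤ × ℤ) : ℤ × ℤ := ((w.1 + w.2 + r) / 2, (w.1 - w.2 + r) / 2)

/-- the edge of a tile -/
def teZ (r : ℤ) (p : ℤ × ℤ) : Sym2 (ℤ × ℤ) := s(vz r (eA r p), vz r (eB r p))

/-- the corner of a vertex -/
def cz (r : ℤ) (z : ℤ × ℤ) : ℤ × ℤ := (z.1 + z.2 - r, z.1 - z.2)

theorem cz_vz {r : ℤ} (hr : r = 0 ∨ r = 1) {w : ℤ × ℤ} (h : (w.1 + w.2) % 2 = r) : cz r (vz r w) = w := by
  unfold cz vz
  ext
  · simp only; omega
  · simp only; omega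

theorem col_eA {r : ℤ} (hr : r = 0 ∨ r = 1) (p : ℤ × ℤ) : ((eA r p).1 + (eA r p).2) % 2 = r := by
  unfold eA
  split_ifs with h
  · exact h
  · simp only; omega

theorem col_eB {r : ℤ} (hr : r = 0 ∨ r = 1) (p : ℤ × ℤ) : ((eB r p).1 + (eB r p).2) % 2 = r := by
  unfold eB
  split_ifs with h
  · simp only; omega
  · simp only; omega

theorem teZ_inj {r : ℤ} (hr : r = 0 ∨ r = 1) : Function.Injective (teZ r) := by
  have key : ∀ p : ℤ × ℤ, ∀ q : ℤ × ℤ, teZ r p = teZ r q → eA r p = eA r q ∧ eB r p = eB r q := by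
    intro p q h
    unfold teZ at h
    rw [Sym2.eq_iff] at h
    rcases h with ⟨h1, h2⟩ | ⟨h1, h2⟩
    · have h3 := congrArg (cz r) h1
      have h4 := congrArg (cz r) h2
      rw [cz_vz hr (col_eA hr _), cz_vz hr (col_eA hr _)] at h3
      rw [cz_vz hr (col_eB hr _), cz_vz hr (col_eB hr _)] at h4
      exact ⟨h3, h4⟩
    · have h3 := congrArg (cz r) h1
      have h4 := congrArg (cz r) h2
      rw [cz_vz hr (col_eA hr _), cz_vz hr (col_eB hr _)] at h3
      rw [cz_vz hr (col_eB hr _), cz_vz hr (col_eA hr _)] at h4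
      have e1 : (eA r p).2 = p.2 := by unfold eA; split_ifs <;> rfl
      have e2 : (eB r p).2 = p.2 + 1 := by unfold eB; split_ifs <;> rfl
      have e3 : (eA r q).2 = q.2 := by unfold eA; split_ifs <;> rfl
      have e4 : (eB r q).2 = q.2 + 1 := by unfold eB; split_ifs <;> rfl
      rw [h3] at e1
      rw [h4] at e2
      omega
  intro p q h
  obtain ⟨h1, h2⟩ := key p q h
  obtain ⟨i, j⟩ := p
  obtain ⟨i', j'⟩ := q
  unfold eA at h1
  unfold eB at h2
  simp only at h1 h2
  split_ifs at h1 h2 <;> simp only [Prod.mk.injEq] at h1 h2 ⊢ <;> omega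

/-- the embedding of the tiles into the edges -/
def teE (r : ℤ) (hr : r = 0 ∨ r = 1) : (ℤ × ℤ) ↪ Sym2 (ℤ × ℤ) := ⟨teZ r, teZ_inj hr⟩

theorem Part.of_joined {r : ℤ} (hr : r = 0 ∨ r = 1) {S : Finset (ℤ × ℤ)} {z v : ℤ × ℤ}
    (h : H47Perc.Joined (S.map (teE r hr)) z v) : ∃ Q, Part r S (cz r z) (cz r v) Q := by
  classical
  unfold H47Perc.Joined at h
  rw [SimpleGraph.reachable_iff_reflTransGen] at h
  induction h with
  | refl =>
    refine ⟨∅, ⟨empty_subset _, fun x y _ => ?_, fun j => ?_⟩⟩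
    · unfold ind
      simp only [notMem_empty, if_false, add_zero]
      rw [z2_add_self]
    · rw [filter_empty, card_empty, Nat.cast_zero, z2_add_self]
  | @tail v v' _ h2 ih =>
    obtain ⟨Q, hQ⟩ := ih
    rw [SimpleGraph.fromEdgeSet_adj] at h2
    obtain ⟨h3, -⟩ := h2
    rw [mem_coe, mem_map] at h3
    obtain ⟨p, hp, h4⟩ := h3
    refine ⟨symmDiff Q {p}, hQ.step hr hp ?_⟩
    change teZ r p = s(v, v') at h4
    unfold teZ at h4
    rw [Sym2.eq_iff] at h4
    rcases h4 with ⟨h5, h6⟩ | ⟨h5, h6⟩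
    · left
      rw [← h5, ← h6, cz_vz hr (col_eA hr _), cz_vz hr (col_eB hr _)]
      exact ⟨rfl, rfl⟩
    · right
      rw [← h5, ← h6, cz_vz hr (col_eA hr _), cz_vz hr (col_eB hr _)]
      exact ⟨rfl, rfl⟩

theorem hasChain_of_cr {r : ℤ} (hr : r = 0 ∨ r = 1) {b t : ℤ} (hbt : b ≤ t) {S : Finset (ℤ × ℤ)}
    (h : Cr b t (S.map (teE r hr))) : HasChain r b t S := by
  obtain ⟨z, z', h1, h2, h3⟩ := h
  obtain ⟨Q, hQ⟩ := Part.of_joined hr h3
  refine ⟨Q, hQ.sub, fun x y hxy hy1 hy2 => ?_, fun j hj1 hj2 => ?_⟩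
  · rw [hQ.deg x y hxy, if_neg, if_neg, add_zero]
    · intro h4
      have := congrArg Prod.snd h4
      unfold cz at this
      simp only at this
      omega
    · intro h4
      have := congrArg Prod.snd h4
      unfold cz at this
      simp only at this
      omega
  · rw [hQ.row j]
    unfold cz
    simp only
    rw [h1, h2, if_neg (by omega), if_pos hj2, zero_add]

/-- all edges of the diagonal rectangle are edges of tiles -/
theorem edges_sub {r : ℤ} (hr : r = 0 ∨ r = 1) (c d b t : ℤ) :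
    edgesIn (drect (c + r) (d + r) b t) ⊆ (box c d b t).map (teE r hr) := by
  intro e he
  rw [mem_map]
  rcases edgesIn_cases he with ⟨i, j, rfl⟩ | ⟨i, j, rfl⟩
  · rw [hE_mem, mem_drect, mem_drect] at he
    simp only at he
    refine ⟨(i + j - r, i - j), ?_, ?_⟩
    · rw [Full.mem_box]
      omega
    · show teZ r _ = _
      unfold teZ eA eB hE
      rw [if_pos (by simp only; omega), if_pos (by simp only; omega)]
      unfold vz
      refine congrArg₂ (fun u v : ℤ × ℤ => s(u, v)) ?_ ?_
      · rw [Prod.mk.injEq]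
        simp only
        omega
      · rw [Prod.mk.injEq]
        simp only
        omega
  · rw [vE_mem, mem_drect, mem_drect] at he
    simp only at he
    refine ⟨(i + j - r, i - j - 1), ?_, ?_⟩
    · rw [Full.mem_box]
      omega
    · show teZ r _ = _
      unfold teZ eA eB vE
      rw [if_neg (by simp only; omega), if_neg (by simp only; omega), Sym2.eq_swap]
      unfold vz
      refine congrArg₂ (fun u v : ℤ × ℤ => s(u, v)) ?_ ?_
      · rw [Prod.mk.injEq]
        simp only
        omega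
      · rw [Prod.mk.injEq]
        simp only
        omega

/-- a full column is a chain -/
theorem hasChain_full {r : ℤ} (hr : r = 0 ∨ r = 1) {c d b t : ℤ} (hcd : c < d) :
    HasChain r b t (box c d b t) := by
  classical
  refine ⟨(box c d b t).filter (fun p => p.1 = c), filter_subset _ _, fun x y hxy hy1 hy2 => ?_, fun j hj1 hj2 => ?_⟩
  · have key : ∀ i j : ℤ, b ≤ j → j < t → ind ((box c d b t).filter (fun p => p.1 = c)) (i, j) = if i = c then 1 else 0 := by
      intro i j h1 h2
      unfold ind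
      apply if_congr _ rfl rfl
      rw [mem_filter, Full.mem_box]
      simp only
      omega
    rw [key _ _ (by omega) (by omega), key _ _ (by omega) (by omega), key _ _ (by omega) (by omega),
      key _ _ (by omega) (by omega)]
    linear_combination z2_add_self (if x - 1 = c then (1 : ZMod 2) else 0) + z2_add_self (if x = c then (1 : ZMod 2) else 0)
  · have : ((box c d b t).filter (fun p => p.1 = c)).filter (fun p => p.2 = j) = {(c, j)} := by
      ext ⟨i, k⟩
      rw [mem_filter, mem_filter, Full.mem_box, mem_singleton]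
      simp only [Prod.mk.injEq]
      omega
    rw [this, card_singleton, Nat.cast_one]

/-- **a chain in a square box, uniformly in the size** -/
theorem chain_prob : ∃ c0 : ℝ, 0 < c0 ∧ c0 ≤ 1 ∧ ∀ r c d b t : ℤ, (r = 0 ∨ r = 1) → b < t → t - b ≤ d - c →
    c0 ≤ Pool.Agent.Helper69.RSW.P (box c d b t) (HasChain r b t) := by
  obtain ⟨c1, hc1, h1⟩ := rsw
  refine ⟨min c1 (1 / 2 ^ 9), by positivity, (min_le_right _ _).trans (by norm_num), fun r c d b t hr hbt hH => ?_⟩
  have hsub : box c (c + (t - b)) b t ⊆ box c d b t := by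
    intro ⟨i, j⟩ hp
    rw [Full.mem_box] at hp ⊢
    omega
  refine le_trans ?_ (P_mono_set hsub (up_HasChain r b t))
  by_cases h4 : 4 ≤ t - b
  · -- large sizes: RSW
    have h2 : Pool.Agent.Helper69.RSW.P (edgesIn (drect (c + r) (c + (t - b) + r) b t)) (Cr b t) ≤
        Pool.Agent.Helper69.RSW.P (box c (c + (t - b)) b t) (HasChain r b t) := by
      have h3 := P_mono_set (edges_sub hr c (c + (t - b)) b t) (A := Cr b t) (fun _ _ h h' => cr_mono h h')
      refine h3.trans ?_
      rw [P_map]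
      exact P_mono fun S _ hS => hasChain_of_cr hr hbt.le hS
    refine le_trans ?_ h2
    have h5 : pC (c + r) (c + (t - b) + r) b t = Pool.Agent.Helper69.RSW.P (edgesIn (drect (c + r) (c + (t - b) + r) b t)) (Cr b t) := by
      unfold pC
      rw [Pool.Agent.Helper69.RSW.perc_half_eq]
    rw [← h5]
    set n : ℕ := ((t - b - 1) / 2).toNat with hn
    have hn1 : (n : ℤ) = (t - b - 1) / 2 := by rw [hn]; exact Int.toNat_of_nonneg (by omega)
    have h6 := P_le_pC (a := c + r) (b := c + (t - b) + r) (c := b) (d := t) (n := n) (m := 2 * n)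
      (by omega) (by push_cast; omega) hbt.le
    exact (min_le_left _ _).trans ((h1 n (by omega)).trans h6)
  · refine (min_le_right _ _).trans (le_trans ?_ (P_ge_of_full _ (hasChain_full hr (by omega))))
    apply one_div_le_one_div_of_le (by positivity)
    apply pow_le_pow_right₀ (by norm_num)
    unfold box
    rw [card_product, Int.card_Ico, Int.card_Ico]
    have e1 : (c + (t - b) - c).toNat ≤ 3 := by omega
    have e2 : (t - b).toNat ≤ 3 := by omega
    calc _ ≤ 3 * 3 := Nat.mul_le_mul e1 e2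
      _ = 9 := rfl

/-! ### channels in a surface -/

section chart
variable {E τ : Type*} [DecidableEq E] [DecidableEq τ]

/-- the tiles of `F` with bit `true`, seen in a chart -/
def pre (φ : E → τ) (F : Finset E) (ω : Finset τ) : Finset E := F.filter fun p => φ p ∈ ω

theorem dep_pre (φ : E → τ) (F : Finset E) (A : Finset E → Prop) :
    Dep (F.image φ) (fun ω => A (pre φ F ω)) := by
  intro ω
  have h : pre φ F (ω ∩ F.image φ) = pre φ F ω := by
    unfold pre
    apply filter_congr
    intro p hp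
    rw [mem_inter]
    exact and_iff_left (mem_image_of_mem φ hp)
  show A _ ↔ A (pre φ F (ω ∩ F.image φ))
  rw [h]

/-- the law of a configuration in a chart -/
theorem P_chart {T : Finset τ} {φ : E → τ} {F : Finset E} (hinj : Set.InjOn φ (F : Set E))
    (hmem : ∀ p ∈ F, φ p ∈ T) (A : Finset E → Prop) : Pool.Agent.Helper69.RSW.P T (fun ω => A (pre φ F ω)) = Pool.Agent.Helper69.RSW.P F A := by
  have hsub : F.image φ ⊆ T := by
    intro q hq
    obtain ⟨p, hp, rfl⟩ := mem_image.1 hq
    exact hmem p hp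
  rw [P_restrict hsub (dep_pre φ F A)]
  let ψ : {p // p ∈ F} ↪ τ := ⟨fun p => φ p.1, fun p q h => Subtype.ext (hinj p.2 q.2 h)⟩
  have e1 : F.image φ = F.attach.map ψ := by
    ext q
    rw [mem_image, mem_map]
    constructor
    · rintro ⟨p, hp, rfl⟩
      exact ⟨⟨p, hp⟩, mem_attach _ _, rfl⟩
    · rintro ⟨p, -, rfl⟩
      exact ⟨p.1, p.2, rfl⟩
  have e2 : Pool.Agent.Helper69.RSW.P F A = Pool.Agent.Helper69.RSW.P (F.attach.map (Function.Embedding.subtype _)) A := by
    rw [attach_map_val]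
  rw [e1, e2, P_map, P_map]
  apply P_congr
  intro S _
  have e3 : pre φ F (S.map ψ) = S.map (Function.Embedding.subtype _) := by
    ext p
    unfold pre
    rw [mem_filter, mem_map, mem_map]
    constructor
    · rintro ⟨hp, q, hq, h1⟩
      refine ⟨q, hq, ?_⟩
      exact hinj q.2 hp h1
    · rintro ⟨q, hq, rfl⟩
      exact ⟨q.2, q, hq, rfl⟩
  rw [e3]

end chart

/-- the universal constant -/
noncomputable def thB : ℝ := 1 - chain_prob.choose

theorem thB_nonneg : 0 ≤ thB := sub_nonneg.2 chain_prob.choose_spec.2.1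

theorem thB_lt_one : thB < 1 := by
  have := chain_prob.choose_spec.1
  unfold thB
  linarith

/-- **the probability that a channel of height `H` and length `A * H` contains no blocking chain** -/
theorem no_block_prob {τ : Type*} [DecidableEq τ] {T : Finset τ} {φ : ℤ × ℤ → τ} {c d b t e : ℤ} (A : ℕ)
    (he : e = 0 ∨ e = 1) (hbt : b < t) (hA : A * (t - b) ≤ d - c) (hinj : Set.InjOn φ (box c d b t : Set (ℤ × ℤ)))
    (hmem : ∀ p ∈ box c d b t, φ p ∈ T) :
    Pool.Agent.Helper69.RSW.P T (fun ω => ¬ ∃ Q, Block e c d b t (pre φ (box c d b t) ω) Q) ≤ thB ^ A := by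
  classical
  -- the boxes
  let G : ℕ → Finset (ℤ × ℤ) := fun k => box (c + k * (t - b)) (c + (k + 1) * (t - b)) b t
  have hG : ∀ k ∈ range A, G k ⊆ box c d b t := by
    rintro k hk ⟨i, j⟩ hp
    rw [mem_range] at hk
    rw [Full.mem_box] at hp ⊢
    have h1 : ((k : ℤ) + 1) * (t - b) ≤ A * (t - b) := by
      apply mul_le_mul_of_nonneg_right _ (by omega)
      exact_mod_cast hk
    have h2 : 0 ≤ (k : ℤ) * (t - b) := mul_nonneg (Int.natCast_nonneg _) (by omega)
    omega
  have hmono : ∀ k l : ℕ, k < l → ((k : ℤ) + 1) * (t - b) ≤ l * (t - b) := by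
    intro k l hkl
    apply mul_le_mul_of_nonneg_right _ (by omega)
    exact_mod_cast hkl
  -- the events
  let Ev : ℕ → Finset τ → Prop := fun k ω => ¬ HasChain e b t ((G k).filter fun p => p ∈ pre φ (G k) ω ↔ (p.1 + p.2) % 2 = e)
  have h1 : Pool.Agent.Helper69.RSW.P T (fun ω => ¬ ∃ Q, Block e c d b t (pre φ (box c d b t) ω) Q) ≤ Pool.Agent.Helper69.RSW.P T (fun ω => ∀ k ∈ range A, Ev k ω) := by
    apply P_mono
    intro ω _ hω k hk hch
    apply hω
    obtain ⟨Q, hQ1, hQ2, hQ3⟩ := hch
    refine ⟨Q, ⟨fun p hp => ?_, fun p hp => ?_, hQ2, hQ3⟩⟩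
    · have h2 := hG k hk (mem_filter.1 (hQ1 hp)).1
      obtain ⟨i, j⟩ := p
      rw [Full.mem_box] at h2
      exact h2
    · have h2 := mem_filter.1 (hQ1 hp)
      have h3 := hG k hk h2.1
      rw [← h2.2]
      unfold pre
      rw [mem_filter, mem_filter]
      exact and_congr (iff_of_true h3 h2.1) Iff.rfl
  refine h1.trans ?_
  have hinjk : ∀ k ∈ range A, Set.InjOn φ (G k : Set (ℤ × ℤ)) := fun k hk => hinj.mono (by exact_mod_cast hG k hk)
  have hmemk : ∀ k ∈ range A, ∀ p ∈ G k, φ p ∈ T := fun k hk p hp => hmem p (hG k hk hp)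
  rw [P_ball T (range A) (fun k => (G k).image φ) Ev]
  · have h3 : ∀ k ∈ range A, Pool.Agent.Helper69.RSW.P T (Ev k) ≤ thB := by
      intro k hk
      have h4 := P_chart (hinjk k hk) (hmemk k hk) (fun S => ¬ HasChain e b t ((G k).filter fun p => p ∈ S ↔ (p.1 + p.2) % 2 = e))
      have h5 := P_col (G k) (fun p => (p.1 + p.2) % 2 = e) (fun S => ¬ HasChain e b t S)
      have h6 := P_compl (G k) (HasChain e b t)
      have h7 := chain_prob.choose_spec.2.2 e (c + k * (t - b)) (c + (k + 1) * (t - b)) b t he hbt (by ring_nf; rfl)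
      have h8 : Pool.Agent.Helper69.RSW.P T (Ev k) = Pool.Agent.Helper69.RSW.P (G k) (fun S => ¬ HasChain e b t S) := by
        rw [← h5]
        exact h4
      rw [h8]
      unfold thB
      linarith
    calc ∏ k ∈ range A, Pool.Agent.Helper69.RSW.P T (Ev k) ≤ ∏ _k ∈ range A, thB := prod_le_prod (fun _ _ => P_nonneg _ _) h3
      _ = thB ^ A := by rw [prod_const, card_range]
  · intro k hk q hq
    obtain ⟨p, hp, rfl⟩ := mem_image.1 hq
    exact hmemk k hk p hp
  · intro k hk l hl hkl
    rw [Finset.disjoint_left]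
    intro q hq1 hq2
    obtain ⟨p, hp, rfl⟩ := mem_image.1 hq1
    obtain ⟨p', hp', h4⟩ := mem_image.1 hq2
    have h5 : p' = p := hinj (hG l hl hp') (hG k hk hp) h4
    subst h5
    obtain ⟨i, j⟩ := p'
    have h6 : (i, j) ∈ box _ _ _ _ := hp
    have h7 : (i, j) ∈ box _ _ _ _ := hp'
    rw [Full.mem_box] at h6 h7
    rcases Nat.lt_or_gt_of_ne hkl with h8 | h8
    · have := hmono k l h8
      omega
    · have := hmono l k h8
      omega
  · intro k _
    exact dep_pre φ (G k) (fun S => ¬ HasChain e b t ((G k).filter fun p => p ∈ S ↔ (p.1 + p.2) % 2 = e))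

end Full
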