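import Pool.Agent.Full.Loc1.Prob

/-!
# A channel of a surface with closed walls

`Chan T w φ c d b t e` : the chart `φ` maps the box `[c, d) x [b, t)` injectively to tiles of `T`; inside the
box `w` is the gluing of the plane; the floor and the ceiling are closed by dimers around the corners of the
colour different from `e`.  A `Block` of the colour `e` separates the left end from the right end.
-/

set_option autoImplicit false

namespace Full
open Finset

/-- a channel with closed floor and ceiling -/
structure Chan {τ : Type*} (T : Finset τ) (w : Half τ → Half τ) (φ : ℤ × ℤ → τ) (c d b t e : ℤ) : Prop where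
  inj : Set.InjOn φ (box c d b t : Set (ℤ × ℤ))
  mem : ∀ p ∈ box c d b t, φ p ∈ T
  inner : ∀ (p : ℤ × ℤ) (v : Dir), p ∈ box c d b t → p + v.vec ∈ box c d b t → w (φ p, v) = (φ (p + v.vec), v.opp)
  floor_next : ∀ i, c ≤ i → i + 1 < d → (i + b - e) % 2 = 0 → w (φ (i, b), .S) = (φ (i + 1, b), .S)
  floor_prev : ∀ i, c ≤ i - 1 → i < d → (i + b - e) % 2 = 1 → w (φ (i, b), .S) = (φ (i - 1, b), .S)
  floor_right : (d - 1 + b - e) % 2 = 0 → ∀ p ∈ box c d b t, φ p ≠ (w (φ (d - 1, b), .S)).1
  floor_left : (c + b - e) % 2 = 1 → ∀ p ∈ box c d b t, φ p ≠ (w (φ (c, b), .S)).1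
  ceil_next : ∀ i, c ≤ i → i + 1 < d → (i + t - e) % 2 = 0 → w (φ (i, t - 1), .N) = (φ (i + 1, t - 1), .N)
  ceil_prev : ∀ i, c ≤ i - 1 → i < d → (i + t - e) % 2 = 1 → w (φ (i, t - 1), .N) = (φ (i - 1, t - 1), .N)
  ceil_right : (d - 1 + t - e) % 2 = 0 → ∀ p ∈ box c d b t, φ p ≠ (w (φ (d - 1, t - 1), .N)).1
  ceil_left : (c + t - e) % 2 = 1 → ∀ p ∈ box c d b t, φ p ≠ (w (φ (c, t - 1), .N)).1
  west : ∀ j, b ≤ j → j < t → ∀ p ∈ box c d b t, φ p ≠ (w (φ (c, j), .W)).1
  east : ∀ j, b ≤ j → j < t → ∀ p ∈ box c d b t, φ p ≠ (w (φ (d - 1, j), .E)).1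

/-- **a blocking chain separates the two ends of the channel** -/
theorem Chan.sep {τ : Type*} [DecidableEq τ] {T : Finset τ} {w : Half τ → Half τ} {φ : ℤ × ℤ → τ} {c d b t e : ℤ}
    (h : Chan T w φ c d b t e) (he : e = 0 ∨ e = 1) {ω : Finset τ} {Q : Finset (ℤ × ℤ)}
    (hB : Block e c d b t (pre φ (box c d b t) ω) Q) :
    ∃ s : Half τ → ZMod 2,
      (∀ p ∈ box c d b t, ∀ v, s (mate ω (φ p, v)) = s (φ p, v)) ∧
      (∀ p ∈ box c d b t, ∀ v, (∃ q ∈ box c d b t, φ q = (w (φ p, v)).1) → s (w (φ p, v)) = s (φ p, v)) ∧
      (∀ p ∈ box c d b t, ∀ v, (∀ q ∈ box c d b t, φ q ≠ (w (φ p, v)).1) →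
        (p.1 = c ∧ s (φ p, v) = 0) ∨ (p.1 = d - 1 ∧ s (φ p, v) = 1)) := by
  classical
  -- the potential in the chart
  let s : Half τ → ZMod 2 := fun x =>
    if hx : ∃ p ∈ box c d b t, φ p = x.1 then Full.sep e Q (hx.choose, x.2) else 0
  have hs : ∀ p ∈ box c d b t, ∀ v, s (φ p, v) = Full.sep e Q (p, v) := by
    intro p hp v
    have hx : ∃ p' ∈ box c d b t, φ p' = φ p := ⟨p, hp, rfl⟩
    show (if hx : ∃ p' ∈ box c d b t, φ p' = φ p then Full.sep e Q (hx.choose, v) else 0) = _
    rw [dif_pos hx]
    have h1 : hx.choose = p := h.inj hx.choose_spec.1 hp hx.choose_spec.2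
    rw [h1]
  refine ⟨s, ?_, ?_, ?_⟩
  · intro p hp v
    have h1 := hB.sep_mate (p, v)
    have h2 : p ∈ pre φ (box c d b t) ω ↔ φ p ∈ ω := by
      unfold pre
      rw [mem_filter]
      exact and_iff_right hp
    have h3 : mate ω (φ p, v) = (φ p, (mate (pre φ (box c d b t) ω) (p, v)).2) := by
      unfold mate
      simp only [h2]
    rw [h3, hs p hp, hs p hp, ← h1]
    rfl
  · rintro ⟨i, j⟩ hp v hw
    have hp' := hp
    rw [Full.mem_box] at hp'
    obtain ⟨⟨i1, i2⟩, j1, j2⟩ := hp'
    obtain ⟨q, hq, hq2⟩ := hw
    cases v with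
    | E =>
      by_cases h1 : i + 1 < d
      · have hm : ((i, j) : ℤ × ℤ) + Dir.E.vec ∈ box c d b t := by
          show ((i + 1, j + 0) : ℤ × ℤ) ∈ _
          rw [Full.mem_box]; omega
        rw [h.inner (i, j) .E hp hm, hs _ hm, hs _ hp]
        show Full.sep e Q ((i + 1, j + 0), .W) = _
        rw [add_zero]
        exact (Block.sep_h e Q i j).symm
      · have h2 : i = d - 1 := by omega
        subst h2
        exact absurd hq2 (h.east j j1 j2 q hq)
    | W =>
      by_cases h1 : c ≤ i - 1
      · have hm : ((i, j) : ℤ × ℤ) + Dir.W.vec ∈ box c d b t := by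
          show ((i + -1, j + 0) : ℤ × ℤ) ∈ _
          rw [Full.mem_box]; omega
        rw [h.inner (i, j) .W hp hm, hs _ hm, hs _ hp]
        show Full.sep e Q ((i + -1, j + 0), .E) = _
        rw [add_zero, Block.sep_h e Q (i + -1) j, neg_add_cancel_right]
      · have h2 : i = c := by omega
        subst h2
        exact absurd hq2 (h.west j j1 j2 q hq)
    | N =>
      by_cases h1 : j + 1 < t
      · have hm : ((i, j) : ℤ × ℤ) + Dir.N.vec ∈ box c d b t := by
          show ((i + 0, j + 1) : ℤ × ℤ) ∈ _
          rw [Full.mem_box]; omega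
        rw [h.inner (i, j) .N hp hm, hs _ hm, hs _ hp]
        show Full.sep e Q ((i + 0, j + 1), .S) = _
        rw [add_zero]
        exact (hB.sep_v he j1 h1).symm
      · have h2 : j = t - 1 := by omega
        subst h2
        by_cases h3 : (i + t - e) % 2 = 0
        · by_cases h4 : i + 1 < d
          · have hm : (i + 1, t - 1) ∈ box c d b t := by rw [Full.mem_box]; omega
            rw [h.ceil_next i i1 h4 h3, hs _ hm, hs _ hp]
            have h5 := Block.sep_ceil (t := t) (Q := Q) he (x := i + 1) (by omega)
            rw [add_sub_cancel_right] at h5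
            exact h5.symm
          · have h5 : i = d - 1 := by omega
            subst h5
            exact absurd hq2 (h.ceil_right h3 q hq)
        · by_cases h4 : c ≤ i - 1
          · have hm : (i - 1, t - 1) ∈ box c d b t := by rw [Full.mem_box]; omega
            rw [h.ceil_prev i h4 i2 (by omega), hs _ hm, hs _ hp]
            exact Block.sep_ceil he (by omega)
          · have h5 : i = c := by omega
            subst h5
            exact absurd hq2 (h.ceil_left (by omega) q hq)
    | S =>
      by_cases h1 : b ≤ j - 1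
      · have hm : ((i, j) : ℤ × ℤ) + Dir.S.vec ∈ box c d b t := by
          show ((i + 0, j + -1) : ℤ × ℤ) ∈ _
          rw [Full.mem_box]; omega
        rw [h.inner (i, j) .S hp hm, hs _ hm, hs _ hp]
        show Full.sep e Q ((i + 0, j + -1), .N) = _
        have h5 := hB.sep_v (i := i) (j := j + -1) he (by omega) (by omega)
        rw [add_zero, h5, neg_add_cancel_right]
      · have h2 : j = b := by omega
        subst h2
        by_cases h3 : (i + j - e) % 2 = 0
        · by_cases h4 : i + 1 < d
          · have hm : (i + 1, j) ∈ box c d j t := by rw [Full.mem_box]; omega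
            rw [h.floor_next i i1 h4 h3, hs _ hm, hs _ hp]
            have h5 := Block.sep_floor (b := j) (Q := Q) he (x := i + 1) (by omega)
            rw [add_sub_cancel_right] at h5
            exact h5.symm
          · have h5 : i = d - 1 := by omega
            subst h5
            exact absurd hq2 (h.floor_right h3 q hq)
        · by_cases h4 : c ≤ i - 1
          · have hm : (i - 1, j) ∈ box c d j t := by rw [Full.mem_box]; omega
            rw [h.floor_prev i h4 i2 (by omega), hs _ hm, hs _ hp]
            exact Block.sep_floor he (by omega)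
          · have h5 : i = c := by omega
            subst h5
            exact absurd hq2 (h.floor_left (by omega) q hq)
  · rintro ⟨i, j⟩ hp v hw
    have hp' := hp
    rw [Full.mem_box] at hp'
    obtain ⟨⟨i1, i2⟩, j1, j2⟩ := hp'
    rw [hs _ hp]
    cases v with
    | E =>
      by_cases h1 : i + 1 < d
      · have hm : ((i, j) : ℤ × ℤ) + Dir.E.vec ∈ box c d b t := by
          show ((i + 1, j + 0) : ℤ × ℤ) ∈ _
          rw [Full.mem_box]; omega
        exact absurd (by rw [h.inner (i, j) .E hp hm]) (hw _ hm)
      · right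
        refine ⟨by show i = d - 1; omega, ?_⟩
        show cum Q j (i + 1) = 1
        exact hB.right (by omega) j1 j2
    | W =>
      by_cases h1 : c ≤ i - 1
      · have hm : ((i, j) : ℤ × ℤ) + Dir.W.vec ∈ box c d b t := by
          show ((i + -1, j + 0) : ℤ × ℤ) ∈ _
          rw [Full.mem_box]; omega
        exact absurd (by rw [h.inner (i, j) .W hp hm]) (hw _ hm)
      · left
        refine ⟨by show i = c; omega, ?_⟩
        show cum Q j i = 0
        exact hB.left (by omega)
    | N =>
      by_cases h1 : j + 1 < t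
      · have hm : ((i, j) : ℤ × ℤ) + Dir.N.vec ∈ box c d b t := by
          show ((i + 0, j + 1) : ℤ × ℤ) ∈ _
          rw [Full.mem_box]; omega
        exact absurd (by rw [h.inner (i, j) .N hp hm]) (hw _ hm)
      · have h2 : j = t - 1 := by omega
        subst h2
        by_cases h3 : (i + t - e) % 2 = 0
        · by_cases h4 : i + 1 < d
          · exact absurd (by rw [h.ceil_next i i1 h4 h3]) (hw (i + 1, t - 1) (by rw [Full.mem_box]; omega))
          · right
            refine ⟨by show i = d - 1; omega, ?_⟩
            show (if (i + (t - 1)) % 2 = e then cum Q (t - 1) i else cum Q (t - 1) (i + 1)) = 1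
            rw [if_neg (by omega)]
            exact hB.right (by omega) j1 j2
        · by_cases h4 : c ≤ i - 1
          · exact absurd (by rw [h.ceil_prev i h4 i2 (by omega)]) (hw (i - 1, t - 1) (by rw [Full.mem_box]; omega))
          · left
            refine ⟨by show i = c; omega, ?_⟩
            show (if (i + (t - 1)) % 2 = e then cum Q (t - 1) i else cum Q (t - 1) (i + 1)) = 0
            rw [if_pos (by omega)]
            exact hB.left (by omega)
    | S =>
      by_cases h1 : b ≤ j - 1
      · have hm : ((i, j) : ℤ × ℤ) + Dir.S.vec ∈ box c d b t := by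
          show ((i + 0, j + -1) : ℤ × ℤ) ∈ _
          rw [Full.mem_box]; omega
        exact absurd (by rw [h.inner (i, j) .S hp hm]) (hw _ hm)
      · have h2 : j = b := by omega
        subst h2
        by_cases h3 : (i + j - e) % 2 = 0
        · by_cases h4 : i + 1 < d
          · exact absurd (by rw [h.floor_next i i1 h4 h3]) (hw (i + 1, j) (by rw [Full.mem_box]; omega))
          · right
            refine ⟨by show i = d - 1; omega, ?_⟩
            show (if (i + j) % 2 = e then cum Q j (i + 1) else cum Q j i) = 1
            rw [if_pos (by omega)]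
            exact hB.right (by omega) j1 j2
        · by_cases h4 : c ≤ i - 1
          · exact absurd (by rw [h.floor_prev i h4 i2 (by omega)]) (hw (i - 1, j) (by rw [Full.mem_box]; omega))
          · left
            refine ⟨by show i = c; omega, ?_⟩
            show (if (i + j) % 2 = e then cum Q j (i + 1) else cum Q j i) = 0
            rw [if_neg (by omega)]
            exact hB.left (by omega)

end Full
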