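import Pool.Agent.Full.Loc1.Channel
import Pool.Agent.Full.Loc1.Chan

/-!
# Closed walls of a channel

A closed wall of the region which has no end in a channel joins the half edges of the floor and of the
ceiling around the corners of one colour (`Capped`).
-/

set_option autoImplicit false

namespace Full.Loc1
open Function Relation

variable {τ : Type*}

/-- the half edges of the floor and of the ceiling are joined around the corners of the colour `1 - e` -/
structure Capped (w : Half τ → Half τ) (φ : ℤ × ℤ → τ) (c d b t e : ℤ) : Prop where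
  floor : ∀ i, c < i → i < d → (i + b - e) % 2 = 1 → w (φ (i - 1, b), .S) = (φ (i, b), .S)
  ceil : ∀ i, c < i → i < d → (i + t - e) % 2 = 1 → w (φ (i - 1, t - 1), .N) = (φ (i, t - 1), .N)

namespace Capped
variable {w : Half τ → Half τ} {φ : ℤ × ℤ → τ} {c d b t e : ℤ}

theorem mono (h : Capped w φ c d b t e) {c' d' : ℤ} (hc : c ≤ c') (hd : d' ≤ d) :
    Capped w φ c' d' b t e :=
  ⟨fun i h1 h2 => h.floor i (by omega) (by omega), fun i h1 h2 => h.ceil i (by omega) (by omega)⟩

theorem congr (h : Capped w φ c d b t e) {e' : ℤ} (he : (e - e') % 2 = 0) :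
    Capped w φ c d b t e' :=
  ⟨fun i h1 h2 h3 => h.floor i h1 h2 (by omega), fun i h1 h2 h3 => h.ceil i h1 h2 (by omega)⟩

theorem floor' (h : Capped w φ c d b t e) (hi : ∀ x, w (w x) = x) (i : ℤ) (h1 : c < i) (h2 : i < d)
    (h3 : (i + b - e) % 2 = 1) : w (φ (i, b), .S) = (φ (i - 1, b), .S) := by
  rw [← h.floor i h1 h2 h3, hi]

theorem ceil' (h : Capped w φ c d b t e) (hi : ∀ x, w (w x) = x) (i : ℤ) (h1 : c < i) (h2 : i < d)
    (h3 : (i + t - e) % 2 = 1) : w (φ (i, t - 1), .N) = (φ (i - 1, t - 1), .N) := by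
  rw [← h.ceil i h1 h2 h3, hi]

end Capped

/-- a box strictly inside a channel with closed walls -/
theorem Channel.chan {T : Finset τ} {g w : Half τ → Half τ} {φ : ℤ × ℤ → τ} {c d b t e : ℤ}
    (h : Channel T g φ c d b t) (hw : Ext T g w) (hc : Capped w φ c d b t e) {c' d' : ℤ}
    (h1 : c < c') (h2 : d' < d) : Chan T w φ c' d' b t e := by
  have hE : ∀ i j, c ≤ i → i + 1 < d → b ≤ j → j < t → w (φ (i, j), .E) = (φ (i + 1, j), .W) := by
    intro i j a1 a2 a3 a4
    have e1 := h.east i j a1 a2 a3 a4
    rw [← e1]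
    apply hw.ext
    rw [e1]
    exact ne_of_snd (show Dir.W ≠ Dir.E by decide)
  have hW : ∀ i j, c < i → i < d → b ≤ j → j < t → w (φ (i, j), .W) = (φ (i - 1, j), .E) := by
    intro i j a1 a2 a3 a4
    have e1 := hE (i - 1) j (by omega) (by omega) a3 a4
    rw [show i - 1 + 1 = i by ring] at e1
    rw [← e1, hw.inv]
  have hN : ∀ i j, c ≤ i → i < d → b ≤ j → j + 1 < t → w (φ (i, j), .N) = (φ (i, j + 1), .S) := by
    intro i j a1 a2 a3 a4
    have e1 := h.north i j a1 a2 a3 a4
    rw [← e1]
    apply hw.ext
    rw [e1]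
    exact ne_of_snd (show Dir.S ≠ Dir.N by decide)
  have hS : ∀ i j, c ≤ i → i < d → b < j → j < t → w (φ (i, j), .S) = (φ (i, j - 1), .N) := by
    intro i j a1 a2 a3 a4
    have e1 := hN i (j - 1) a1 a2 (by omega) (by omega)
    rw [show j - 1 + 1 = j by ring] at e1
    rw [← e1, hw.inv]
  have hout : ∀ i j, c ≤ i → i < d → b ≤ j → j < t → (i < c' ∨ d' ≤ i) → ∀ p ∈ box c' d' b t,
      φ p ≠ φ (i, j) := by
    rintro i j a1 a2 a3 a4 a5 ⟨i', j'⟩ hp hq
    rw [mem_box] at hp
    have := h.inj i' j' i j (by omega) (by omega) (by omega) (by omega) a1 a2 a3 a4 hq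
    omega
  refine ⟨?_, ?_, ?_, ?_, ?_, ?_, ?_, ?_, ?_, ?_, ?_, ?_, ?_⟩
  · rintro ⟨i, j⟩ hp ⟨i', j'⟩ hq hpq
    rw [Finset.mem_coe, mem_box] at hp hq
    have := h.inj i j i' j' (by omega) (by omega) (by omega) (by omega) (by omega) (by omega)
      (by omega) (by omega) hpq
    rw [this.1, this.2]
  · rintro ⟨i, j⟩ hp
    rw [mem_box] at hp
    exact h.mem i j (by omega) (by omega) (by omega) (by omega)
  · rintro ⟨i, j⟩ v hp hq
    rw [mem_box] at hp
    cases v with
    | E =>
      have e1 : ((i, j) : ℤ × ℤ) + Dir.E.vec = (i + 1, j) := by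
        show ((i + 1, j + 0) : ℤ × ℤ) = _; rw [add_zero]
      rw [e1] at hq ⊢
      rw [mem_box] at hq
      exact hE i j (by omega) (by omega) (by omega) (by omega)
    | W =>
      have e1 : ((i, j) : ℤ × ℤ) + Dir.W.vec = (i - 1, j) := by
        show ((i + -1, j + 0) : ℤ × ℤ) = _; rw [add_zero]; rfl
      rw [e1] at hq ⊢
      rw [mem_box] at hq
      exact hW i j (by omega) (by omega) (by omega) (by omega)
    | N =>
      have e1 : ((i, j) : ℤ × ℤ) + Dir.N.vec = (i, j + 1) := by
        show ((i + 0, j + 1) : ℤ × ℤ) = _; rw [add_zero]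
      rw [e1] at hq ⊢
      rw [mem_box] at hq
      exact hN i j (by omega) (by omega) (by omega) (by omega)
    | S =>
      have e1 : ((i, j) : ℤ × ℤ) + Dir.S.vec = (i, j - 1) := by
        show ((i + 0, j + -1) : ℤ × ℤ) = _; rw [add_zero]; rfl
      rw [e1] at hq ⊢
      rw [mem_box] at hq
      exact hS i j (by omega) (by omega) (by omega) (by omega)
  · intro i a1 a2 a3
    have e1 := hc.floor (i + 1) (by omega) (by omega) (by omega)
    rw [show i + 1 - 1 = i by ring] at e1
    exact e1
  · intro i a1 a2 a3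
    exact hc.floor' hw.inv i (by omega) (by omega) a3
  · intro a1 p hp
    have hp' := hp
    rw [show p = (p.1, p.2) from rfl, mem_box] at hp'
    have e1 := hc.floor d' (by omega) (by omega) (by omega)
    rw [e1]
    exact hout d' b (by omega) (by omega) (by omega) (by omega) (Or.inr le_rfl) p hp
  · intro a1 p hp
    have hp' := hp
    rw [show p = (p.1, p.2) from rfl, mem_box] at hp'
    have e1 := hc.floor' hw.inv c' (by omega) (by omega) (by omega)
    rw [e1]
    exact hout (c' - 1) b (by omega) (by omega) (by omega) (by omega) (Or.inl (by omega)) p hp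
  · intro i a1 a2 a3
    have e1 := hc.ceil (i + 1) (by omega) (by omega) (by omega)
    rw [show i + 1 - 1 = i by ring] at e1
    exact e1
  · intro i a1 a2 a3
    exact hc.ceil' hw.inv i (by omega) (by omega) a3
  · intro a1 p hp
    have hp' := hp
    rw [show p = (p.1, p.2) from rfl, mem_box] at hp'
    have e1 := hc.ceil d' (by omega) (by omega) (by omega)
    rw [e1]
    exact hout d' (t - 1) (by omega) (by omega) (by omega) (by omega) (Or.inr le_rfl) p hp
  · intro a1 p hp
    have hp' := hp
    rw [show p = (p.1, p.2) from rfl, mem_box] at hp'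
    have e1 := hc.ceil' hw.inv c' (by omega) (by omega) (by omega)
    rw [e1]
    exact hout (c' - 1) (t - 1) (by omega) (by omega) (by omega) (by omega) (Or.inl (by omega)) p hp
  · intro j a1 a2 p hp
    have hp' := hp
    rw [show p = (p.1, p.2) from rfl, mem_box] at hp'
    rw [hW c' j h1 (by omega) a1 a2]
    exact hout (c' - 1) j (by omega) (by omega) (by omega) (by omega) (Or.inl (by omega)) p hp
  · intro j a1 a2 p hp
    have hp' := hp
    rw [show p = (p.1, p.2) from rfl, mem_box] at hp'
    rw [hE (d' - 1) j (by omega) (by omega) a1 a2, show d' - 1 + 1 = d' by ring]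
    exact hout d' j (by omega) (by omega) (by omega) (by omega) (Or.inr le_rfl) p hp

/-! ### the pairs of a closed wall alternate -/

section wall
variable {T : Finset τ} {g w : Half τ → Half τ}

/-- a closed wall without ends along a piece of the boundary is alternating there -/
theorem wall_alt (hG : Glu T g) (hw : Wall T g w) {f : ℤ → Half τ} {m n : ℤ}
    (hf : ∀ s, m ≤ s → s ≤ n → Bd T g (f s)) (hn : ∀ s, m ≤ s → s < n → next g (f s) = f (s + 1))
    (hm : ∀ s, m ≤ s → s ≤ n → w (f s) ≠ f s) (hinj : ∀ s s', m ≤ s → s ≤ n → m ≤ s' → s' ≤ n →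
      f s = f s' → s = s') :
    ∃ r : ℤ, (r = 0 ∨ r = 1) ∧ ∀ s, m ≤ s → s < n → (s - r) % 2 = 0 → w (f s) = f (s + 1) := by
  rcases lt_or_ge (m + 1) n with hmn | hmn
  swap
  · -- at most two points: choose the class of `m`
    by_cases h0 : m < n
    · have e0 : n = m + 1 := by omega
      by_cases h1 : w (f m) = f (m + 1)
      · refine ⟨m % 2, by omega, fun s a1 a2 _ => ?_⟩
        have : s = m := by omega
        subst this
        exact h1
      · refine ⟨(m + 1) % 2, by omega, fun s a1 a2 a3 => ?_⟩
        exfalso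
        omega
    · exact ⟨0, Or.inl rfl, fun s a1 a2 _ => by exfalso; omega⟩
  -- the partner of an inner point is one of the two neighbours
  have step : ∀ s, m < s → s < n → w (f s) = f (s + 1) ∨ w (f s) = f (s - 1) := by
    intro s a1 a2
    rcases hw.near (f s) (hf s a1.le a2.le) with h1 | h1 | h1
    · exact absurd h1 (hm s a1.le a2.le)
    · left
      rw [h1, hn s a1.le a2]
    · right
      have h2 : next g (f (s - 1)) = f s := by
        have := hn (s - 1) (by omega) (by omega)
        rwa [show s - 1 + 1 = s by ring] at this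
      have h3 : g (w (f s)) = w (f s) := by
        by_contra h4
        have h5 := hw.ext _ h4
        rw [hw.inv] at h5
        have h6 : g (f s) = w (f s) := (congrArg g h5).trans (hG.inv _)
        rw [(hf s a1.le a2.le).2] at h6
        exact hm s a1.le a2.le h6.symm
      exact hG.next_inj h3 (hf (s - 1) (by omega) (by omega)).2 (by rw [h2]; exact h1.symm)
  have alt : ∀ s, m < s → s < n → w (f s) = f (s + 1) → ∀ k : ℕ, s + 2 * k < n →
      w (f (s + 2 * k)) = f (s + 2 * k + 1) := by
    intro s a1 a2 a3 k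
    induction k with
    | zero =>
      intro _
      simpa using a3
    | succ k ih =>
      intro h1
      push_cast at h1 ⊢
      have h2 := ih (by omega)
      rcases step (s + 2 * (k + 1)) (by omega) h1 with h3 | h3
      · exact h3
      · exfalso
        rw [show s + 2 * ((k : ℤ) + 1) - 1 = s + 2 * k + 1 by ring, ← h2] at h3
        have h4 : f (s + 2 * ((k : ℤ) + 1)) = f (s + 2 * k) := by
          rw [← hw.inv (f (s + 2 * ((k : ℤ) + 1))), h3, hw.inv]
        have := hinj _ _ (by omega) (by omega) (by omega) (by omega) h4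
        omega
  -- the second point decides the class
  by_cases h1 : w (f (m + 1)) = f (m + 1 + 1)
  · refine ⟨(m + 1) % 2, by omega, fun s a1 a2 a3 => ?_⟩
    obtain ⟨k, hk⟩ : ∃ k : ℕ, s = m + 1 + 2 * k := ⟨((s - (m + 1)) / 2).toNat, by omega⟩
    subst hk
    exact alt (m + 1) (by omega) hmn h1 k a2
  · have h2 := (step (m + 1) (by omega) hmn).resolve_left h1
    rw [show m + 1 - 1 = m by ring] at h2
    have h3 : w (f m) = f (m + 1) := by rw [← h2, hw.inv]
    refine ⟨m % 2, by omega, fun s a1 a2 a3 => ?_⟩
    rcases eq_or_lt_of_le a1 with h4 | h4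
    · rw [← h4]; exact h3
    · -- the class of `m + 2`
      have h5 : w (f (m + 2)) = f (m + 2 + 1) := by
        rcases step (m + 2) (by omega) (by omega) with h5 | h5
        · exact h5
        · exfalso
          rw [show m + 2 - 1 = m + 1 by ring, ← h3] at h5
          have h6 : f (m + 2) = f m := by
            rw [← hw.inv (f (m + 2)), h5, hw.inv]
          have := hinj _ _ (by omega) (by omega) (by omega) (by omega) h6
          omega
      obtain ⟨k, hk⟩ : ∃ k : ℕ, s = m + 2 + 2 * k := ⟨((s - (m + 2)) / 2).toNat, by omega⟩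
      subst hk
      exact alt (m + 2) (by omega) (by omega) h5 k a2

end wall

/-! ### the dead ends are capped -/

section ends
variable {T : Finset τ} {g w : Half τ → Half τ} {φ : ℤ × ℤ → τ} {c d b t : ℤ}

theorem endL_mem (h : Channel T g φ c d b t) (hbt : b < t) (hcd : c < d) {s : ℤ}
    (h1 : c - d ≤ s) (h2 : s < t - b + (d - c)) : (endL φ c b t s).1 ∈ T := by
  unfold endL
  split_ifs with h3 h4
  · exact h.mem _ _ (by omega) (by omega) (by omega) (by omega)
  · exact h.mem _ _ (by omega) (by omega) (by omega) (by omega)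
  · exact h.mem _ _ (by omega) (by omega) (by omega) (by omega)

theorem endR_mem (h : Channel T g φ c d b t) (hbt : b < t) (hcd : c < d) {s : ℤ}
    (h1 : c - d ≤ s) (h2 : s < t - b + (d - c)) : (endR φ d b t s).1 ∈ T := by
  unfold endR
  split_ifs with h3 h4
  · exact h.mem _ _ (by omega) (by omega) (by omega) (by omega)
  · exact h.mem _ _ (by omega) (by omega) (by omega) (by omega)
  · exact h.mem _ _ (by omega) (by omega) (by omega) (by omega)

theorem endL_inj (h : Channel T g φ c d b t) (hbt : b < t) (hcd : c < d) {s s' : ℤ}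
    (h1 : c - d ≤ s) (h2 : s < t - b + (d - c)) (h3 : c - d ≤ s') (h4 : s' < t - b + (d - c))
    (he : endL φ c b t s = endL φ c b t s') : s = s' := by
  unfold endL at he
  split_ifs at he with a1 a2 a3 a4 a5 a6 a7
  all_goals
    have e1 := congrArg Prod.fst he
    have e2 := congrArg Prod.snd he
    dsimp only at e1 e2
  · have := h.inj _ _ _ _ (by omega) (by omega) (by omega) (by omega) (by omega) (by omega)
      (by omega) (by omega) e1
    omega
  · exact absurd e2 (by decide)
  · exact absurd e2 (by decide)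
  · exact absurd e2 (by decide)
  · have := h.inj _ _ _ _ (by omega) (by omega) (by omega) (by omega) (by omega) (by omega)
      (by omega) (by omega) e1
    omega
  · exact absurd e2 (by decide)
  · exact absurd e2 (by decide)
  · exact absurd e2 (by decide)
  · have := h.inj _ _ _ _ (by omega) (by omega) (by omega) (by omega) (by omega) (by omega)
      (by omega) (by omega) e1
    omega

theorem endR_inj (h : Channel T g φ c d b t) (hbt : b < t) (hcd : c < d) {s s' : ℤ}
    (h1 : c - d ≤ s) (h2 : s < t - b + (d - c)) (h3 : c - d ≤ s') (h4 : s' < t - b + (d - c))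
    (he : endR φ d b t s = endR φ d b t s') : s = s' := by
  unfold endR at he
  split_ifs at he with a1 a2 a3 a4 a5 a6 a7
  all_goals
    have e1 := congrArg Prod.fst he
    have e2 := congrArg Prod.snd he
    dsimp only at e1 e2
  · have := h.inj _ _ _ _ (by omega) (by omega) (by omega) (by omega) (by omega) (by omega)
      (by omega) (by omega) e1
    omega
  · exact absurd e2 (by decide)
  · exact absurd e2 (by decide)
  · exact absurd e2 (by decide)
  · have := h.inj _ _ _ _ (by omega) (by omega) (by omega) (by omega) (by omega) (by omega)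
      (by omega) (by omega) e1
    omega
  · exact absurd e2 (by decide)
  · exact absurd e2 (by decide)
  · exact absurd e2 (by decide)
  · have := h.inj _ _ _ _ (by omega) (by omega) (by omega) (by omega) (by omega) (by omega)
      (by omega) (by omega) e1
    omega

/-- **the closed wall in a left dead end without marks is capped** -/
theorem cappedL (hG : Glu T g) (hw : Wall T g w) (h : Channel T g φ c d b t) (hwl : WallL g φ c b t)
    (hbt : b < t) (hcd : c < d)
    (hm : ∀ s, c - d ≤ s → s < t - b + (d - c) → w (endL φ c b t s) ≠ endL φ c b t s) :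
    ∃ e : ℤ, (e = 0 ∨ e = 1) ∧ Capped w φ c d b t e ∧
      ∀ s, c - d ≤ s → s + 1 < t - b + (d - c) → (c + s + t + e) % 2 = 0 →
        w (endL φ c b t s) = endL φ c b t (s + 1) := by
  obtain ⟨r, hr, h1⟩ := wall_alt hG hw (f := endL φ c b t) (m := c - d) (n := t - b + (d - c) - 1)
    (fun s a1 a2 => ⟨endL_mem h hbt hcd a1 (by omega), endL_fix h hwl a1 (by omega)⟩)
    (fun s a1 a2 => next_endL hG h hwl hbt hcd a1 (by omega)) (fun s a1 a2 => hm s a1 (by omega))
    (fun s s' a1 a2 a3 a4 a5 => endL_inj h hbt hcd a1 (by omega) a3 (by omega) a5)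
  have h2 : ∀ s, c - d ≤ s → s + 1 < t - b + (d - c) → (c + s + t + (c + t + r) % 2) % 2 = 0 →
      w (endL φ c b t s) = endL φ c b t (s + 1) := fun s a1 a2 a3 => h1 s a1 (by omega) (by omega)
  refine ⟨(c + t + r) % 2, by omega, ⟨fun i a1 a2 a3 => ?_, fun i a1 a2 a3 => ?_⟩, h2⟩
  · have h3 := h2 (i - 1 - c + (t - b)) (by omega) (by omega) (by omega)
    have e1 : endL φ c b t (i - 1 - c + (t - b)) = (φ (i - 1, b), .S) := by
      unfold endL
      rw [if_neg (by omega), if_neg (by omega), show c + (i - 1 - c + (t - b) - (t - b)) = i - 1 by ring]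
    have e2 : endL φ c b t (i - 1 - c + (t - b) + 1) = (φ (i, b), .S) := by
      unfold endL
      rw [if_neg (by omega), if_neg (by omega),
        show c + (i - 1 - c + (t - b) + 1 - (t - b)) = i by ring]
    rw [e1, e2] at h3
    exact h3
  · have h3 := h2 (c - 1 - i) (by omega) (by omega) (by omega)
    have e1 : endL φ c b t (c - 1 - i) = (φ (i, t - 1), .N) := by
      unfold endL
      rw [if_pos (by omega), show c - 1 - (c - 1 - i) = i by ring]
    have e2 : endL φ c b t (c - 1 - i + 1) = (φ (i - 1, t - 1), .N) := by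
      unfold endL
      rw [if_pos (by omega), show c - 1 - (c - 1 - i + 1) = i - 1 by ring]
    rw [e1, e2] at h3
    rw [← h3, hw.inv]

/-- **the closed wall in a right dead end without marks is capped** -/
theorem cappedR (hG : Glu T g) (hw : Wall T g w) (h : Channel T g φ c d b t) (hwr : WallR g φ d b t)
    (hbt : b < t) (hcd : c < d)
    (hm : ∀ s, c - d ≤ s → s < t - b + (d - c) → w (endR φ d b t s) ≠ endR φ d b t s) :
    ∃ e : ℤ, (e = 0 ∨ e = 1) ∧ Capped w φ c d b t e ∧
      ∀ s, c - d ≤ s → s + 1 < t - b + (d - c) → (d + s + b + e) % 2 = 0 →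
        w (endR φ d b t s) = endR φ d b t (s + 1) := by
  obtain ⟨r, hr, h1⟩ := wall_alt hG hw (f := endR φ d b t) (m := c - d) (n := t - b + (d - c) - 1)
    (fun s a1 a2 => ⟨endR_mem h hbt hcd a1 (by omega), endR_fix h hwr a1 (by omega)⟩)
    (fun s a1 a2 => next_endR hG h hwr hbt hcd a1 (by omega)) (fun s a1 a2 => hm s a1 (by omega))
    (fun s s' a1 a2 a3 a4 a5 => endR_inj h hbt hcd a1 (by omega) a3 (by omega) a5)
  have h2 : ∀ s, c - d ≤ s → s + 1 < t - b + (d - c) → (d + s + b + (d + b + r) % 2) % 2 = 0 →
      w (endR φ d b t s) = endR φ d b t (s + 1) := fun s a1 a2 a3 => h1 s a1 (by omega) (by omega)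
  refine ⟨(d + b + r) % 2, by omega, ⟨fun i a1 a2 a3 => ?_, fun i a1 a2 a3 => ?_⟩, h2⟩
  · have h3 := h2 (i - 1 - d) (by omega) (by omega) (by omega)
    have e1 : endR φ d b t (i - 1 - d) = (φ (i - 1, b), .S) := by
      unfold endR
      rw [if_pos (by omega), show d + (i - 1 - d) = i - 1 by ring]
    have e2 : endR φ d b t (i - 1 - d + 1) = (φ (i, b), .S) := by
      unfold endR
      rw [if_pos (by omega), show d + (i - 1 - d + 1) = i by ring]
    rw [e1, e2] at h3
    exact h3
  · have h3 := h2 (t - b + (d - 1 - i)) (by omega) (by omega) (by omega)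
    have e1 : endR φ d b t (t - b + (d - 1 - i)) = (φ (i, t - 1), .N) := by
      unfold endR
      rw [if_neg (by omega), if_neg (by omega),
        show d - 1 - (t - b + (d - 1 - i) - (t - b)) = i by ring]
    have e2 : endR φ d b t (t - b + (d - 1 - i) + 1) = (φ (i - 1, t - 1), .N) := by
      unfold endR
      rw [if_neg (by omega), if_neg (by omega),
        show d - 1 - (t - b + (d - 1 - i) + 1 - (t - b)) = i - 1 by ring]
    rw [e1, e2] at h3
    rw [← h3, hw.inv]

end ends

end Full.Loc1
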