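import Pool.Agent.Full.Def.Surf

/-!
# A blocking path in a channel separates the strands

`Block r c d b t S Q`: `Q` is a set of tiles of the box `[c, d) x [b, t)` whose drawn diagonals (`S` = tiles
with bit `true`) have the colour `r`; they form an even chain from the floor to the ceiling (for instance a
path).  The potential `sep Q` is constant along the strands (`mate`), across the glued sides, along the wall
dimers around the corners of the other colour; it is `0` on the left and `1` on the right.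
-/

set_option autoImplicit false

namespace Full
open Finset

/-- membership as an element of `ZMod 2` -/
noncomputable def ind (Q : Finset (ℤ × ℤ)) (p : ℤ × ℤ) : ZMod 2 := if p ∈ Q then 1 else 0

/-- the number of tiles of `Q` in the row `j` to the left of the abscissa `x` -/
noncomputable def cum (Q : Finset (ℤ × ℤ)) (j x : ℤ) : ZMod 2 := ((Q.filter fun p => p.2 = j ∧ p.1 < x).card : ZMod 2)

/-- even chains of diagonals of the colour `r` from the floor to the ceiling of a box -/
structure Block (r c d b t : ℤ) (S Q : Finset (ℤ × ℤ)) : Prop where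
  sub : ∀ p ∈ Q, (c ≤ p.1 ∧ p.1 < d) ∧ b ≤ p.2 ∧ p.2 < t
  col : ∀ p ∈ Q, (p ∈ S ↔ (p.1 + p.2) % 2 = r)
  even : ∀ x y : ℤ, (x + y) % 2 = r → b < y → y < t →
    ind Q (x - 1, y - 1) + ind Q (x, y - 1) + ind Q (x - 1, y) + ind Q (x, y) = 0
  odd : ∀ j, b ≤ j → j < t → ((Q.filter fun p => p.2 = j).card : ZMod 2) = 1

/-- the potential of a half edge -/
noncomputable def sep (r : ℤ) (Q : Finset (ℤ × ℤ)) (x : Half (ℤ × ℤ)) : ZMod 2 :=
  match x.2 with
  | .W => cum Q x.1.2 x.1.1
  | .E => cum Q x.1.2 (x.1.1 + 1)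
  | .N => if (x.1.1 + x.1.2) % 2 = r then cum Q x.1.2 x.1.1 else cum Q x.1.2 (x.1.1 + 1)
  | .S => if (x.1.1 + x.1.2) % 2 = r then cum Q x.1.2 (x.1.1 + 1) else cum Q x.1.2 x.1.1

theorem cum_succ (Q : Finset (ℤ × ℤ)) (j x : ℤ) : cum Q j (x + 1) = cum Q j x + ind Q (x, j) := by
  classical
  unfold cum ind
  have h1 : Q.filter (fun p => p.2 = j ∧ p.1 < x + 1) =
      Q.filter (fun p => p.2 = j ∧ p.1 < x) ∪ Q.filter (fun p => p = (x, j)) := by
    ext p
    simp only [mem_union, mem_filter, Prod.ext_iff]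
    constructor
    · rintro ⟨h1, h2, h3⟩
      rcases lt_or_eq_of_le (Int.lt_add_one_iff.1 h3) with h4 | h4
      · exact Or.inl ⟨h1, h2, h4⟩
      · exact Or.inr ⟨h1, h4, h2⟩
    · rintro (⟨h1, h2, h3⟩ | ⟨h1, h2, h3⟩)
      · exact ⟨h1, h2, by omega⟩
      · exact ⟨h1, h3, by omega⟩
  have h2 : Disjoint (Q.filter (fun p => p.2 = j ∧ p.1 < x)) (Q.filter (fun p => p = (x, j))) := by
    rw [Finset.disjoint_left]
    intro p hp hq
    rw [mem_filter] at hp hq
    obtain ⟨-, -, h3⟩ := hp
    rw [hq.2] at h3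
    simp only [lt_self_iff_false] at h3
  rw [h1, card_union_of_disjoint h2, Nat.cast_add]
  congr 1
  by_cases h : (x, j) ∈ Q
  · rw [if_pos h, Finset.filter_eq', if_pos h, card_singleton, Nat.cast_one]
  · rw [if_neg h, Finset.filter_eq', if_neg h, card_empty, Nat.cast_zero]

theorem z2_add_self (a : ZMod 2) : a + a = 0 := CharTwo.add_self_eq_zero a

theorem z2_cancel {a b : ZMod 2} (h : a + b = 0) : a = b := by
  have : a + b + b = b := by rw [h, zero_add]
  rw [add_assoc, z2_add_self, add_zero] at this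
  exact this

namespace Block
variable {r c d b t : ℤ} {S Q : Finset (ℤ × ℤ)} (h : Block r c d b t S Q)
include h

theorem ind_out {p : ℤ × ℤ} (hp : ¬ ((c ≤ p.1 ∧ p.1 < d) ∧ b ≤ p.2 ∧ p.2 < t)) : ind Q p = 0 := by
  unfold ind
  rw [if_neg (fun h1 => hp (h.sub p h1))]

/-- `0` on the left of the channel -/
theorem left {j x : ℤ} (hx : x ≤ c) : cum Q j x = 0 := by
  unfold cum
  rw [filter_eq_empty_iff.2, card_empty, Nat.cast_zero]
  intro p hp hq
  have := (h.sub p hp).1.1
  omega

/-- `1` on the right of the channel -/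
theorem right {j x : ℤ} (hx : d ≤ x) (h1 : b ≤ j) (h2 : j < t) : cum Q j x = 1 := by
  rw [← h.odd j h1 h2]
  unfold cum
  congr 2
  apply filter_congr
  intro p hp
  have := (h.sub p hp).1.2
  constructor
  · exact fun h3 => h3.1
  · exact fun h3 => ⟨h3, by omega⟩

/-- the two rows at a corner of the other colour -/
theorem cum_eq {j x : ℤ} (hx : (x + j) % 2 = r) (h1 : b ≤ j) (h2 : j + 1 < t) : cum Q j x = cum Q (j + 1) x := by
  have key : ∀ n : ℕ, ∀ x : ℤ, x ≤ c + 2 * n → (x + j) % 2 = r → cum Q j x = cum Q (j + 1) x := by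
    intro n
    induction n with
    | zero =>
      intro x hx _
      rw [h.left (by simpa using hx), h.left (by simpa using hx)]
    | succ n ih =>
      intro x hx hr
      have h3 := ih (x - 2) (by push_cast at hx; linarith) (by omega)
      have e1 : cum Q j x = cum Q j (x - 2) + ind Q (x - 2, j) + ind Q (x - 1, j) := by
        have e2 := cum_succ Q j (x - 1)
        have e3 := cum_succ Q j (x - 2)
        rw [show x - 1 + 1 = x by ring] at e2
        rw [show x - 2 + 1 = x - 1 by ring] at e3
        rw [e2, e3]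
      have e2 : cum Q (j + 1) x = cum Q (j + 1) (x - 2) + ind Q (x - 2, j + 1) + ind Q (x - 1, j + 1) := by
        have e2 := cum_succ Q (j + 1) (x - 1)
        have e3 := cum_succ Q (j + 1) (x - 2)
        rw [show x - 1 + 1 = x by ring] at e2
        rw [show x - 2 + 1 = x - 1 by ring] at e3
        rw [e2, e3]
      have h4 := h.even (x - 1) (j + 1) (by omega) (by omega) (by omega)
      rw [show x - 1 - 1 = x - 2 by ring, show j + 1 - 1 = j by ring] at h4
      apply z2_cancel
      rw [e1, e2, h3]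
      linear_combination h4 + z2_add_self (cum Q (j + 1) (x - 2))
  obtain ⟨n, hn⟩ : ∃ n : ℕ, x ≤ c + 2 * n := ⟨(x - c).toNat, by omega⟩
  exact key n x hn hx

/-- the strands do not cross the chain -/
theorem sep_mate (x : Half (ℤ × ℤ)) : sep r Q (mate S x) = sep r Q x := by
  obtain ⟨⟨i, j⟩, e⟩ := x
  have h1 := cum_succ Q j i
  by_cases hQ : (i, j) ∈ Q
  · have h2 := h.col _ hQ
    simp only at h2
    unfold mate sep
    by_cases hr : (i + j) % 2 = r
    · have h3 : (i, j) ∈ S := h2.2 hr
      cases e <;> simp [Dir.mt, h3, hr]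
    · have h3 : (i, j) ∉ S := fun h4 => hr (h2.1 h4)
      cases e <;> simp [Dir.mt, h3, hr]
  · have h2 : cum Q j (i + 1) = cum Q j i := by
      rw [h1]
      unfold ind
      rw [if_neg hQ, add_zero]
    have h3 : ∀ e, sep r Q ((i, j), e) = cum Q j i := by
      intro e
      unfold sep
      cases e <;> simp [h2]
    show sep r Q ((i, j), _) = _
    rw [h3, h3]

omit h in
theorem sep_h (r : ℤ) (Q : Finset (ℤ × ℤ)) (i j : ℤ) : sep r Q ((i, j), .E) = sep r Q ((i + 1, j), .W) := rfl

/-- across the horizontal sides -/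
theorem sep_v {i j : ℤ} (hr : r = 0 ∨ r = 1) (h1 : b ≤ j) (h2 : j + 1 < t) :
    sep r Q ((i, j), .N) = sep r Q ((i, j + 1), .S) := by
  unfold sep
  simp only
  by_cases h3 : (i + j) % 2 = r
  · rw [if_pos h3, if_neg (by omega)]
    exact h.cum_eq h3 h1 h2
  · rw [if_neg h3, if_pos (by omega)]
    exact h.cum_eq (by omega) h1 h2

omit h in
/-- along a floor dimer around a corner of the other colour -/
theorem sep_floor (hr : r = 0 ∨ r = 1) {x : ℤ} (hx : (x + b) % 2 ≠ r) :
    sep r Q ((x - 1, b), .S) = sep r Q ((x, b), .S) := by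
  unfold sep
  simp only
  rw [if_neg hx, if_pos (by omega), sub_add_cancel]

omit h in
/-- along a ceiling dimer around a corner of the other colour -/
theorem sep_ceil (hr : r = 0 ∨ r = 1) {x : ℤ} (hx : (x + t) % 2 ≠ r) :
    sep r Q ((x - 1, t - 1), .N) = sep r Q ((x, t - 1), .N) := by
  unfold sep
  simp only
  rw [if_pos (by omega : (x + (t - 1)) % 2 = r), if_neg (by omega), sub_add_cancel]

end Block

end Full
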