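import Pool.Agent.Full.Def.Geo

/-!
# Channels

`Channel T g phi c d b t`: the tiles `phi (i, j)`, `c ≤ i < d`, `b ≤ j < t`, form a rectangle of the region
`(T, g)`, glued as in the plane, with walls below and above.  The row of a domain in two sheets ends in a
channel with a wall on the left and in a channel with a wall on the right.  After the rows are closed they
form one channel, the corridor.
-/

set_option autoImplicit false

namespace Full.Loc1
open Function Relation

variable {τ : Type*}

/-- a rectangle with walls below and above -/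
structure Channel (T : Finset τ) (g : Half τ → Half τ) (φ : ℤ × ℤ → τ) (c d b t : ℤ) : Prop where
  mem : ∀ i j, c ≤ i → i < d → b ≤ j → j < t → φ (i, j) ∈ T
  inj : ∀ i j i' j', c ≤ i → i < d → b ≤ j → j < t → c ≤ i' → i' < d → b ≤ j' → j' < t →
    φ (i, j) = φ (i', j') → i = i' ∧ j = j'
  east : ∀ i j, c ≤ i → i + 1 < d → b ≤ j → j < t → g (φ (i, j), .E) = (φ (i + 1, j), .W)
  north : ∀ i j, c ≤ i → i < d → b ≤ j → j + 1 < t → g (φ (i, j), .N) = (φ (i, j + 1), .S)
  floor : ∀ i, c ≤ i → i < d → g (φ (i, b), .S) = (φ (i, b), .S)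
  ceil : ∀ i, c ≤ i → i < d → g (φ (i, t - 1), .N) = (φ (i, t - 1), .N)

namespace Channel
variable {T : Finset τ} {g : Half τ → Half τ} {φ : ℤ × ℤ → τ} {c d b t : ℤ}

theorem mono (h : Channel T g φ c d b t) {c' d' : ℤ} (hc : c ≤ c') (hd : d' ≤ d) :
    Channel T g φ c' d' b t where
  mem i j h1 h2 h3 h4 := h.mem i j (hc.trans h1) (lt_of_lt_of_le h2 hd) h3 h4
  inj i j i' j' h1 h2 h3 h4 h5 h6 h7 h8 := h.inj i j i' j' (hc.trans h1) (lt_of_lt_of_le h2 hd) h3 h4
    (hc.trans h5) (lt_of_lt_of_le h6 hd) h7 h8
  east i j h1 h2 h3 h4 := h.east i j (hc.trans h1) (lt_of_lt_of_le h2 hd) h3 h4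
  north i j h1 h2 h3 h4 := h.north i j (hc.trans h1) (lt_of_lt_of_le h2 hd) h3 h4
  floor i h1 h2 := h.floor i (hc.trans h1) (lt_of_lt_of_le h2 hd)
  ceil i h1 h2 := h.ceil i (hc.trans h1) (lt_of_lt_of_le h2 hd)

theorem west (h : Channel T g φ c d b t) (hG : Glu T g) {i j : ℤ} (h1 : c < i) (h2 : i < d)
    (h3 : b ≤ j) (h4 : j < t) : g (φ (i, j), .W) = (φ (i - 1, j), .E) := by
  have h5 := h.east (i - 1) j (by omega) (by omega) h3 h4
  rw [show i - 1 + 1 = i by ring] at h5
  rw [← h5, hG.inv]

theorem south (h : Channel T g φ c d b t) (hG : Glu T g) {i j : ℤ} (h1 : c ≤ i) (h2 : i < d)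
    (h3 : b < j) (h4 : j < t) : g (φ (i, j), .S) = (φ (i, j - 1), .N) := by
  have h5 := h.north i (j - 1) h1 h2 (by omega) (by omega)
  rw [show j - 1 + 1 = j by ring] at h5
  rw [← h5, hG.inv]

end Channel

lemma ne_of_snd {x y : Half τ} (h : x.2 ≠ y.2) : x ≠ y := fun h1 => h (congrArg Prod.snd h1)

/-! ### the next boundary half edge -/

section next
variable {T : Finset τ} {g : Half τ → Half τ}

open Classical in
/-- at a convex corner -/
theorem next_convex {x : Half τ} (hx : g x = x) (h1 : g (rho x) = rho x) :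
    next g x = rho x := by
  have h : ∃ k, 1 ≤ k ∧ g ((rot g)^[k] x) = (rot g)^[k] x := by
    refine ⟨1, le_rfl, ?_⟩
    show g (rho (g x)) = rho (g x)
    rw [hx]; exact h1
  have h2 : Nat.find h = 1 := by
    refine (Nat.find_eq_iff h).2 ⟨⟨le_rfl, ?_⟩, fun n hn h3 => by omega⟩
    show g (rho (g x)) = rho (g x)
    rw [hx]; exact h1
  unfold next
  rw [dif_pos h, h2]
  show rho (g x) = rho x
  rw [hx]

open Classical in
/-- along a flat wall -/
theorem next_flat {x : Half τ} (hx : g x = x) (h1 : g (rho x) ≠ rho x)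
    (h2 : g (rho (g (rho x))) = rho (g (rho x))) : next g x = rho (g (rho x)) := by
  have e1 : (rot g)^[1] x = rho x := by
    show rho (g x) = rho x
    rw [hx]
  have e2 : (rot g)^[2] x = rho (g (rho x)) := by
    show rho (g (rho (g x))) = rho (g (rho x))
    rw [hx]
  have h : ∃ k, 1 ≤ k ∧ g ((rot g)^[k] x) = (rot g)^[k] x := ⟨2, by norm_num, by rw [e2]; exact h2⟩
  have h3 : Nat.find h = 2 := by
    refine (Nat.find_eq_iff h).2 ⟨⟨by norm_num, by rw [e2]; exact h2⟩, fun n hn h3 => ?_⟩
    have h4 : n = 1 := by omega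
    subst h4
    have h5 := h3.2
    rw [e1] at h5
    exact h1 h5
  unfold next
  rw [dif_pos h, h3, e2]

end next

/-! ### the boundary path of a dead end -/

/-- the boundary path around a left end: `s < 0` ceiling, `0 ≤ s < t - b` end, `t - b ≤ s` floor -/
def endL (φ : ℤ × ℤ → τ) (c b t s : ℤ) : Half τ :=
  if s < 0 then (φ (c - 1 - s, t - 1), .N)
  else if s < t - b then (φ (c, t - 1 - s), .W)
  else (φ (c + (s - (t - b)), b), .S)

/-- the boundary path around a right end: `s < 0` floor, `0 ≤ s < t - b` end, `t - b ≤ s` ceiling -/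
def endR (φ : ℤ × ℤ → τ) (d b t s : ℤ) : Half τ :=
  if s < 0 then (φ (d + s, b), .S)
  else if s < t - b then (φ (d - 1, b + s), .E)
  else (φ (d - 1 - (s - (t - b)), t - 1), .N)

section ends
variable {T : Finset τ} {g : Half τ → Half τ} {φ : ℤ × ℤ → τ} {c d b t : ℤ}

/-- the wall at the left end -/
def WallL (g : Half τ → Half τ) (φ : ℤ × ℤ → τ) (c b t : ℤ) : Prop :=
  ∀ j, b ≤ j → j < t → g (φ (c, j), .W) = (φ (c, j), .W)

/-- the wall at the right end -/
def WallR (g : Half τ → Half τ) (φ : ℤ × ℤ → τ) (d b t : ℤ) : Prop :=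
  ∀ j, b ≤ j → j < t → g (φ (d - 1, j), .E) = (φ (d - 1, j), .E)

theorem endL_fix (h : Channel T g φ c d b t) (hw : WallL g φ c b t) {s : ℤ}
    (h1 : c - d ≤ s) (h2 : s < t - b + (d - c)) : g (endL φ c b t s) = endL φ c b t s := by
  unfold endL
  split_ifs with h3 h4
  · exact h.ceil _ (by omega) (by omega)
  · exact hw _ (by omega) (by omega)
  · exact h.floor _ (by omega) (by omega)

theorem endR_fix (h : Channel T g φ c d b t) (hw : WallR g φ d b t) {s : ℤ}
    (h1 : c - d ≤ s) (h2 : s < t - b + (d - c)) : g (endR φ d b t s) = endR φ d b t s := by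
  unfold endR
  split_ifs with h3 h4
  · exact h.floor _ (by omega) (by omega)
  · exact hw _ (by omega) (by omega)
  · exact h.ceil _ (by omega) (by omega)

theorem next_endL (hG : Glu T g) (h : Channel T g φ c d b t) (hw : WallL g φ c b t) (hbt : b < t)
    (hcd : c < d) {s : ℤ} (h1 : c - d ≤ s) (h2 : s + 1 < t - b + (d - c)) :
    next g (endL φ c b t s) = endL φ c b t (s + 1) := by
  have hx := endL_fix h hw h1 (by omega)
  have hy := endL_fix h hw (s := s + 1) (by omega) (by omega)
  by_cases a1 : s < 0
  · by_cases a2 : s + 1 < 0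
    · -- along the ceiling
      have e1 : endL φ c b t s = (φ (c - 1 - s, t - 1), .N) := if_pos a1
      have e2 : endL φ c b t (s + 1) = (φ (c - 1 - (s + 1), t - 1), .N) := if_pos a2
      have e3 : g (rho (φ (c - 1 - s, t - 1), Dir.N)) = (φ (c - 1 - s - 1, t - 1), .E) :=
        h.west hG (by omega) (by omega) (by omega) (by omega)
      have e4 : rho (g (rho (φ (c - 1 - s, t - 1), Dir.N))) = (φ (c - 1 - (s + 1), t - 1), .N) := by
        rw [e3]
        show ((φ (c - 1 - s - 1, t - 1), Dir.N) : Half τ) = _
        rw [show c - 1 - s - 1 = c - 1 - (s + 1) by ring]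
      rw [e1] at hx ⊢
      rw [e2] at hy ⊢
      rw [next_flat hx, e4]
      · rw [e3]
        exact ne_of_snd (show Dir.E ≠ Dir.W by decide)
      · rw [e4]; exact hy
    · have a3 : s = -1 := by omega
      subst a3
      have e1 : endL φ c b t (-1) = (φ (c, t - 1), .N) := by
        unfold endL
        rw [if_pos (by norm_num)]
        norm_num
      have e2 : endL φ c b t (-1 + 1) = (φ (c, t - 1), .W) := by
        unfold endL
        rw [if_neg (by norm_num), if_pos (by omega)]
        norm_num
      rw [e1] at hx ⊢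
      rw [e2] at hy ⊢
      exact next_convex hx hy
  · by_cases a2 : s < t - b
    · have e1 : endL φ c b t s = (φ (c, t - 1 - s), .W) := by
        unfold endL
        rw [if_neg a1, if_pos a2]
      rw [e1] at hx ⊢
      by_cases a3 : s + 1 < t - b
      · have e2 : endL φ c b t (s + 1) = (φ (c, t - 1 - (s + 1)), .W) := by
          unfold endL
          rw [if_neg (by omega), if_pos a3]
        have e3 : g (rho (φ (c, t - 1 - s), Dir.W)) = (φ (c, t - 1 - s - 1), .N) :=
          h.south hG le_rfl hcd (by omega) (by omega)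
        have e4 : rho (g (rho (φ (c, t - 1 - s), Dir.W))) = (φ (c, t - 1 - (s + 1)), .W) := by
          rw [e3]
          show ((φ (c, t - 1 - s - 1), Dir.W) : Half τ) = _
          rw [show t - 1 - s - 1 = t - 1 - (s + 1) by ring]
        rw [e2] at hy ⊢
        rw [next_flat hx, e4]
        · rw [e3]
          exact ne_of_snd (show Dir.N ≠ Dir.S by decide)
        · rw [e4]; exact hy
      · have a4 : s = t - b - 1 := by omega
        subst a4
        have e2 : endL φ c b t (t - b - 1 + 1) = (φ (c, b), .S) := by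
          unfold endL
          rw [if_neg (by omega), if_neg (by omega)]
          norm_num
        have e5 : ((φ (c, t - 1 - (t - b - 1)), Dir.W) : Half τ) = (φ (c, b), .W) := by
          rw [show t - 1 - (t - b - 1) = b by ring]
        rw [e5] at hx ⊢
        rw [e2] at hy ⊢
        exact next_convex hx hy
    · have e1 : endL φ c b t s = (φ (c + (s - (t - b)), b), .S) := by
        unfold endL
        rw [if_neg a1, if_neg a2]
      have e2 : endL φ c b t (s + 1) = (φ (c + (s + 1 - (t - b)), b), .S) := by
        unfold endL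
        rw [if_neg (by omega), if_neg (by omega)]
      have e3 : g (rho (φ (c + (s - (t - b)), b), Dir.S)) = (φ (c + (s - (t - b)) + 1, b), .W) :=
        h.east _ _ (by omega) (by omega) le_rfl hbt
      have e4 : rho (g (rho (φ (c + (s - (t - b)), b), Dir.S))) = (φ (c + (s + 1 - (t - b)), b), .S) := by
        rw [e3]
        show ((φ (c + (s - (t - b)) + 1, b), Dir.S) : Half τ) = _
        rw [show c + (s - (t - b)) + 1 = c + (s + 1 - (t - b)) by ring]
      rw [e1] at hx ⊢
      rw [e2] at hy ⊢
      rw [next_flat hx, e4]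
      · rw [e3]
        exact ne_of_snd (show Dir.W ≠ Dir.E by decide)
      · rw [e4]; exact hy

theorem next_endR (hG : Glu T g) (h : Channel T g φ c d b t) (hw : WallR g φ d b t) (hbt : b < t)
    (hcd : c < d) {s : ℤ} (h1 : c - d ≤ s) (h2 : s + 1 < t - b + (d - c)) :
    next g (endR φ d b t s) = endR φ d b t (s + 1) := by
  have hx := endR_fix h hw h1 (by omega)
  have hy := endR_fix h hw (s := s + 1) (by omega) (by omega)
  by_cases a1 : s < 0
  · by_cases a2 : s + 1 < 0
    · -- along the floor
      have e1 : endR φ d b t s = (φ (d + s, b), .S) := if_pos a1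
      have e2 : endR φ d b t (s + 1) = (φ (d + (s + 1), b), .S) := if_pos a2
      have e3 : g (rho (φ (d + s, b), Dir.S)) = (φ (d + s + 1, b), .W) :=
        h.east _ _ (by omega) (by omega) le_rfl hbt
      have e4 : rho (g (rho (φ (d + s, b), Dir.S))) = (φ (d + (s + 1), b), .S) := by
        rw [e3]
        show ((φ (d + s + 1, b), Dir.S) : Half τ) = _
        rw [show d + s + 1 = d + (s + 1) by ring]
      rw [e1] at hx ⊢
      rw [e2] at hy ⊢
      rw [next_flat hx, e4]
      · rw [e3]
        exact ne_of_snd (show Dir.W ≠ Dir.E by decide)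
      · rw [e4]; exact hy
    · have a3 : s = -1 := by omega
      subst a3
      have e1 : endR φ d b t (-1) = (φ (d - 1, b), .S) := by
        unfold endR
        rw [if_pos (by norm_num)]
        rfl
      have e2 : endR φ d b t (-1 + 1) = (φ (d - 1, b), .E) := by
        unfold endR
        rw [if_neg (by norm_num), if_pos (by omega)]
        norm_num
      rw [e1] at hx ⊢
      rw [e2] at hy ⊢
      exact next_convex hx hy
  · by_cases a2 : s < t - b
    · have e1 : endR φ d b t s = (φ (d - 1, b + s), .E) := by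
        unfold endR
        rw [if_neg a1, if_pos a2]
      rw [e1] at hx ⊢
      by_cases a3 : s + 1 < t - b
      · have e2 : endR φ d b t (s + 1) = (φ (d - 1, b + (s + 1)), .E) := by
          unfold endR
          rw [if_neg (by omega), if_pos a3]
        have e3 : g (rho (φ (d - 1, b + s), Dir.E)) = (φ (d - 1, b + s + 1), .S) :=
          h.north _ _ (by omega) (by omega) (by omega) (by omega)
        have e4 : rho (g (rho (φ (d - 1, b + s), Dir.E))) = (φ (d - 1, b + (s + 1)), .E) := by
          rw [e3]
          show ((φ (d - 1, b + s + 1), Dir.E) : Half τ) = _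
          rw [show b + s + 1 = b + (s + 1) by ring]
        rw [e2] at hy ⊢
        rw [next_flat hx, e4]
        · rw [e3]
          exact ne_of_snd (show Dir.S ≠ Dir.N by decide)
        · rw [e4]; exact hy
      · have a4 : s = t - b - 1 := by omega
        subst a4
        have e2 : endR φ d b t (t - b - 1 + 1) = (φ (d - 1, t - 1), .N) := by
          unfold endR
          rw [if_neg (by omega), if_neg (by omega)]
          norm_num
        have e5 : ((φ (d - 1, b + (t - b - 1)), Dir.E) : Half τ) = (φ (d - 1, t - 1), .E) := by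
          rw [show b + (t - b - 1) = t - 1 by ring]
        rw [e5] at hx ⊢
        rw [e2] at hy ⊢
        exact next_convex hx hy
    · have e1 : endR φ d b t s = (φ (d - 1 - (s - (t - b)), t - 1), .N) := by
        unfold endR
        rw [if_neg a1, if_neg a2]
      have e2 : endR φ d b t (s + 1) = (φ (d - 1 - (s + 1 - (t - b)), t - 1), .N) := by
        unfold endR
        rw [if_neg (by omega), if_neg (by omega)]
      have e3 : g (rho (φ (d - 1 - (s - (t - b)), t - 1), Dir.N)) =
          (φ (d - 1 - (s - (t - b)) - 1, t - 1), .E) :=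
        h.west hG (by omega) (by omega) (by omega) (by omega)
      have e4 : rho (g (rho (φ (d - 1 - (s - (t - b)), t - 1), Dir.N))) =
          (φ (d - 1 - (s + 1 - (t - b)), t - 1), .N) := by
        rw [e3]
        show ((φ (d - 1 - (s - (t - b)) - 1, t - 1), Dir.N) : Half τ) = _
        rw [show d - 1 - (s - (t - b)) - 1 = d - 1 - (s + 1 - (t - b)) by ring]
      rw [e1] at hx ⊢
      rw [e2] at hy ⊢
      rw [next_flat hx, e4]
      · rw [e3]
        exact ne_of_snd (show Dir.E ≠ Dir.W by decide)
      · rw [e4]; exact hy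

end ends

end Full.Loc1
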