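import Pool.Agent.Full.Def.Geo

/-!
# Two closings of a region which differ only behind blocked channels

`Barrier m w1 w2 S`: a set `S` of half edges which is invariant under the tiles and under the closing `w1`
and on which `w2 = w1`.  A strand which starts in `S` is the same for both closings.  The probabilities
of its end differ at most by the probability that there is no barrier.
-/

set_option autoImplicit false

namespace Full.Loc1
open Function Relation Pool.Agent.Helper69.RSW

variable {τ : Type*}

/-- a set of half edges which is closed under `m` and `w1` and on which `w1` and `w2` agree -/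
structure Barrier (m w1 w2 : Half τ → Half τ) (S : Set (Half τ)) : Prop where
  tile : ∀ x ∈ S, m x ∈ S
  link : ∀ x ∈ S, w1 x ∈ S
  same : ∀ x ∈ S, w2 x = w1 x

theorem Barrier.conn {m w1 w2 : Half τ → Half τ} {S : Set (Half τ)} (h : Barrier m w1 w2 S)
    {x y : Half τ} (hc : Full.Conn m w1 x y) (hx : x ∈ S) : y ∈ S := by
  induction hc with
  | refl => exact hx
  | tail _ h2 ih =>
    rcases h2 with rfl | rfl
    · exact h.tile _ ih
    · exact h.link _ ih

theorem Barrier.other_eq {m w1 w2 : Half τ → Half τ} {S : Set (Half τ)} (h : Barrier m w1 w2 S)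
    {x : Half τ} (hx : x ∈ S) : other m w2 x = other m w1 x :=
  other_congr_of fun y hy => h.same y (h.conn hy hx)

/-- separation of the part `E` behind a channel with the tiles `B`: `s = 0` in front, `1` behind -/
structure Sep (m w : Half τ → Half τ) (B E : Set τ) (s : Half τ → ZMod 2) : Prop where
  mate : ∀ x, x.1 ∈ B → s (m x) = s x
  inner : ∀ x, x.1 ∈ B → (w x).1 ∈ B → s (w x) = s x
  front : ∀ x, x.1 ∈ B → (w x).1 ∉ B → (w x).1 ∉ E → s x = 0
  back : ∀ x, x.1 ∈ B → (w x).1 ∈ E → s x = 1

/-- the half edges in front of the blocking path -/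
def frontSet (B E : Set τ) (s : Half τ → ZMod 2) : Set (Half τ) :=
  {x | x.1 ∉ E ∧ (x.1 ∈ B → s x = 0)}

theorem Sep.closed {m w : Half τ → Half τ} {B E : Set τ} {s : Half τ → ZMod 2} (h : Sep m w B E s)
    (hm : ∀ x, (m x).1 = x.1) (hw : ∀ x, w (w x) = x)
    (hBE : ∀ x, x.1 ∉ B → x.1 ∉ E → (w x).1 ∉ E) :
    (∀ x ∈ frontSet B E s, m x ∈ frontSet B E s) ∧ ∀ x ∈ frontSet B E s, w x ∈ frontSet B E s := by
  constructor
  · rintro x ⟨h1, h2⟩
    refine ⟨by rw [hm]; exact h1, fun h3 => ?_⟩
    rw [hm] at h3
    rw [h.mate x h3]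
    exact h2 h3
  · rintro x ⟨h1, h2⟩
    by_cases hx : x.1 ∈ B
    · have h3 := h2 hx
      have h4 : (w x).1 ∉ E := by
        intro h5
        have h6 := h.back x hx h5
        rw [h3] at h6
        exact zero_ne_one h6
      refine ⟨h4, fun h5 => ?_⟩
      rw [h.inner x hx h5]
      exact h3
    · refine ⟨hBE x hx h1, fun h5 => ?_⟩
      refine h.front (w x) h5 ?_ ?_
      · rw [hw]; exact hx
      · rw [hw]; exact h1

section prob
variable [DecidableEq τ]

/-- the probabilities of the end of a strand for two closings -/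
theorem P_other_sub_le {T : Finset τ} {w1 w2 : Half τ → Half τ} {z : Half τ} {G : Finset τ → Prop}
    (h : ∀ ω ⊆ T, G ω → other (mate ω) w2 z = other (mate ω) w1 z) (e : Half τ) :
    |P T (fun ω => other (mate ω) w2 z = e) - P T (fun ω => other (mate ω) w1 z = e)| ≤
      P T (fun ω => ¬ G ω) := by
  have key : ∀ u v : Half τ → Half τ, (∀ ω ⊆ T, G ω → other (mate ω) u z = other (mate ω) v z) →
      P T (fun ω => other (mate ω) u z = e) ≤ P T (fun ω => other (mate ω) v z = e)
        + P T (fun ω => ¬ G ω) := by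
    intro u v huv
    refine le_trans (P_mono fun ω hω h1 => ?_) (P_or_le T _ _)
    by_cases hG : G ω
    · left; rw [← huv ω hω hG]; exact h1
    · exact Or.inr hG
  rw [abs_le]
  have h1 := key w2 w1 h
  have h2 := key w1 w2 fun ω hω hG => (h ω hω hG).symm
  constructor <;> linarith

/-- the observables of two closings differ at most by three times the probability of the bad event -/
theorem obs_sub_le {T : Finset τ} {w1 w2 : Half τ → Half τ} {z : Half τ} {G : Finset τ → Prop}
    (h : ∀ ω ⊆ T, G ω → other (mate ω) w2 z = other (mate ω) w1 z) (e : Fin 3 → Half τ) :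
    ‖obs T w2 z e - obs T w1 z e‖ ≤ 3 * P T (fun ω => ¬ G ω) := by
  unfold obs
  rw [← Finset.sum_sub_distrib]
  refine (norm_sum_le _ _).trans ?_
  have h1 : ∀ j : Fin 3, ‖Complex.exp (2 * Real.pi * Complex.I / 3) ^ (j : ℕ) *
      ((P T (fun ω => other (mate ω) w2 z = e j) : ℝ) : ℂ) -
      Complex.exp (2 * Real.pi * Complex.I / 3) ^ (j : ℕ) *
      ((P T (fun ω => other (mate ω) w1 z = e j) : ℝ) : ℂ)‖ ≤ P T (fun ω => ¬ G ω) := by
    intro j
    rw [← mul_sub, norm_mul, norm_pow, ← Complex.ofReal_sub, Complex.norm_real, Real.norm_eq_abs]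
    have h2 : ‖Complex.exp (2 * Real.pi * Complex.I / 3)‖ = 1 := by
      rw [show (2 * Real.pi * Complex.I / 3 : ℂ) = ((2 * Real.pi / 3 : ℝ) : ℂ) * Complex.I by
        push_cast; ring]
      exact Complex.norm_exp_ofReal_mul_I _
    rw [h2, one_pow, one_mul]
    exact P_other_sub_le h (e j)
  refine (Finset.sum_le_sum fun j _ => h1 j).trans ?_
  rw [Finset.sum_const, Finset.card_univ, Fintype.card_fin, nsmul_eq_mul]
  norm_num

end prob

end Full.Loc1
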