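import Pool.Agent.Full.Loc1.Prob
import Pool.Agent.Full.Perc.BK
import Pool.Agent.Rect.Perc.Dual

/-!
# Strands which traverse a box give disjoint paths

`Long c d b t S` : the heights `j` such that the strand of the box `[c, d) x [b, t)` which enters through the
left side at the height `j` leaves through the right side.
* the number of these strands below a corner is a level function `lev` which is constant along the drawn
  diagonals (flow conservation, no planarity needed);
* `level_path` : for every `j` in `Long` the tiles with a drawn diagonal of the colour `(c + j + 1) % 2` and of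
  the level of `j` contain a path from the left to the right side; different `j` have different levels.
-/

set_option autoImplicit false

namespace Full.Lev
open Full Function Finset

/-! ### duality for a box -/

theorem rect_count (A B c : ℕ) (h : ℕ → ℕ → ZMod 2)
    (hb : ∀ i ≤ A, (i + c) % 2 = 1 → h i 0 = 1) (ht : ∀ i ≤ A, (i + B + c) % 2 = 1 → h i B = 0)
    (hl : ∀ j ≤ B, (j + c) % 2 = 0 → h 0 j = 1) (hr : ∀ j ≤ B, (A + j + c) % 2 = 0 → h A j = 0)
    (H : ∀ i < A, ∀ j < B, (h i j + h (i+1) (j+1)) * (h (i+1) j + h i (j+1)) = 0) : False := by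
  have h2 : ∀ a : ZMod 2, a + a = 0 := CharTwo.add_self_eq_zero
  have h0 := H47Perc.RC.sq_count A B h
  rw [sum_eq_zero (fun i hi => sum_eq_zero (fun j hj => H i (mem_range.1 hi) j (mem_range.1 hj))),
    sum_add_distrib, sum_add_distrib] at h0
  have hbot : ∀ k ≤ A, ∑ i ∈ range k, h i 0 * h (i+1) 0 =
      (if c % 2 = 0 then h 0 0 else 0) + (if (k + c) % 2 = 0 then h k 0 else 0) := by
    intro k
    induction k with
    | zero =>
      intro _
      rw [sum_range_zero, Nat.zero_add, h2]
    | succ k ih =>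
      intro hk
      rw [sum_range_succ, ih (by omega)]
      rcases Nat.mod_two_eq_zero_or_one (k + c) with hk2 | hk2
      · rw [if_pos hk2, if_neg (by omega : ¬ (k + 1 + c) % 2 = 0), hb (k + 1) hk (by omega), mul_one,
          add_assoc, h2]
      · rw [if_neg (by omega : ¬ (k + c) % 2 = 0), if_pos (by omega : (k + 1 + c) % 2 = 0),
          hb k (by omega) hk2, one_mul, add_zero]
  have hlft : ∀ k ≤ B, ∑ j ∈ range k, h 0 j * h 0 (j+1) =
      (if c % 2 = 1 then h 0 0 else 0) + (if (k + c) % 2 = 1 then h 0 k else 0) := by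
    intro k
    induction k with
    | zero =>
      intro _
      rw [sum_range_zero, Nat.zero_add, h2]
    | succ k ih =>
      intro hk
      rw [sum_range_succ, ih (by omega)]
      rcases Nat.mod_two_eq_zero_or_one (k + c) with hk2 | hk2
      · rw [if_neg (by omega : ¬ (k + c) % 2 = 1), if_pos (by omega : (k + 1 + c) % 2 = 1),
          hl k (by omega) hk2, one_mul, add_zero]
      · rw [if_pos hk2, if_neg (by omega : ¬ (k + 1 + c) % 2 = 1), hl (k + 1) hk (by omega), mul_one,
          add_assoc, h2]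
  have htop : ∑ i ∈ range A, h i B * h (i+1) B = 0 := by
    apply sum_eq_zero
    intro i hi
    rw [mem_range] at hi
    rcases Nat.mod_two_eq_zero_or_one (i + B + c) with hk2 | hk2
    · rw [ht (i + 1) (by omega) (by omega), mul_zero]
    · rw [ht i (by omega) hk2, zero_mul]
  have hrgt : ∑ j ∈ range B, h A j * h A (j+1) = 0 := by
    apply sum_eq_zero
    intro j hj
    rw [mem_range] at hj
    rcases Nat.mod_two_eq_zero_or_one (A + j + c) with hk2 | hk2
    · rw [hr j (by omega) hk2, zero_mul]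
    · rw [hr (j + 1) (by omega) (by omega), mul_zero]
  have e1 : (if (A + c) % 2 = 0 then h A 0 else 0) = 0 := by
    split_ifs with hh
    · exact hr 0 (Nat.zero_le _) (by omega)
    · rfl
  have e2 : (if (B + c) % 2 = 1 then h 0 B else 0) = 0 := by
    split_ifs with hh
    · exact ht 0 (Nat.zero_le _) (by omega)
    · rfl
  rw [hbot A le_rfl, hlft B le_rfl, htop, hrgt, e1, e2] at h0
  rcases Nat.mod_two_eq_zero_or_one c with hc | hc
  · rw [if_pos hc, if_neg (by omega), hl 0 (Nat.zero_le _) (by omega)] at h0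
    exact absurd h0 (by decide)
  · rw [if_neg (by omega), if_pos hc, hb 0 (Nat.zero_le _) (by omega)] at h0
    exact absurd h0 (by decide)

/-- a step along a diagonal of the colour `e` of a tile of `S` -/
def CStep (e : ℤ) (S : Finset (ℤ × ℤ)) (v v' : ℤ × ℤ) : Prop :=
  ∃ p ∈ S, (v = eA e p ∧ v' = eB e p) ∨ (v = eB e p ∧ v' = eA e p)

theorem CStep.symm {e : ℤ} {S : Finset (ℤ × ℤ)} {v v' : ℤ × ℤ} (h : CStep e S v v') : CStep e S v' v := by
  obtain ⟨p, hp, h1 | h1⟩ := h
  · exact ⟨p, hp, Or.inr ⟨h1.2, h1.1⟩⟩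
  · exact ⟨p, hp, Or.inl ⟨h1.2, h1.1⟩⟩

/-- connected by diagonals of the colour `e` of tiles of `S` -/
def CPath (e : ℤ) (S : Finset (ℤ × ℤ)) : ℤ × ℤ → ℤ × ℤ → Prop := Relation.ReflTransGen (CStep e S)

/-- a path from the left side `x = c` to the right side `x = d` -/
def LR (e c d : ℤ) (S : Finset (ℤ × ℤ)) : Prop :=
  ∃ v v' : ℤ × ℤ, v.1 = c ∧ v'.1 = d ∧ (v.1 + v.2) % 2 = e ∧ CPath e S v v'

/-- either a left right path of the colour `e` or a floor ceiling path of the other colour -/
theorem box_dual {c d b t e : ℤ} (he : e = 0 ∨ e = 1) (hcd : c ≤ d) (hbt : b ≤ t) (K : Finset (ℤ × ℤ)) :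
    LR e c d K ∨ ∃ v v' : ℤ × ℤ, v.2 = b ∧ v'.2 = t ∧ c ≤ v.1 ∧ v.1 ≤ d ∧ (v.1 + v.2) % 2 = 1 - e ∧
      CPath (1 - e) (box c d b t \ K) v v' := by
  classical
  by_contra hcon
  rw [not_or] at hcon
  obtain ⟨c1, c2⟩ := hcon
  obtain ⟨m, rfl⟩ : ∃ m : ℕ, d = c + m := ⟨(d - c).toNat, by omega⟩
  obtain ⟨n, rfl⟩ : ∃ n : ℕ, t = b + n := ⟨(t - b).toNat, by omega⟩
  obtain ⟨o, ho⟩ : ∃ o : ℕ, (o : ℤ) = (c + b - e) % 2 := ⟨((c + b - e) % 2).toNat, by omega⟩
  let A : ℤ × ℤ → Prop := fun p => ∃ v : ℤ × ℤ, v.1 = c ∧ (v.1 + v.2) % 2 = e ∧ CPath e K v p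
  let B : ℤ × ℤ → Prop := fun p => ∃ v : ℤ × ℤ, v.2 = b ∧ c ≤ v.1 ∧ v.1 ≤ c + m ∧ (v.1 + v.2) % 2 = 1 - e ∧
    CPath (1 - e) (box c (c + m) b (b + n) \ K) v p
  let h : ℕ → ℕ → ZMod 2 := fun i j => if (i + j + o) % 2 = 1 then (if B (c + i, b + j) then 1 else 0)
    else (if A (c + i, b + j) then 1 else 0)
  have hodd : ∀ i j : ℕ, (i + j + o) % 2 = 1 → h i j = if B (c + i, b + j) then 1 else 0 := by
    intro i j hij
    simp only [h]
    rw [if_pos hij]
  have heven : ∀ i j : ℕ, (i + j + o) % 2 = 0 → h i j = if A (c + i, b + j) then 1 else 0 := by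
    intro i j hij
    simp only [h]
    rw [if_neg (by omega)]
  have hA : ∀ u v : ℤ × ℤ, CStep e K u v → (A u ↔ A v) := by
    intro u v hs
    constructor
    · rintro ⟨y, q1, q2, q3⟩
      exact ⟨y, q1, q2, q3.tail hs⟩
    · rintro ⟨y, q1, q2, q3⟩
      exact ⟨y, q1, q2, q3.tail hs.symm⟩
  have hB : ∀ u v : ℤ × ℤ, CStep (1 - e) (box c (c + m) b (b + n) \ K) u v → (B u ↔ B v) := by
    intro u v hs
    constructor
    · rintro ⟨y, q1, q2, q3, q4, q5⟩
      exact ⟨y, q1, q2, q3, q4, q5.tail hs⟩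
    · rintro ⟨y, q1, q2, q3, q4, q5⟩
      exact ⟨y, q1, q2, q3, q4, q5.tail hs.symm⟩
  have hz : ∀ (p q : Prop) [Decidable p] [Decidable q], (p ↔ q) →
      (if p then (1 : ZMod 2) else 0) + (if q then 1 else 0) = 0 := by
    intro p q _ _ hpq
    by_cases hp : p
    · rw [if_pos hp, if_pos (hpq.1 hp)]
      exact CharTwo.add_self_eq_zero _
    · rw [if_neg hp, if_neg (fun hq => hp (hpq.2 hq)), add_zero]
  refine rect_count m n o h ?_ ?_ ?_ ?_ ?_
  · intro i hi hi2
    rw [hodd i 0 (by omega), if_pos]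
    refine ⟨(c + i, b + (0 : ℕ)), ?_, ?_, ?_, ?_, Relation.ReflTransGen.refl⟩
    · simp
    · simp only; omega
    · simp only; omega
    · simp only; push_cast; omega
  · intro i hi hi2
    rw [hodd i n hi2, if_neg]
    rintro ⟨v, q1, q2, q3, q4, q5⟩
    exact c2 ⟨v, (c + i, b + n), q1, rfl, q2, q3, q4, q5⟩
  · intro j hj hj2
    rw [heven 0 j (by omega), if_pos]
    refine ⟨(c + (0 : ℕ), b + j), ?_, ?_, Relation.ReflTransGen.refl⟩
    · simp
    · simp only; push_cast; omega
  · intro j hj hj2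
    rw [heven m j hj2, if_neg]
    rintro ⟨v, q1, q2, q3⟩
    exact c1 ⟨v, (c + m, b + j), q1, rfl, q2, q3⟩
  · intro i hi j hj
    have hmem : (c + (i : ℤ), b + (j : ℤ)) ∈ box c (c + m) b (b + n) := by
      rw [Full.mem_box]; omega
    have c3 : ((c + (i : ℤ)) + 1, b + (j : ℤ)) = (c + ((i + 1 : ℕ) : ℤ), b + (j : ℤ)) := by push_cast; rw [add_assoc]
    have c4 : (c + (i : ℤ), b + (j : ℤ) + 1) = (c + (i : ℤ), b + ((j + 1 : ℕ) : ℤ)) := by push_cast; rw [add_assoc]
    have c5 : (c + (i : ℤ) + 1, b + (j : ℤ) + 1) = (c + ((i + 1 : ℕ) : ℤ), b + ((j + 1 : ℕ) : ℤ)) := by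
      push_cast; rw [add_assoc, add_assoc]
    rcases Nat.mod_two_eq_zero_or_one (i + j + o) with hij | hij
    · -- the main diagonal has the colour `e`
      have hc : ((c + (i : ℤ)) + (b + (j : ℤ))) % 2 = e := by omega
      have k1 : eA e (c + (i : ℤ), b + (j : ℤ)) = (c + (i : ℤ), b + (j : ℤ)) := by
        unfold eA; rw [if_pos hc]
      have k2 : eB e (c + (i : ℤ), b + (j : ℤ)) = (c + ((i + 1 : ℕ) : ℤ), b + ((j + 1 : ℕ) : ℤ)) := by
        unfold eB; rw [if_pos hc, ← c5]
      have k3 : eA (1 - e) (c + (i : ℤ), b + (j : ℤ)) = (c + ((i + 1 : ℕ) : ℤ), b + (j : ℤ)) := by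
        unfold eA; rw [if_neg (by simp only; omega), ← c3]
      have k4 : eB (1 - e) (c + (i : ℤ), b + (j : ℤ)) = (c + (i : ℤ), b + ((j + 1 : ℕ) : ℤ)) := by
        unfold eB; rw [if_neg (by simp only; omega), ← c4]
      rw [heven i j hij, heven (i+1) (j+1) (by omega), hodd (i+1) j (by omega), hodd i (j+1) (by omega)]
      by_cases hT : (c + (i : ℤ), b + (j : ℤ)) ∈ K
      · rw [hz (A (c + (i : ℤ), b + (j : ℤ))) (A (c + ((i + 1 : ℕ) : ℤ), b + ((j + 1 : ℕ) : ℤ)))
          (hA _ _ ⟨_, hT, Or.inl ⟨k1.symm, k2.symm⟩⟩), zero_mul]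
      · rw [hz (B (c + ((i + 1 : ℕ) : ℤ), b + (j : ℤ))) (B (c + (i : ℤ), b + ((j + 1 : ℕ) : ℤ)))
          (hB _ _ ⟨_, mem_sdiff.2 ⟨hmem, hT⟩, Or.inl ⟨k3.symm, k4.symm⟩⟩), mul_zero]
    · have hc : ((c + (i : ℤ)) + (b + (j : ℤ))) % 2 = 1 - e := by omega
      have k1 : eA (1 - e) (c + (i : ℤ), b + (j : ℤ)) = (c + (i : ℤ), b + (j : ℤ)) := by
        unfold eA; rw [if_pos hc]
      have k2 : eB (1 - e) (c + (i : ℤ), b + (j : ℤ)) = (c + ((i + 1 : ℕ) : ℤ), b + ((j + 1 : ℕ) : ℤ)) := by
        unfold eB; rw [if_pos hc, ← c5]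
      have k3 : eA e (c + (i : ℤ), b + (j : ℤ)) = (c + ((i + 1 : ℕ) : ℤ), b + (j : ℤ)) := by
        unfold eA; rw [if_neg (by simp only; omega), ← c3]
      have k4 : eB e (c + (i : ℤ), b + (j : ℤ)) = (c + (i : ℤ), b + ((j + 1 : ℕ) : ℤ)) := by
        unfold eB; rw [if_neg (by simp only; omega), ← c4]
      rw [hodd i j hij, hodd (i+1) (j+1) (by omega), heven (i+1) j (by omega), heven i (j+1) (by omega)]
      by_cases hT : (c + (i : ℤ), b + (j : ℤ)) ∈ K
      · rw [hz (A (c + ((i + 1 : ℕ) : ℤ), b + (j : ℤ))) (A (c + (i : ℤ), b + ((j + 1 : ℕ) : ℤ)))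
          (hA _ _ ⟨_, hT, Or.inl ⟨k3.symm, k4.symm⟩⟩), mul_zero]
      · rw [hz (B (c + (i : ℤ), b + (j : ℤ))) (B (c + ((i + 1 : ℕ) : ℤ), b + ((j + 1 : ℕ) : ℤ)))
          (hB _ _ ⟨_, mem_sdiff.2 ⟨hmem, hT⟩, Or.inl ⟨k1.symm, k2.symm⟩⟩), zero_mul]

/-! ### the level function -/


/-- the tail of a side -/
def tl (x : Half (ℤ × ℤ)) : ℤ × ℤ :=
  match x.2 with
  | .E => (x.1.1 + 1, x.1.2)
  | .N => (x.1.1 + 1, x.1.2 + 1)
  | .W => (x.1.1, x.1.2 + 1)
  | .S => x.1

/-- the head of a side -/
def hd (x : Half (ℤ × ℤ)) : ℤ × ℤ := tl (rho x)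

section defs
variable (c d b t : ℤ) (S : Finset (ℤ × ℤ))

/-- the strand which enters through the left side at the height `j` leaves through the right side -/
def Long (j : ℤ) : Prop :=
  (b ≤ j ∧ j < t) ∧ ∃ j', other (mate S) (plane.glue (box c d b t)) ((c, j), .W) = ((d - 1, j'), .E)

/-- a long strand enters the tile through this side -/
def Pos (y : Half (ℤ × ℤ)) : Prop :=
  ∃ j, Long c d b t S j ∧
    ∃ k < minimalPeriod (plane.glue (box c d b t) ∘ mate S) (((c, j), Dir.W) : Half (ℤ × ℤ)) / 2,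
      y = (plane.glue (box c d b t) ∘ mate S)^[k] ((c, j), .W)

open Classical in
/-- the number of the long strands which enter minus the number of those which leave -/
noncomputable def flow (y : Half (ℤ × ℤ)) : ℤ :=
  (if Pos c d b t S y then 1 else 0) - (if Pos c d b t S (mate S y) then 1 else 0)

/-- the flow through a vertical unit segment -/
noncomputable def fl (x y : ℤ) : ℤ :=
  if x < d then flow c d b t S ((x, y), .W) else - flow c d b t S ((d - 1, y), .E)

/-- the number of the long strands below a corner -/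
noncomputable def lev (v : ℤ × ℤ) : ℤ := ∑ k ∈ range (v.2 - b).toNat, fl c d b t S v.1 (b + k)

end defs

section flow
variable {c d b t : ℤ} {S : Finset (ℤ × ℤ)}

theorem two_box : Two (mate S) (plane.glue (box c d b t)) := (Surf.glu plane (box c d b t)).two S

theorem per_box (x : Half (ℤ × ℤ)) : x ∈ periodicPts ((plane.glue (box c d b t)) ∘ (mate S)) := (Surf.glu plane (box c d b t)).periodic S x

theorem glue_W (j : ℤ) : (plane.glue (box c d b t)) ((c, j), .W) = ((c, j), .W) := by
  rw [plane_glue, if_neg]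
  rintro ⟨-, h⟩
  have h1 : (c + -1, j + 0) ∈ box c d b t := h
  rw [Full.mem_box] at h1
  omega

theorem glue_E (j : ℤ) : (plane.glue (box c d b t)) ((d - 1, j), .E) = ((d - 1, j), .E) := by
  rw [plane_glue, if_neg]
  rintro ⟨-, h⟩
  have h1 : (d - 1 + 1, j + 0) ∈ box c d b t := h
  rw [Full.mem_box] at h1
  omega

theorem glue_S (i : ℤ) : (plane.glue (box c d b t)) ((i, b), .S) = ((i, b), .S) := by
  rw [plane_glue, if_neg]
  rintro ⟨-, h⟩
  have h1 : (i + 0, b + -1) ∈ box c d b t := h
  rw [Full.mem_box] at h1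
  omega

theorem glue_N (i : ℤ) : (plane.glue (box c d b t)) ((i, t - 1), .N) = ((i, t - 1), .N) := by
  rw [plane_glue, if_neg]
  rintro ⟨-, h⟩
  have h1 : (i + 0, t - 1 + 1) ∈ box c d b t := h
  rw [Full.mem_box] at h1
  omega

theorem tl_glue {x : Half (ℤ × ℤ)} (h : (plane.glue (box c d b t)) x ≠ x) : tl ((plane.glue (box c d b t)) x) = hd x := by
  obtain ⟨⟨i, j⟩, v⟩ := x
  rw [plane_glue] at h ⊢
  split_ifs at h ⊢ with h1
  · cases v <;> simp [tl, hd, rho, Dir.vec, Dir.opp, Dir.ccw]
  · exact absurd rfl h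

theorem hd_mate_col (x : Half (ℤ × ℤ)) : ((hd ((mate S) x)).1 + (hd ((mate S) x)).2) % 2 = ((tl x).1 + (tl x).2) % 2 := by
  obtain ⟨⟨i, j⟩, v⟩ := x
  have h1 := mate_cases S (((i, j), v) : Half (ℤ × ℤ))
  rcases h1 with h1 | h1
  · rw [h1]
    cases v <;> simp only [tl, hd, rho, Dir.ccw] <;> omega
  · unfold hd
    rw [h1]

theorem pos_fix {y : Half (ℤ × ℤ)} (hy : (plane.glue (box c d b t)) y = y) (h : Pos c d b t S y) :
    ∃ j, Long c d b t S j ∧ y = ((c, j), .W) := by
  obtain ⟨j, hj, k, hk, rfl⟩ := h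
  rcases Nat.eq_zero_or_pos k with rfl | hk0
  · exact ⟨j, hj, rfl⟩
  · exact absurd hy (two_box.inner (glue_W j) (per_box _) hk0 hk)

theorem pos_mate_fix {y : Half (ℤ × ℤ)} (hy : (plane.glue (box c d b t)) y = y) (h : Pos c d b t S ((mate S) y)) :
    ∃ j', y = ((d - 1, j'), .E) := by
  obtain ⟨j, hj, k, hk, h1⟩ := h
  have h2 : y = ((plane.glue (box c d b t)) ∘ (mate S))^[k + 1] ((c, j), .W) := by
    rw [iterate_succ_apply', ← h1]
    show y = (plane.glue (box c d b t)) ((mate S) ((mate S) y))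
    rw [mate_mate, hy]
  by_cases h3 : k + 1 < minimalPeriod ((plane.glue (box c d b t)) ∘ (mate S)) (((c, j), Dir.W) : Half (ℤ × ℤ)) / 2
  · rw [h2] at hy
    exact absurd hy (two_box.inner (glue_W j) (per_box _) (by omega) h3)
  · obtain ⟨j', hj'⟩ := hj.2
    refine ⟨j', ?_⟩
    rw [← hj', h2]
    unfold other
    congr 1
    omega

theorem pos_iff {y : Half (ℤ × ℤ)} (hy : (plane.glue (box c d b t)) y ≠ y) : Pos c d b t S y ↔ Pos c d b t S ((mate S) ((plane.glue (box c d b t)) y)) := by
  constructor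
  · rintro ⟨j, hj, k, hk, rfl⟩
    rcases Nat.eq_zero_or_pos k with rfl | hk0
    · exact absurd (glue_W j) hy
    · refine ⟨j, hj, k - 1, by omega, ?_⟩
      obtain ⟨l, rfl⟩ : ∃ l, k = l + 1 := ⟨k - 1, by omega⟩
      rw [iterate_succ_apply']
      show (mate S) ((plane.glue (box c d b t)) ((plane.glue (box c d b t)) ((mate S) _))) = _
      rw [Surf.glue_glue, mate_mate]
      rfl
  · rintro ⟨j, hj, k, hk, h1⟩
    have h2 : y = ((plane.glue (box c d b t)) ∘ (mate S))^[k + 1] ((c, j), .W) := by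
      rw [iterate_succ_apply', ← h1]
      show y = (plane.glue (box c d b t)) ((mate S) ((mate S) ((plane.glue (box c d b t)) y)))
      rw [mate_mate, Surf.glue_glue]
    refine ⟨j, hj, k + 1, ?_, h2⟩
    by_contra h3
    obtain ⟨j', hj'⟩ := hj.2
    have h4 : y = ((d - 1, j'), .E) := by
      rw [← hj', h2]
      unfold other
      congr 1
      omega
    rw [h4] at hy
    exact hy (glue_E j')

theorem flow_mate (y : Half (ℤ × ℤ)) : flow c d b t S ((mate S) y) = - flow c d b t S y := by
  unfold flow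
  rw [mate_mate]
  ring

theorem flow_glue {y : Half (ℤ × ℤ)} (hy : (plane.glue (box c d b t)) y ≠ y) : flow c d b t S ((plane.glue (box c d b t)) y) = - flow c d b t S y := by
  unfold flow
  have h1 := pos_iff (S := S) hy
  have hy' : (plane.glue (box c d b t)) ((plane.glue (box c d b t)) y) ≠ (plane.glue (box c d b t)) y := by
    rw [Surf.glue_glue]
    exact hy.symm
  have h2 := pos_iff (S := S) hy'
  rw [Surf.glue_glue] at h2
  by_cases a1 : Pos c d b t S y
  · by_cases a2 : Pos c d b t S ((mate S) y)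
    · rw [if_pos a1, if_pos a2, if_pos (h2.2 a2), if_pos (h1.1 a1)]
      ring
    · rw [if_pos a1, if_neg a2, if_neg (fun h => a2 (h2.1 h)), if_pos (h1.1 a1)]
      ring
  · by_cases a2 : Pos c d b t S ((mate S) y)
    · rw [if_neg a1, if_pos a2, if_pos (h2.2 a2), if_neg (fun h => a1 (h1.2 h))]
      ring
    · rw [if_neg a1, if_neg a2, if_neg (fun h => a2 (h2.1 h)), if_neg (fun h => a1 (h1.2 h))]
      ring

theorem flow_tile (p : ℤ × ℤ) : flow c d b t S (p, .E) + flow c d b t S (p, .N) + flow c d b t S (p, .W) +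
    flow c d b t S (p, .S) = 0 := by
  by_cases hp : p ∈ S
  · have h1 := flow_mate (c := c) (d := d) (b := b) (t := t) (S := S) (p, .S)
    have h2 := flow_mate (c := c) (d := d) (b := b) (t := t) (S := S) (p, .W)
    have e1 : (mate S) (p, Dir.S) = (p, .E) := by unfold mate; simp [hp, Dir.mt]
    have e2 : (mate S) (p, Dir.W) = (p, .N) := by unfold mate; simp [hp, Dir.mt]
    rw [e1] at h1
    rw [e2] at h2
    rw [h1, h2]
    ring
  · have h1 := flow_mate (c := c) (d := d) (b := b) (t := t) (S := S) (p, .S)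
    have h2 := flow_mate (c := c) (d := d) (b := b) (t := t) (S := S) (p, .E)
    have e1 : (mate S) (p, Dir.S) = (p, .W) := by unfold mate; simp [hp, Dir.mt]
    have e2 : (mate S) (p, Dir.E) = (p, .N) := by unfold mate; simp [hp, Dir.mt]
    rw [e1] at h1
    rw [e2] at h2
    rw [h1, h2]
    ring

theorem flow_fix {y : Half (ℤ × ℤ)} (hy : (plane.glue (box c d b t)) y = y) (h1 : y.2 ≠ .W) (h2 : y.2 ≠ .E) : flow c d b t S y = 0 := by
  unfold flow
  rw [if_neg, if_neg, sub_zero]
  · intro h
    obtain ⟨j', hj'⟩ := pos_mate_fix hy h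
    exact h2 (congrArg Prod.snd hj')
  · intro h
    obtain ⟨j', -, hj'⟩ := pos_fix hy h
    exact h1 (congrArg Prod.snd hj')

open Classical in
theorem flow_W (j : ℤ) : flow c d b t S ((c, j), .W) = if Long c d b t S j then 1 else 0 := by
  unfold flow
  have h1 : ¬ Pos c d b t S ((mate S) ((c, j), .W)) := by
    intro h
    obtain ⟨j', hj'⟩ := pos_mate_fix (glue_W j) h
    have := congrArg Prod.snd hj'
    simp at this
  rw [if_neg h1, sub_zero]
  apply if_congr _ rfl rfl
  constructor
  · intro h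
    obtain ⟨j', hj, hj'⟩ := pos_fix (glue_W j) h
    have h2 : j = j' := congrArg (fun x : Half (ℤ × ℤ) => x.1.2) hj'
    rw [h2]
    exact hj
  · intro h
    refine ⟨j, h, 0, ?_, rfl⟩
    have h2 := two_box.even (glue_W (d := d) (b := b) (t := t) j) (per_box (S := S) (((c, j), Dir.W) : Half (ℤ × ℤ)))
    have h3 := Two.period_pos (per_box (S := S) (c := c) (d := d) (b := b) (t := t) (((c, j), Dir.W) : Half (ℤ × ℤ)))
    omega

/-! #### levels -/

theorem fl_W {i : ℤ} (h : i < d) (j : ℤ) : fl c d b t S i j = flow c d b t S ((i, j), .W) := by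
  unfold fl
  rw [if_pos h]

theorem fl_E {i j : ℤ} (h1 : c ≤ i) (h2 : i < d) (h3 : b ≤ j) (h4 : j < t) :
    fl c d b t S (i + 1) j = - flow c d b t S ((i, j), .E) := by
  unfold fl
  by_cases h : i + 1 < d
  · rw [if_pos h]
    have e1 : (plane.glue (box c d b t)) ((i, j), .E) = ((i + 1, j), .W) := by
      rw [plane_glue, if_pos]
      · show ((i + 1, j + 0), Dir.W) = _
        rw [add_zero]
      · constructor
        · rw [Full.mem_box]; omega
        · show (i + 1, j + 0) ∈ _
          rw [Full.mem_box]; omega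
    have h5 : (plane.glue (box c d b t)) ((i, j), .E) ≠ ((i, j), .E) := by
      rw [e1]
      intro h6
      have h7 := congrArg Prod.snd h6
      simp at h7
    rw [← e1, flow_glue h5]
  · rw [if_neg h, show d - 1 = i by omega]

theorem lev_succ {x y : ℤ} (h : b ≤ y) : lev c d b t S (x, y + 1) = lev c d b t S (x, y) + fl c d b t S x y := by
  unfold lev
  simp only
  rw [show (y + 1 - b).toNat = (y - b).toNat + 1 by omega, sum_range_succ, show b + ((y - b).toNat : ℤ) = y by omega]

theorem lev_floor (x : ℤ) : lev c d b t S (x, b) = 0 := by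
  unfold lev
  simp

theorem lev_row {i : ℤ} (h1 : c ≤ i) (h2 : i < d) : ∀ n : ℕ, b + n < t →
    lev c d b t S (i, b + n) - lev c d b t S (i + 1, b + n) = flow c d b t S ((i, b + n), .S) := by
  intro n
  induction n with
  | zero =>
    intro _
    simp only [Nat.cast_zero, add_zero]
    rw [lev_floor, lev_floor, flow_fix (glue_S i) (by simp) (by simp)]
    rfl
  | succ n ih =>
    intro hn
    push_cast at hn
    have h3 := ih (by omega)
    have h4 := flow_tile (c := c) (d := d) (b := b) (t := t) (S := S) (i, b + n)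
    have e1 : (plane.glue (box c d b t)) ((i, b + n), .N) = ((i, b + n + 1), .S) := by
      rw [plane_glue, if_pos]
      · show ((i + 0, b + n + 1), Dir.S) = _
        rw [add_zero]
      · constructor
        · rw [Full.mem_box]; omega
        · show (i + 0, b + n + 1) ∈ _
          rw [Full.mem_box]; omega
    have h5 : (plane.glue (box c d b t)) ((i, b + n), .N) ≠ ((i, b + n), .N) := by
      rw [e1]
      intro h6
      have h7 := congrArg Prod.snd h6
      simp at h7
    have h6 := flow_glue (S := S) h5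
    rw [e1] at h6
    rw [show b + ((n + 1 : ℕ) : ℤ) = b + n + 1 by push_cast; ring, lev_succ (by omega), lev_succ (by omega), h6,
      fl_W h2, fl_E h1 h2 (by omega) (by omega)]
    linear_combination h3 + h4

/-- **the flow is the difference of the levels** -/
theorem lev_flow {p : ℤ × ℤ} (hp : p ∈ box c d b t) (v : Dir) :
    lev c d b t S (tl (p, v)) - lev c d b t S (hd (p, v)) = flow c d b t S (p, v) := by
  obtain ⟨i, j⟩ := p
  rw [Full.mem_box] at hp
  obtain ⟨n, rfl⟩ : ∃ n : ℕ, j = b + n := ⟨(j - b).toNat, by omega⟩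
  have h1 := lev_row (b := b) (t := t) (S := S) hp.1.1 hp.1.2 n (by omega)
  have h2 := flow_tile (c := c) (d := d) (b := b) (t := t) (S := S) (i, b + n)
  have h3 := lev_succ (b := b) (c := c) (d := d) (t := t) (S := S) (x := i) (y := b + n) (by omega)
  have h4 := lev_succ (b := b) (c := c) (d := d) (t := t) (S := S) (x := i + 1) (y := b + n) (by omega)
  rw [fl_W hp.1.2] at h3
  rw [fl_E hp.1.1 hp.1.2 (by omega) (by omega)] at h4
  cases v
  · simp only [tl, hd, rho, Dir.ccw]
    linarith
  · simp only [tl, hd, rho, Dir.ccw]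
    linarith
  · simp only [tl, hd, rho, Dir.ccw]
    linarith
  · simp only [tl, hd, rho, Dir.ccw]
    linarith

theorem lev_mate {p : ℤ × ℤ} (hp : p ∈ box c d b t) (v : Dir) :
    lev c d b t S (hd ((mate S) (p, v))) = lev c d b t S (tl (p, v)) := by
  rcases mate_cases S (p, v) with h1 | h1
  · have h2 := lev_flow (S := S) hp v
    have h3 := lev_flow (S := S) hp v.ccw
    have h4 := flow_mate (c := c) (d := d) (b := b) (t := t) (S := S) (p, v)
    rw [h1]
    rw [h1] at h4
    have e1 : (p, v.ccw) = rho (p, v) := rfl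
    rw [e1, h4] at h3
    have e2 : tl (rho (p, v)) = hd (p, v) := rfl
    rw [e2] at h3
    linarith
  · unfold hd
    rw [h1]

theorem lev_ceil {x : ℤ} (h1 : c ≤ x) (h2 : x ≤ d) (hbt : b < t) : lev c d b t S (x, t) = lev c d b t S (c, t) := by
  obtain ⟨n, rfl⟩ : ∃ n : ℕ, x = c + n := ⟨(x - c).toNat, by omega⟩
  clear h1
  induction n with
  | zero => simp
  | succ n ih =>
    push_cast at h2
    have h3 := ih (by omega)
    have hp : (c + (n : ℤ), t - 1) ∈ box c d b t := by
      rw [Full.mem_box]; omega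
    have h4 := lev_flow (S := S) hp .N
    rw [flow_fix (glue_N _) (by simp) (by simp)] at h4
    simp only [tl, hd, rho, Dir.ccw, sub_add_cancel] at h4
    rw [show c + ((n + 1 : ℕ) : ℤ) = c + n + 1 by push_cast; ring]
    linarith

/-- along a long strand -/
theorem strand {j : ℤ} (hcd : c < d) (hj : Long c d b t S j) : ∀ k,
    k < minimalPeriod ((plane.glue (box c d b t)) ∘ (mate S)) (((c, j), Dir.W) : Half (ℤ × ℤ)) / 2 →
    ((((plane.glue (box c d b t)) ∘ (mate S))^[k] ((c, j), .W) : Half (ℤ × ℤ)).1 ∈ box c d b t ∧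
      lev c d b t S (tl (((plane.glue (box c d b t)) ∘ (mate S))^[k] ((c, j), .W))) = lev c d b t S (c, j + 1)) ∧
      ((tl (((plane.glue (box c d b t)) ∘ (mate S))^[k] ((c, j), .W))).1 + (tl (((plane.glue (box c d b t)) ∘ (mate S))^[k] ((c, j), .W))).2) % 2 = (c + (j + 1)) % 2 := by
  intro k
  induction k with
  | zero =>
    intro _
    refine ⟨⟨?_, rfl⟩, rfl⟩
    show (c, j) ∈ box c d b t
    rw [Full.mem_box]
    have := hj.1
    omega
  | succ k ih =>
    intro hk
    obtain ⟨⟨h1, h2⟩, h3⟩ := ih (by omega)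
    have h4 : (plane.glue (box c d b t)) (((plane.glue (box c d b t)) ∘ (mate S))^[k + 1] ((c, j), .W)) ≠ ((plane.glue (box c d b t)) ∘ (mate S))^[k + 1] ((c, j), .W) :=
      two_box.inner (glue_W j) (per_box _) (by omega) hk
    rw [iterate_succ_apply'] at h4 ⊢
    set y := (((plane.glue (box c d b t)) ∘ (mate S))^[k] ((c, j), .W) : Half (ℤ × ℤ)) with hy
    have h5 : (plane.glue (box c d b t)) ((mate S) y) ≠ (mate S) y := by
      intro h6
      apply h4
      show (plane.glue (box c d b t)) ((plane.glue (box c d b t)) ((mate S) y)) = (plane.glue (box c d b t)) ((mate S) y)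
      rw [h6, h6]
    have h6 : tl (((plane.glue (box c d b t)) ∘ (mate S)) y) = hd ((mate S) y) := tl_glue h5
    refine ⟨⟨Surf.glue_mem (by rw [mate_fst]; exact h1), ?_⟩, ?_⟩
    · rw [h6, ← h2]
      exact lev_mate h1 y.2
    · rw [h6, ← h3]
      exact hd_mate_col y

end flow

/-! #### the paths of the levels -/

section paths
variable {c d b t : ℤ} {S : Finset (ℤ × ℤ)}

theorem lev_left {y : ℤ} (hcd : c < d) (h : b ≤ y) : lev c d b t S (c, y) ≤ lev c d b t S (c, y + 1) := by
  classical
  rw [lev_succ h, fl_W hcd, flow_W]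
  split_ifs <;> omega

theorem lev_long {j : ℤ} (hcd : c < d) (hj : Long c d b t S j) :
    lev c d b t S (c, j + 1) = lev c d b t S (c, j) + 1 := by
  classical
  rw [lev_succ hj.1.1, fl_W hcd, flow_W, if_pos hj]

theorem lev_mono (hcd : c < d) {y y' : ℤ} (h : b ≤ y) (h' : y ≤ y') :
    lev c d b t S (c, y) ≤ lev c d b t S (c, y') := by
  obtain ⟨n, rfl⟩ : ∃ n : ℕ, y' = y + n := ⟨(y' - y).toNat, by omega⟩
  clear h'
  induction n with
  | zero => simp
  | succ n ih =>
    rw [show y + ((n + 1 : ℕ) : ℤ) = y + n + 1 by push_cast; ring]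
    exact ih.trans (lev_left hcd (by omega))

theorem lev_pos {j : ℤ} (hcd : c < d) (hj : Long c d b t S j) : 1 ≤ lev c d b t S (c, j + 1) := by
  rw [lev_long hcd hj]
  have h1 := lev_mono (S := S) (t := t) hcd le_rfl hj.1.1
  rw [lev_floor] at h1
  omega

theorem lev_lt {j j' : ℤ} (hcd : c < d) (hj : Long c d b t S j) (hj' : Long c d b t S j') (h : j < j') :
    lev c d b t S (c, j + 1) < lev c d b t S (c, j' + 1) := by
  rw [lev_long hcd hj']
  have h1 := lev_mono (b := b) (S := S) (t := t) (y := j + 1) (y' := j') hcd (by have := hj.1.1; omega) (by omega)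
  omega

theorem lev_inj {j j' : ℤ} (hcd : c < d) (hj : Long c d b t S j) (hj' : Long c d b t S j')
    (h : lev c d b t S (c, j + 1) = lev c d b t S (c, j' + 1)) : j = j' := by
  rcases lt_trichotomy j j' with h1 | h1 | h1
  · exact absurd h (lev_lt hcd hj hj' h1).ne
  · exact h1
  · exact absurd h (lev_lt hcd hj' hj h1).ne'

theorem lev_top {j : ℤ} (hcd : c < d) (hj : Long c d b t S j) :
    lev c d b t S (c, j + 1) ≤ lev c d b t S (c, t) :=
  lev_mono hcd (by have := hj.1.1; omega) (by have := hj.1.2; omega)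

/-- the colour of the upper end of a step between the levels of a long strand -/
theorem col_of_step {j : ℤ} (hcd : c < d) (hj : Long c d b t S j) {p : ℤ × ℤ} (hp : p ∈ box c d b t) {v : Dir}
    (h1 : lev c d b t S (hd (p, v)) = lev c d b t S (c, j + 1))
    (h2 : lev c d b t S (tl (p, v)) = lev c d b t S (c, j + 1) - 1) :
    ((hd (p, v)).1 + (hd (p, v)).2) % 2 = (c + (j + 1)) % 2 := by
  have h3 := lev_flow (S := S) hp v
  have h4 : Pos c d b t S (mate S (p, v)) := by
    by_contra h5
    unfold flow at h3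
    rw [if_neg h5] at h3
    split_ifs at h3 <;> omega
  obtain ⟨j', hj', k, hk, hk2⟩ := h4
  obtain ⟨⟨h5, h6⟩, h7⟩ := strand hcd hj' k hk
  rw [← hk2] at h5 h6 h7
  have h8 := lev_mate (S := S) (c := c) (d := d) (b := b) (t := t) (p := (mate S (p, v)).1) h5 (mate S (p, v)).2
  change lev c d b t S (hd (mate S (mate S (p, v)))) = lev c d b t S (tl (mate S (p, v))) at h8
  rw [mate_mate, h6, h1] at h8
  have h9 := lev_inj hcd hj hj' h8
  have h10 := hd_mate_col (S := S) (mate S (p, v))
  rw [mate_mate, h7] at h10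
  rw [h10, h9]

/-- the drawn diagonal has a constant level -/
theorem lev_drawn {e : ℤ} {p : ℤ × ℤ} (hp : p ∈ box c d b t) (h : p ∈ S ↔ (p.1 + p.2) % 2 = e) :
    lev c d b t S (eA e p) = lev c d b t S (eB e p) := by
  obtain ⟨i, j⟩ := p
  by_cases hc : (i + j) % 2 = e
  · have h1 : (i, j) ∈ S := h.2 hc
    have h2 := lev_mate (S := S) hp .S
    have e1 : mate S ((i, j), Dir.S) = ((i, j), .E) := by unfold mate; simp [h1, Dir.mt]
    rw [e1] at h2
    unfold eA eB
    rw [if_pos hc, if_pos hc]
    exact h2.symm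
  · have h1 : (i, j) ∉ S := fun h1 => hc (h.1 h1)
    have h2 := lev_mate (S := S) hp .E
    have e1 : mate S ((i, j), Dir.E) = ((i, j), .N) := by unfold mate; simp [h1, Dir.mt]
    rw [e1] at h2
    unfold eA eB
    rw [if_neg hc, if_neg hc]
    exact h2.symm

/-- every corner of the other colour is the head of a side whose tail has the colour `e` -/
theorem corner_side {e : ℤ} (he : e = 0 ∨ e = 1) (p w : ℤ × ℤ) (h : w = eA (1 - e) p ∨ w = eB (1 - e) p) :
    ∃ v, hd (p, v) = w ∧ (tl (p, v) = eA e p ∨ tl (p, v) = eB e p) := by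
  obtain ⟨i, j⟩ := p
  unfold eA eB at h ⊢
  by_cases hc : (i + j) % 2 = e
  · rw [if_neg (by simp only; omega), if_neg (by simp only; omega)] at h
    rw [if_pos hc, if_pos hc]
    rcases h with rfl | rfl
    · exact ⟨.S, rfl, Or.inl rfl⟩
    · exact ⟨.N, rfl, Or.inr rfl⟩
  · rw [if_pos (by simp only; omega), if_pos (by simp only; omega)] at h
    rw [if_neg hc, if_neg hc]
    rcases h with rfl | rfl
    · exact ⟨.W, rfl, Or.inr rfl⟩
    · exact ⟨.E, rfl, Or.inl rfl⟩

/-- the tiles whose drawn diagonal has the colour `e` and the level `κ` -/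
noncomputable def lay (c d b t : ℤ) (S : Finset (ℤ × ℤ)) (e κ : ℤ) : Finset (ℤ × ℤ) := by
  classical exact (box c d b t).filter fun p => (p ∈ S ↔ (p.1 + p.2) % 2 = e) ∧ lev c d b t S (eA e p) = κ

theorem mem_lay {e κ : ℤ} {p : ℤ × ℤ} : p ∈ lay c d b t S e κ ↔
    p ∈ box c d b t ∧ (p ∈ S ↔ (p.1 + p.2) % 2 = e) ∧ lev c d b t S (eA e p) = κ := by
  unfold lay
  rw [mem_filter]

theorem flow_abs (y : Half (ℤ × ℤ)) : flow c d b t S y ≤ 1 ∧ -1 ≤ flow c d b t S y := by
  unfold flow
  split_ifs <;> omega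

/-- **the level of a long strand contains a path** -/
theorem level_path {j : ℤ} (hcd : c < d) (hj : Long c d b t S j) :
    LR ((c + (j + 1)) % 2) c d (lay c d b t S ((c + (j + 1)) % 2) (lev c d b t S (c, j + 1))) := by
  set e := (c + (j + 1)) % 2 with he0
  set κ := lev c d b t S (c, j + 1) with hκ
  have he : e = 0 ∨ e = 1 := by omega
  have he' : 1 - e = 0 ∨ 1 - e = 1 := by omega
  have hbt : b < t := by have := hj.1; omega
  rcases box_dual he hcd.le hbt.le (lay c d b t S e κ) with h | ⟨v, v', h1, h2, h3, h4, h5, h6⟩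
  · exact h
  · exfalso
    have key : (c ≤ v'.1 ∧ v'.1 ≤ d) ∧ lev c d b t S v' < κ := by
      clear h2
      unfold CPath at h6
      induction h6 with
      | refl =>
        refine ⟨⟨h3, h4⟩, ?_⟩
        have h7 : v = (v.1, b) := by rw [← h1]
        rw [h7, lev_floor]
        exact lev_pos hcd hj
      | @tail u w _ hs ih =>
        obtain ⟨p, hp, hpe⟩ := hs
        rw [mem_sdiff, mem_lay] at hp
        obtain ⟨hp1, hp2⟩ := hp
        have hu : u = eA (1 - e) p ∨ u = eB (1 - e) p := hpe.imp And.left And.left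
        have hw : w = eA (1 - e) p ∨ w = eB (1 - e) p := by
          rcases hpe with ⟨_, h⟩ | ⟨_, h⟩
          · exact Or.inr h
          · exact Or.inl h
        have hcw : c ≤ w.1 ∧ w.1 ≤ d := by
          obtain ⟨i, l⟩ := p
          rw [Full.mem_box] at hp1
          rcases hw with rfl | rfl
          · unfold eA
            split_ifs <;> simp only <;> omega
          · unfold eB
            split_ifs <;> simp only <;> omega
        refine ⟨hcw, ?_⟩
        by_cases hcol : (p ∈ S ↔ (p.1 + p.2) % 2 = e)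
        · -- the drawn diagonal has the colour `e`
          have hne : lev c d b t S (eA e p) ≠ κ := fun h => hp2 ⟨hp1, hcol, h⟩
          have heq := lev_drawn hp1 hcol
          by_contra hlt
          have hu2 := ih.2
          obtain ⟨x, hx1, hx2⟩ := corner_side he p u hu
          obtain ⟨y, hy1, hy2⟩ := corner_side he p w hw
          have hx3 : lev c d b t S (tl (p, x)) = lev c d b t S (eA e p) := by
            rcases hx2 with h | h
            · rw [h]
            · rw [h, heq]
          have hy3 : lev c d b t S (tl (p, y)) = lev c d b t S (eA e p) := by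
            rcases hy2 with h | h
            · rw [h]
            · rw [h, heq]
          have fx := lev_flow (S := S) hp1 x
          have fy := lev_flow (S := S) hp1 y
          have ax := flow_abs (c := c) (d := d) (b := b) (t := t) (S := S) (p, x)
          have ay := flow_abs (c := c) (d := d) (b := b) (t := t) (S := S) (p, y)
          rw [hx1, hx3] at fx
          rw [hy1, hy3] at fy
          have h7 : lev c d b t S w = κ := by omega
          have h8 : lev c d b t S (eA e p) = κ - 1 := by omega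
          have h9 := col_of_step hcd hj hp1 (v := y) (by rw [hy1, h7]) (by rw [hy3, h8])
          rw [hy1] at h9
          have h10 : (w.1 + w.2) % 2 = 1 - e := by
            rcases hw with rfl | rfl
            · exact col_eA he' p
            · exact col_eB he' p
          omega
        · have hcol' : (p ∈ S ↔ (p.1 + p.2) % 2 = 1 - e) := by
            constructor
            · intro h
              by_contra h7
              exact hcol ⟨fun _ => by omega, fun _ => h⟩
            · intro h
              by_contra h7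
              exact hcol ⟨fun h8 => absurd h8 h7, fun h8 => by omega⟩
          have heq := lev_drawn hp1 hcol'
          have h7 : lev c d b t S w = lev c d b t S u := by
            rcases hpe with ⟨rfl, rfl⟩ | ⟨rfl, rfl⟩
            · exact heq.symm
            · exact heq
          rw [h7]
          exact ih.2
    have h7 : v' = (v'.1, t) := by rw [← h2]
    have h8 := key.2
    rw [h7, lev_ceil key.1.1 key.1.2 hbt] at h8
    have h9 := lev_top hcd hj
    omega

/-- the number of the strands which traverse the box -/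
noncomputable def trav (c d b t : ℤ) (S : Finset (ℤ × ℤ)) : ℕ := by
  classical exact ((Ico b t).filter (Long c d b t S)).card

/-- the number of the strands which traverse the box, with a given colour of the corner above the entrance -/
noncomputable def travc (e c d b t : ℤ) (S : Finset (ℤ × ℤ)) : ℕ := by
  classical exact ((Ico b t).filter fun j => Long c d b t S j ∧ (c + (j + 1)) % 2 = e).card

theorem trav_eq : trav c d b t S = travc 0 c d b t S + travc 1 c d b t S := by
  classical
  unfold trav travc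
  rw [← Finset.card_union_of_disjoint]
  · congr 1
    ext j
    simp only [mem_filter, mem_union]
    constructor
    · rintro ⟨h1, h2⟩
      rcases (show (c + (j + 1)) % 2 = 0 ∨ (c + (j + 1)) % 2 = 1 by omega) with h3 | h3
      · exact Or.inl ⟨h1, h2, h3⟩
      · exact Or.inr ⟨h1, h2, h3⟩
    · rintro (⟨h1, h2, -⟩ | ⟨h1, h2, -⟩)
      · exact ⟨h1, h2⟩
      · exact ⟨h1, h2⟩
  · rw [Finset.disjoint_left]
    intro j h1 h2
    rw [mem_filter] at h1 h2
    omega

/-- the tiles whose drawn diagonal has the colour `e` -/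
noncomputable def colT (c d b t : ℤ) (e : ℤ) (S : Finset (ℤ × ℤ)) : Finset (ℤ × ℤ) :=
  (box c d b t).filter fun p => p ∈ S ↔ (p.1 + p.2) % 2 = e

/-- **the long strands give disjoint paths** -/
theorem many_travc (hcd : c < d) (e : ℤ) :
    Full.Perc.Many (LR e c d) (travc e c d b t S) (colT c d b t e S) := by
  classical
  unfold travc
  set I := (Ico b t).filter fun j => Long c d b t S j ∧ (c + (j + 1)) % 2 = e with hI
  have hI2 : ∀ x : I, Long c d b t S x.1 ∧ (c + (x.1 + 1)) % 2 = e := fun x => (mem_filter.1 x.2).2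
  let f := I.equivFin.symm
  refine ⟨fun i => lay c d b t S e (lev c d b t S (c, (f i).1 + 1)), ?_, ?_, ?_⟩
  · intro i p hp
    rw [mem_lay] at hp
    unfold colT
    rw [mem_filter]
    exact ⟨hp.1, hp.2.1⟩
  · intro i i' hii
    rw [Finset.disjoint_left]
    intro p h1 h2
    rw [mem_lay] at h1 h2
    have h3 := lev_inj hcd (hI2 (f i)).1 (hI2 (f i')).1 (h1.2.2.symm.trans h2.2.2)
    exact hii (f.injective (Subtype.ext h3))
  · intro i
    have h1 := level_path hcd (hI2 (f i)).1
    rw [(hI2 (f i)).2] at h1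
    exact h1

end paths

end Full.Lev
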