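import Pool.Agent.Full.Loc1.Trav

/-!
# Strands which leave a zone through channel boxes

A zone of a surface (the tiles in `I`, possibly none, and the inner sides of finitely many boxes) can be left
only through the boxes; the boxes have open floors and ceilings.  A strand from the zone to a tile outside of
the zone and of the boxes traverses one of the boxes.  So the number of these strands (open or closed) is at
most the sum of the numbers `trav` of the boxes.
-/

set_option autoImplicit false

namespace Full.Lev
open Full Function Finset

variable {τ : Type*} [DecidableEq τ]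

/-- the partner in a chart -/
theorem mate_pre {φ : ℤ × ℤ → τ} {B : Finset (ℤ × ℤ)} {ω : Finset τ} {p : ℤ × ℤ} (hp : p ∈ B) (v : Dir) :
    mate ω (φ p, v) = (φ (mate (pre φ B ω) (p, v)).1, (mate (pre φ B ω) (p, v)).2) := by
  have h2 : p ∈ pre φ B ω ↔ φ p ∈ ω := by
    unfold pre
    rw [mem_filter]
    exact and_iff_right hp
  unfold mate
  simp only [h2]

/-- strands of a box are pieces of strands of the surface -/
theorem conn_lift {g : Half τ → Half τ} {φ : ℤ × ℤ → τ} {B : Finset (ℤ × ℤ)} {ω : Finset τ}
    (hin : ∀ (p : ℤ × ℤ) (v : Dir), p ∈ B → p + v.vec ∈ B → g (φ p, v) = (φ (p + v.vec), v.opp))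
    {q r : Half (ℤ × ℤ)} (hq : q.1 ∈ B) (h : Conn (mate (pre φ B ω)) (plane.glue B) q r) :
    r.1 ∈ B ∧ Conn (mate ω) g (φ q.1, q.2) (φ r.1, r.2) := by
  induction h with
  | refl => exact ⟨hq, Conn.refl _⟩
  | @tail u w _ h2 ih =>
    obtain ⟨h3, h4⟩ := ih
    rcases h2 with rfl | rfl
    · refine ⟨h3, h4.trans ?_⟩
      have h5 := mate_pre (φ := φ) (ω := ω) h3 u.2
      have h6 := Conn.m_step (m := mate ω) (g := g) (φ u.1, u.2)
      rw [h5] at h6
      exact h6
    · obtain ⟨p, v⟩ := u
      rw [plane_glue]
      split_ifs with h5
      · refine ⟨h5.2, h4.trans ?_⟩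
        have h6 := Conn.g_step (m := mate ω) (g := g) (φ p, v)
        rw [hin p v h5.1 h5.2] at h6
        exact h6
      · exact ⟨h3, h4⟩

/-- the column of the inner side of a box -/
def inCol (s : Dir) (c d : ℤ) : ℤ := if s = .W then c else d - 1

/-- a zone with its boxes: `I` the inner tiles, `side i` the inner side of the box `i` -/
structure Gates {ι : Type*} (g : Half τ → Half τ) (I : τ → Prop) (φ : ι → ℤ × ℤ → τ) (c d b t : ι → ℤ)
    (side : ι → Dir) : Prop where
  lt : ∀ i, c i < d i
  east : ∀ i, side i = .W ∨ side i = .E
  inj : ∀ i, Set.InjOn (φ i) (box (c i) (d i) (b i) (t i) : Set (ℤ × ℤ))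
  inner : ∀ i, ∀ (p : ℤ × ℤ) (v : Dir), p ∈ box (c i) (d i) (b i) (t i) →
    p + v.vec ∈ box (c i) (d i) (b i) (t i) → g (φ i p, v) = (φ i (p + v.vec), v.opp)
  floor : ∀ i x, c i ≤ x → x < d i → b i < t i → g (φ i (x, b i), .S) = (φ i (x, b i), .S)
  ceil : ∀ i x, c i ≤ x → x < d i → b i < t i → g (φ i (x, t i - 1), .N) = (φ i (x, t i - 1), .N)
  mid : ∀ z : Half τ, I z.1 → I (g z).1 ∨
    ∃ i j, b i ≤ j ∧ j < t i ∧ g z = (φ i (inCol (side i) (c i) (d i), j), side i)
  enter : ∀ i j, b i ≤ j → j < t i → I (g (φ i (inCol (side i) (c i) (d i), j), side i)).1 ∨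
    ∃ i' j', b i' ≤ j' ∧ j' < t i' ∧
      g (φ i (inCol (side i) (c i) (d i), j), side i) = (φ i' (inCol (side i') (c i') (d i'), j'), side i')

namespace Gates
variable {ι : Type*} {g : Half τ → Half τ} {I : τ → Prop} {φ : ι → ℤ × ℤ → τ} {c d b t : ι → ℤ}
  {side : ι → Dir} (h : Gates g I φ c d b t side) {ω : Finset τ}
include h

/-- **a strand which leaves the zone traverses one of the boxes** -/
theorem pass {x y : Half τ}
    (hx : I x.1 ∨ ∃ i j, b i ≤ j ∧ j < t i ∧ x = (φ i (inCol (side i) (c i) (d i), j), side i))
    (hy1 : ¬ I y.1) (hy2 : ∀ i, ∀ p ∈ box (c i) (d i) (b i) (t i), φ i p ≠ y.1)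
    (hc : Conn (mate ω) g x y) :
    ∃ i j, Long (c i) (d i) (b i) (t i) (pre (φ i) (box (c i) (d i) (b i) (t i)) ω) j ∧
      Conn (mate ω) g x (φ i (c i, j), .W) := by
  classical
  -- the inner side half edge of a box in its chart
  have hmem : ∀ i j, b i ≤ j → j < t i → (inCol (side i) (c i) (d i), j) ∈ box (c i) (d i) (b i) (t i) := by
    intro i j h1 h2
    have h3 := h.lt i
    rw [Full.mem_box]
    unfold inCol
    split_ifs <;> omega
  have hfix : ∀ i j, plane.glue (box (c i) (d i) (b i) (t i)) ((inCol (side i) (c i) (d i), j), side i) =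
      ((inCol (side i) (c i) (d i), j), side i) := by
    intro i j
    rcases h.east i with h1 | h1
    · unfold inCol
      rw [h1, if_pos rfl]
      exact glue_W j
    · unfold inCol
      rw [h1, if_neg (by decide)]
      exact glue_E j
  have key : ∀ z, Conn (mate ω) g x z →
      (∃ i j, Long (c i) (d i) (b i) (t i) (pre (φ i) (box (c i) (d i) (b i) (t i)) ω) j ∧
        Conn (mate ω) g x (φ i (c i, j), .W)) ∨ I z.1 ∨
      ∃ i j p v, (b i ≤ j ∧ j < t i) ∧ p ∈ box (c i) (d i) (b i) (t i) ∧ z = (φ i p, v) ∧
        Conn (mate (pre (φ i) (box (c i) (d i) (b i) (t i)) ω)) (plane.glue (box (c i) (d i) (b i) (t i)))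
          ((inCol (side i) (c i) (d i), j), side i) (p, v) ∧
        Conn (mate ω) g x (φ i (inCol (side i) (c i) (d i), j), side i) := by
    intro z hz
    induction hz with
    | refl =>
      rcases hx with h1 | ⟨i, j, h1, h2, rfl⟩
      · exact Or.inr (Or.inl h1)
      · exact Or.inr (Or.inr ⟨i, j, _, _, ⟨h1, h2⟩, hmem i j h1 h2, rfl, Conn.refl _, Conn.refl _⟩)
    | @tail u w hu h2 ih =>
      have hw : Conn (mate ω) g x w := Relation.ReflTransGen.tail hu h2
      -- a new entrance
      have hnew : ∀ i j, b i ≤ j → j < t i → w = (φ i (inCol (side i) (c i) (d i), j), side i) →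
          ∃ i j p v, (b i ≤ j ∧ j < t i) ∧ p ∈ box (c i) (d i) (b i) (t i) ∧ w = (φ i p, v) ∧
            Conn (mate (pre (φ i) (box (c i) (d i) (b i) (t i)) ω)) (plane.glue (box (c i) (d i) (b i) (t i)))
              ((inCol (side i) (c i) (d i), j), side i) (p, v) ∧
            Conn (mate ω) g x (φ i (inCol (side i) (c i) (d i), j), side i) := by
        intro i j h3 h4 h5
        exact ⟨i, j, _, _, ⟨h3, h4⟩, hmem i j h3 h4, h5, Conn.refl _, h5 ▸ hw⟩
      rcases ih with h3 | h3 | ⟨i, j, p, v, hj, hp, rfl, h4, h5⟩
      · exact Or.inl h3
      · rcases h2 with rfl | rfl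
        · exact Or.inr (Or.inl h3)
        · rcases h.mid u h3 with h4 | ⟨i, j, h4, h5, h6⟩
          · exact Or.inr (Or.inl h4)
          · exact Or.inr (Or.inr (hnew i j h4 h5 h6))
      · rcases h2 with rfl | rfl
        · right; right
          refine ⟨i, j, (mate (pre (φ i) (box (c i) (d i) (b i) (t i)) ω) (p, v)).1,
            (mate (pre (φ i) (box (c i) (d i) (b i) (t i)) ω) (p, v)).2, hj, hp, ?_, h4.trans (Conn.m_step _), h5⟩
          exact mate_pre hp v
        · by_cases hin : p + v.vec ∈ box (c i) (d i) (b i) (t i)
          · right; right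
            refine ⟨i, j, p + v.vec, v.opp, hj, hin, h.inner i p v hp hin, h4.trans ?_, h5⟩
            have h6 := Conn.g_step (m := mate (pre (φ i) (box (c i) (d i) (b i) (t i)) ω))
              (g := plane.glue (box (c i) (d i) (b i) (t i))) (p, v)
            rwa [plane_glue, if_pos ⟨hp, hin⟩] at h6
          · -- the half edge is on the boundary of the box
            obtain ⟨k, l⟩ := p
            have hp' := hp
            rw [Full.mem_box] at hp'
            have hbt : b i < t i := by omega
            -- the exit through the outer side
            have hexit : ∀ q : Half (ℤ × ℤ), q = ((k, l), v) → ∀ s' : Dir, v = s' →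
                (side i = .W ∧ s' = .E ∧ k = d i - 1) ∨ (side i = .E ∧ s' = .W ∧ k = c i) →
                ∃ i j, Long (c i) (d i) (b i) (t i) (pre (φ i) (box (c i) (d i) (b i) (t i)) ω) j ∧
                  Conn (mate ω) g x (φ i (c i, j), .W) := by
              intro q hq s' hs' hcase
              rcases hcase with ⟨h6, h7, h8⟩ | ⟨h6, h7, h8⟩
              · -- from the left to the right
                refine ⟨i, j, ⟨hj, l, ?_⟩, ?_⟩
                · have h9 : inCol (side i) (c i) (d i) = c i := by unfold inCol; rw [if_pos h6]
                  rw [h9, h6, hs', h7, h8] at h4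
                  have h10 := (two_box (S := pre (φ i) (box (c i) (d i) (b i) (t i)) ω)).eq_or_eq_other
                    (glue_W j) (per_box _) (glue_E l) h4
                  rcases h10 with h11 | h11
                  · have := congrArg Prod.snd h11
                    simp at this
                  · exact h11.symm
                · have h9 : inCol (side i) (c i) (d i) = c i := by unfold inCol; rw [if_pos h6]
                  rw [h9, h6] at h5
                  exact h5
              · -- from the right to the left
                have h9 : inCol (side i) (c i) (d i) = d i - 1 := by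
                  unfold inCol; rw [if_neg (by rw [h6]; decide)]
                rw [h9, h6, hs', h7, h8] at h4
                have hE : plane.glue (box (c i) (d i) (b i) (t i)) ((d i - 1, j), .E) = ((d i - 1, j), .E) :=
                  glue_E j
                have h10 := (two_box (S := pre (φ i) (box (c i) (d i) (b i) (t i)) ω)).eq_or_eq_other
                  hE (per_box _) (glue_W l) h4
                have h11 : other (mate (pre (φ i) (box (c i) (d i) (b i) (t i)) ω))
                    (plane.glue (box (c i) (d i) (b i) (t i))) ((d i - 1, j), .E) = ((c i, l), .W) := by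
                  rcases h10 with h12 | h12
                  · have := congrArg Prod.snd h12
                    simp at this
                  · exact h12.symm
                refine ⟨i, l, ⟨hp'.2, j, ?_⟩, ?_⟩
                · rw [← h11]
                  exact (two_box (S := pre (φ i) (box (c i) (d i) (b i) (t i)) ω)).other_other hE (per_box _)
                · rw [h9, h6] at h5
                  refine h5.trans ?_
                  have h12 := (conn_lift (g := g) (φ := φ i) (ω := ω) (h.inner i)
                    (q := ((d i - 1, j), .E)) (r := ((c i, l), .W)) ?_ h4).2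
                  · exact h12
                  · show (d i - 1, j) ∈ box (c i) (d i) (b i) (t i)
                    rw [Full.mem_box]
                    have := h.lt i
                    omega
            have hstay : g (φ i (k, l), v) = (φ i (k, l), v) → ∃ i j p v', (b i ≤ j ∧ j < t i) ∧
                p ∈ box (c i) (d i) (b i) (t i) ∧ g (φ _ (k, l), v) = (φ i p, v') ∧
                Conn (mate (pre (φ i) (box (c i) (d i) (b i) (t i)) ω)) (plane.glue (box (c i) (d i) (b i) (t i)))
                  ((inCol (side i) (c i) (d i), j), side i) (p, v') ∧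
                Conn (mate ω) g x (φ i (inCol (side i) (c i) (d i), j), side i) := fun h6 =>
              ⟨i, j, (k, l), v, hj, hp, h6, h4, h5⟩
            cases v with
            | N =>
              have h6 : l = t i - 1 := by
                by_contra h7
                apply hin
                show (k + 0, l + 1) ∈ _
                rw [Full.mem_box]
                omega
              right; right
              subst h6
              exact hstay (h.ceil i k hp'.1.1 hp'.1.2 hbt)
            | S =>
              have h6 : l = b i := by
                by_contra h7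
                apply hin
                show (k + 0, l + -1) ∈ _
                rw [Full.mem_box]
                omega
              right; right
              subst h6
              exact hstay (h.floor i k hp'.1.1 hp'.1.2 hbt)
            | E =>
              have h6 : k = d i - 1 := by
                by_contra h7
                apply hin
                show (k + 1, l + 0) ∈ _
                rw [Full.mem_box]
                omega
              rcases h.east i with h7 | h7
              · left
                exact hexit _ rfl .E rfl (Or.inl ⟨h7, rfl, h6⟩)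
              · -- the inner side
                have h8 : ((k, l) : ℤ × ℤ) = (inCol (side i) (c i) (d i), l) := by
                  unfold inCol
                  rw [if_neg (by rw [h7]; decide), h6]
                rw [h8, show Dir.E = side i from h7.symm]
                rcases h.enter i l hp'.2.1 hp'.2.2 with h9 | ⟨i', j', h9, h10, h11⟩
                · exact Or.inr (Or.inl h9)
                · right; right
                  have h12 := hnew i' j' h9 h10
                  rw [h8, show Dir.E = side i from h7.symm] at h12
                  exact h12 h11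
            | W =>
              have h6 : k = c i := by
                by_contra h7
                apply hin
                show (k + -1, l + 0) ∈ _
                rw [Full.mem_box]
                omega
              rcases h.east i with h7 | h7
              · have h8 : ((k, l) : ℤ × ℤ) = (inCol (side i) (c i) (d i), l) := by
                  unfold inCol
                  rw [if_pos h7, h6]
                rw [h8, show Dir.W = side i from h7.symm]
                rcases h.enter i l hp'.2.1 hp'.2.2 with h9 | ⟨i', j', h9, h10, h11⟩
                · exact Or.inr (Or.inl h9)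
                · right; right
                  have h12 := hnew i' j' h9 h10
                  rw [h8, show Dir.W = side i from h7.symm] at h12
                  exact h12 h11
              · left
                exact hexit _ rfl .W rfl (Or.inr ⟨h7, rfl, h6⟩)
  rcases key y hc with h1 | h1 | ⟨i, j, p, v, -, hp, h2, -, -⟩
  · exact h1
  · exact absurd h1 hy1
  · exact absurd (congrArg Prod.fst h2).symm (hy2 i p hp)

/-- **the number of the strands (open or closed) which leave the zone** -/
theorem card_le [Fintype ι] (hT : Two (mate ω) g) (E : Finset (Half τ))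
    (hE : ∀ x ∈ E, ∀ y ∈ E, Conn (mate ω) g x y → x = y)
    (hin : ∀ x ∈ E, ∃ x', Conn (mate ω) g x x' ∧
      (I x'.1 ∨ ∃ i j, b i ≤ j ∧ j < t i ∧ x' = (φ i (inCol (side i) (c i) (d i), j), side i)))
    (hout : ∀ x ∈ E, ∃ y, Conn (mate ω) g x y ∧ ¬ I y.1 ∧ ∀ i, ∀ p ∈ box (c i) (d i) (b i) (t i), φ i p ≠ y.1) :
    E.card ≤ ∑ i, trav (c i) (d i) (b i) (t i) (pre (φ i) (box (c i) (d i) (b i) (t i)) ω) := by
  classical
  have h1 : ∀ x ∈ E, ∃ q : ι × ℤ, Long (c q.1) (d q.1) (b q.1) (t q.1)
      (pre (φ q.1) (box (c q.1) (d q.1) (b q.1) (t q.1)) ω) q.2 ∧ Conn (mate ω) g x (φ q.1 (c q.1, q.2), .W) := by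
    intro x hx
    obtain ⟨x', h2, h3⟩ := hin x hx
    obtain ⟨y, h4, h5, h6⟩ := hout x hx
    obtain ⟨i, j, h7, h8⟩ := h.pass (ω := ω) h3 h5 h6 ((hT.symm h2).trans h4)
    exact ⟨(i, j), h7, h2.trans h8⟩
  rcases E.eq_empty_or_nonempty with h0 | ⟨x0, hx0⟩
  · rw [h0, card_empty]
    exact Nat.zero_le _
  have : Nonempty (ι × ℤ) := ⟨(h1 x0 hx0).choose⟩
  choose! f hf1 hf2 using h1
  have h2 : E.card ≤ (univ.sigma fun i : ι => (Ico (b i) (t i)).filter
      (Long (c i) (d i) (b i) (t i) (pre (φ i) (box (c i) (d i) (b i) (t i)) ω))).card := by
    apply card_le_card_of_injOn (fun x => (⟨(f x).1, (f x).2⟩ : Σ _ : ι, ℤ))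
    · intro x hx
      have h3 := hf1 x hx
      rw [mem_coe, mem_sigma, mem_filter, mem_Ico]
      exact ⟨mem_univ _, h3.1, h3⟩
    · intro x hx y hy hxy
      rw [mem_coe] at hx hy
      have h3 : (f x).1 = (f y).1 := congrArg Sigma.fst hxy
      have h4 : (f x).2 = (f y).2 := by
        have := congrArg (fun z : (Σ _ : ι, ℤ) => z.2) hxy
        exact this
      have h5 : f x = f y := Prod.ext h3 h4
      have h6 := hf2 x hx
      rw [h5] at h6
      exact hE x hx y hy (h6.trans (hT.symm (hf2 y hy)))
  refine h2.trans (le_of_eq ?_)
  rw [card_sigma]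
  rfl

end Gates

end Full.Lev
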