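import Pool.Agent.Full.Loc1.Level
import Pool.Agent.Rect.Perc.Fekete
import Pool.Agent.Rect.Perc.Arch

/-!
# The number of the strands which traverse a channel

`trav c d b t S` is the number of the strands which enter the box `[c, d) x [b, t)` through the left side and
leave it through the right side.
* `trav_prob` : it is at least `m` with probability at most `(2 * thT ^ A) ^ m` if `A * (t - b) ≤ d - c`;
* `trav_moment` : its exponential moments.
-/

set_option autoImplicit false

namespace Full.Lev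
open Full Finset H47Perc H47Perc.RC Full.Perc
open Pool.Agent.Helper69.RSW (P_nonneg P_mono P_congr P_map P_restrict P_indep P_true P_compl P_le_one Dep Up
  P_flip harris P_or_le)

/-! ### left right paths -/

theorem CPath.mono {e : ℤ} {S S' : Finset (ℤ × ℤ)} (h : S ⊆ S') {v v' : ℤ × ℤ} (hp : CPath e S v v') :
    CPath e S' v v' := by
  unfold CPath at hp ⊢
  induction hp with
  | refl => exact Relation.ReflTransGen.refl
  | tail _ h2 ih =>
    obtain ⟨p, hp, hpe⟩ := h2
    exact ih.tail ⟨p, h hp, hpe⟩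

theorem up_LR (e c d : ℤ) : Up (LR e c d) := by
  rintro S T h ⟨v, v', h1, h2, h3, h4⟩
  exact ⟨v, v', h1, h2, h3, CPath.mono h h4⟩

theorem joined_of_cpath {e : ℤ} (he : e = 0 ∨ e = 1) {S : Finset (ℤ × ℤ)} {v v' : ℤ × ℤ}
    (h : CPath e S v v') (hv : (v.1 + v.2) % 2 = e) :
    Joined (S.map (teE e he)) (vz e v) (vz e v') ∧ (v'.1 + v'.2) % 2 = e := by
  unfold CPath at h
  induction h with
  | refl => exact ⟨SimpleGraph.Reachable.refl _, hv⟩
  | @tail u w _ h2 ih =>
    obtain ⟨p, hp, hpe⟩ := h2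
    have hmem : teZ e p ∈ S.map (teE e he) := mem_map_of_mem (teE e he) hp
    have hne : vz e (eA e p) ≠ vz e (eB e p) := by
      intro h
      have h3 := congrArg (cz e) h
      rw [cz_vz he (col_eA he _), cz_vz he (col_eB he _)] at h3
      have e1 : (eA e p).2 = p.2 := by unfold eA; split_ifs <;> rfl
      have e2 : (eB e p).2 = p.2 + 1 := by unfold eB; split_ifs <;> rfl
      have h4 := congrArg Prod.snd h3
      omega
    have hadj : (SimpleGraph.fromEdgeSet ((S.map (teE e he) : Finset (Sym2 (ℤ × ℤ))) : Set (Sym2 (ℤ × ℤ)))).Adj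
        (vz e (eA e p)) (vz e (eB e p)) := by
      rw [SimpleGraph.fromEdgeSet_adj]
      exact ⟨by exact_mod_cast hmem, hne⟩
    rcases hpe with ⟨rfl, rfl⟩ | ⟨rfl, rfl⟩
    · exact ⟨ih.1.trans hadj.reachable, col_eB he p⟩
    · exact ⟨ih.1.trans hadj.symm.reachable, col_eA he p⟩

theorem crU_of_LR {e : ℤ} (he : e = 0 ∨ e = 1) {c d : ℤ} {S : Finset (ℤ × ℤ)} (h : LR e c d S) :
    CrU (c + e) (d + e) (S.map (teE e he)) := by
  obtain ⟨v, v', h1, h2, h3, h4⟩ := h
  obtain ⟨h5, h6⟩ := joined_of_cpath he h4 h3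
  refine ⟨vz e v, vz e v', ?_, ?_, h5⟩
  · have h7 := congrArg Prod.fst (cz_vz he h3)
    unfold cz at h7
    simp only at h7
    omega
  · have h7 := congrArg Prod.fst (cz_vz he h6)
    unfold cz at h7
    simp only at h7
    omega

/-- the edges of the tiles are edges of the diagonal rectangle -/
theorem map_sub {r : ℤ} (hr : r = 0 ∨ r = 1) (c d b t : ℤ) :
    (box c d b t).map (teE r hr) ⊆ edgesIn (drect (c + r) (d + r) b t) := by
  intro e he
  rw [mem_map] at he
  obtain ⟨⟨i, j⟩, hp, rfl⟩ := he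
  rw [Full.mem_box] at hp
  show s(vz r (eA r (i, j)), vz r (eB r (i, j))) ∈ _
  rw [mem_edgesIn, mem_drect, mem_drect]
  unfold eA eB vz lattice
  by_cases h : (i + j) % 2 = r
  · rw [if_pos h, if_pos h]
    simp only
    refine ⟨by omega, by omega, Or.inr ⟨by omega, ?_⟩⟩
    rw [show (i + j + r) / 2 - (i + 1 + (j + 1) + r) / 2 = -1 by omega]
    rfl
  · rw [if_neg h, if_neg h]
    simp only
    refine ⟨by omega, by omega, Or.inl ⟨by omega, ?_⟩⟩
    rw [show (i + 1 - j + r) / 2 - (i - (j + 1) + r) / 2 = 1 by omega]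
    rfl

theorem lr_le_pC {e c d b t : ℤ} (he : e = 0 ∨ e = 1) :
    Pool.Agent.Helper69.RSW.P (box c d b t) (LR e c d) ≤ pC b t (c + e) (d + e) := by
  have h1 : Pool.Agent.Helper69.RSW.P (box c d b t) (LR e c d) ≤ Pool.Agent.Helper69.RSW.P (edgesIn (drect (c + e) (d + e) b t)) (CrU (c + e) (d + e)) := by
    refine le_trans ?_ (P_mono_set (map_sub he c d b t) (up_CrU _ _))
    rw [P_map]
    exact P_mono fun S _ hS => crU_of_LR he hS
  refine h1.trans (le_of_eq ?_)
  rw [← perc_CrU, Pool.Agent.Helper69.RSW.perc_half_eq]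

/-- the universal constant -/
noncomputable def thT : ℝ := 1 - pC_le_uniform.choose

theorem thT_nonneg : 0 ≤ thT := sub_nonneg.2 pC_le_uniform.choose_spec.2.1

theorem thT_lt_one : thT < 1 := by
  have := pC_le_uniform.choose_spec.1
  unfold thT
  linarith

theorem pC_pow {b t : ℤ} (hbt : b < t) : ∀ (A : ℕ) (x y : ℤ), x + A * (t - b) ≤ y → pC b t x y ≤ thT ^ A := by
  intro A
  induction A with
  | zero =>
    intro x y _
    rw [pow_zero]
    unfold pC
    rw [Pool.Agent.Helper69.RSW.perc_half_eq]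
    exact P_le_one _ _
  | succ A ih =>
    intro x y hxy
    push_cast at hxy
    have h0 : 0 ≤ (A : ℤ) * (t - b) := mul_nonneg (Int.natCast_nonneg _) (by omega)
    have h1 : x + (t - b) ≤ y := by nlinarith
    have h2 := pC_split (a := b) (b := t) (c := x) (m := x + (t - b)) (d := y) (by omega) h1
    have h3 : pC b t x (x + (t - b)) ≤ thT :=
      pC_le_uniform.choose_spec.2.2 b t x (x + (t - b)) (by omega) (by omega)
    have h4 := ih (x + (t - b)) y (by linarith)
    have h5 : 0 ≤ pC b t (x + (t - b)) y := by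
      unfold pC
      rw [Pool.Agent.Helper69.RSW.perc_half_eq]
      exact P_nonneg _ _
    refine h2.trans ?_
    rw [pow_succ, mul_comm]
    exact mul_le_mul h4 h3 (by
      unfold pC
      rw [Pool.Agent.Helper69.RSW.perc_half_eq]
      exact P_nonneg _ _) (pow_nonneg thT_nonneg _)

/-- **the probability of a left right path** -/
theorem lr_prob {e c d b t : ℤ} (he : e = 0 ∨ e = 1) (hbt : b < t) {A : ℕ} (hA : A * (t - b) ≤ d - c) :
    Pool.Agent.Helper69.RSW.P (box c d b t) (LR e c d) ≤ thT ^ A :=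
  (lr_le_pC he).trans (pC_pow hbt A _ _ (by linarith))

/-! ### the number of the traversing strands -/

theorem harris_neg {E : Type*} [DecidableEq E] (F : Finset E) {A B : Finset E → Prop} (hA : Up A) (hB : Up B) :
    Pool.Agent.Helper69.RSW.P F (fun S => A S ∧ B (F \ S)) ≤ Pool.Agent.Helper69.RSW.P F A * Pool.Agent.Helper69.RSW.P F B := by
  classical
  have hB' : Up (fun S => ¬ B (F \ S)) := fun S T h h1 h2 => h1 (hB _ _ (sdiff_subset_sdiff subset_rfl h) h2)
  have h1 := harris F hA hB'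
  have h2 : Pool.Agent.Helper69.RSW.P F (fun S => ¬ B (F \ S)) = 1 - Pool.Agent.Helper69.RSW.P F B := by
    rw [P_flip F B]
    have := P_compl F (fun S => B (F \ S))
    linarith
  rw [h2] at h1
  have h3 : Pool.Agent.Helper69.RSW.P F (fun S => A S ∧ B (F \ S)) + Pool.Agent.Helper69.RSW.P F (fun S => A S ∧ ¬ B (F \ S)) = Pool.Agent.Helper69.RSW.P F A := by
    rw [← Pool.Agent.Helper69.RSW.P_add_of_disjoint F (fun S => A S ∧ B (F \ S)) (fun S => A S ∧ ¬ B (F \ S))
      (fun S _ => by tauto)]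
    exact P_congr fun S _ => by tauto
  linarith

theorem travc_prob {c d b t : ℤ} (hcd : c < d) (hbt : b < t) {A : ℕ} (hA : A * (t - b) ≤ d - c) (k l : ℕ) :
    Pool.Agent.Helper69.RSW.P (box c d b t) (fun S => k ≤ travc 0 c d b t S ∧ l ≤ travc 1 c d b t S) ≤ (thT ^ A) ^ (k + l) := by
  classical
  have h1 : Pool.Agent.Helper69.RSW.P (box c d b t) (fun S => k ≤ travc 0 c d b t S ∧ l ≤ travc 1 c d b t S) ≤
      Pool.Agent.Helper69.RSW.P (box c d b t) (fun S => (fun S' => Many (LR 0 c d) k S' ∧ Many (LR 1 c d) l (box c d b t \ S'))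
        ((box c d b t).filter fun p => p ∈ S ↔ (p.1 + p.2) % 2 = 0)) := by
    apply P_mono
    rintro S _ ⟨h1, h2⟩
    refine ⟨many_of_le h1 (many_travc hcd 0), ?_⟩
    have h3 := many_of_le h2 (many_travc (S := S) (b := b) (t := t) hcd 1)
    refine up_Many _ _ _ _ ?_ h3
    intro p hp
    unfold colT at hp
    rw [mem_filter] at hp
    rw [mem_sdiff, mem_filter]
    refine ⟨hp.1, fun h => ?_⟩
    have h4 := h.2
    by_cases hpS : p ∈ S
    · have h5 := hp.2.1 hpS
      have h6 := h4.1 hpS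
      omega
    · have h5 : (p.1 + p.2) % 2 ≠ 1 := fun h => hpS (hp.2.2 h)
      have h6 : (p.1 + p.2) % 2 ≠ 0 := fun h => hpS (h4.2 h)
      omega
  refine h1.trans ?_
  rw [P_col (box c d b t) (fun p => (p.1 + p.2) % 2 = 0)
    (fun S' => Many (LR 0 c d) k S' ∧ Many (LR 1 c d) l (box c d b t \ S'))]
  refine (harris_neg _ (up_Many _ _) (up_Many _ _)).trans ?_
  rw [pow_add]
  have h2 : ∀ e : ℤ, (e = 0 ∨ e = 1) → ∀ n, Pool.Agent.Helper69.RSW.P (box c d b t) (Many (LR e c d) n) ≤ (thT ^ A) ^ n := fun e he n =>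
    (bk_many _ (up_LR e c d) n).trans (pow_le_pow_left₀ (Pool.Agent.Helper69.RSW.P_nonneg _ _) (lr_prob he hbt hA) n)
  exact mul_le_mul (h2 0 (Or.inl rfl) k) (h2 1 (Or.inr rfl) l) (Pool.Agent.Helper69.RSW.P_nonneg _ _) (pow_nonneg (pow_nonneg thT_nonneg _) _)

theorem P_exists_le {E : Type*} [DecidableEq E] (F : Finset E) (A : ℕ → Finset E → Prop) (q : ℝ) (n : ℕ)
    (h : ∀ k < n, Pool.Agent.Helper69.RSW.P F (A k) ≤ q) : Pool.Agent.Helper69.RSW.P F (fun S => ∃ k < n, A k S) ≤ n * q := by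
  induction n with
  | zero =>
    rw [Nat.cast_zero, zero_mul]
    have : Pool.Agent.Helper69.RSW.P F (fun S => ∃ k < 0, A k S) = 0 := by
      rw [← Pool.Agent.Helper69.RSW.P_false F]
      exact P_congr fun S _ => by simp
    exact this.le
  | succ n ih =>
    have h1 : Pool.Agent.Helper69.RSW.P F (fun S => ∃ k < n + 1, A k S) ≤ Pool.Agent.Helper69.RSW.P F (fun S => (∃ k < n, A k S) ∨ A n S) := by
      apply P_mono
      rintro S _ ⟨k, hk, h2⟩
      rcases Nat.lt_succ_iff_lt_or_eq.1 hk with h3 | h3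
      · exact Or.inl ⟨k, h3, h2⟩
      · exact Or.inr (h3 ▸ h2)
    refine h1.trans ((P_or_le F _ _).trans ?_)
    have h2 := ih fun k hk => h k (by omega)
    have h3 := h n (by omega)
    push_cast
    linarith

/-- **the number of the traversing strands in a box** -/
theorem trav_prob_box {c d b t : ℤ} (hcd : c < d) (hbt : b < t) {A : ℕ} (hA : A * (t - b) ≤ d - c) (m : ℕ) :
    Pool.Agent.Helper69.RSW.P (box c d b t) (fun S => m ≤ trav c d b t S) ≤ (2 * thT ^ A) ^ m := by
  have h1 : Pool.Agent.Helper69.RSW.P (box c d b t) (fun S => m ≤ trav c d b t S) ≤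
      Pool.Agent.Helper69.RSW.P (box c d b t) (fun S => ∃ k < m + 1, k ≤ travc 0 c d b t S ∧ m - k ≤ travc 1 c d b t S) := by
    apply P_mono
    intro S _ h
    rw [trav_eq] at h
    refine ⟨min m (travc 0 c d b t S), by omega, min_le_right _ _, by omega⟩
  refine h1.trans ((P_exists_le _ _ ((thT ^ A) ^ m) (m + 1) fun k hk => ?_).trans ?_)
  · have := travc_prob hcd hbt hA k (m - k)
    rwa [show k + (m - k) = m by omega] at this
  · rw [mul_pow]
    apply mul_le_mul_of_nonneg_right _ (pow_nonneg (pow_nonneg thT_nonneg _) _)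
    exact_mod_cast Nat.lt_two_pow_self (n := m)

section chart
variable {τ : Type*} [DecidableEq τ] {T : Finset τ} {φ : ℤ × ℤ → τ} {c d b t : ℤ}

/-- **the number of the traversing strands of a channel in a surface** -/
theorem trav_prob (hcd : c < d) (hbt : b < t) {A : ℕ} (hA : A * (t - b) ≤ d - c)
    (hinj : Set.InjOn φ (box c d b t : Set (ℤ × ℤ))) (hmem : ∀ p ∈ box c d b t, φ p ∈ T) (m : ℕ) :
    Pool.Agent.Helper69.RSW.P T (fun ω => m ≤ trav c d b t (pre φ (box c d b t) ω)) ≤ (2 * thT ^ A) ^ m := by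
  rw [P_chart hinj hmem (fun S => m ≤ trav c d b t S)]
  exact trav_prob_box hcd hbt hA m

/-- **exponential moments** -/
theorem trav_moment (hcd : c < d) (hbt : b < t) {A : ℕ} (hA : A * (t - b) ≤ d - c)
    (hinj : Set.InjOn φ (box c d b t : Set (ℤ × ℤ))) (hmem : ∀ p ∈ box c d b t, φ p ∈ T) {x : ℝ} (hx : 1 ≤ x)
    (hxq : x * (2 * thT ^ A) < 1) :
    Ex T (fun ω => x ^ trav c d b t (pre φ (box c d b t) ω)) ≤ (1 - 2 * thT ^ A) / (1 - x * (2 * thT ^ A)) :=
  Ex_pow_le hx (mul_nonneg zero_le_two (pow_nonneg thT_nonneg _)) hxq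
    fun k => trav_prob hcd hbt hA hinj hmem (k + 1)

/-- exponential moments, bounded by one plus a small term -/
theorem trav_moment_le (hcd : c < d) (hbt : b < t) {A : ℕ} (hA : A * (t - b) ≤ d - c)
    (hinj : Set.InjOn φ (box c d b t : Set (ℤ × ℤ))) (hmem : ∀ p ∈ box c d b t, φ p ∈ T) {x : ℝ} (hx : 1 ≤ x)
    (hxq : x * (2 * thT ^ A) ≤ 1 / 2) :
    Ex T (fun ω => x ^ trav c d b t (pre φ (box c d b t) ω)) ≤ 1 + 4 * x * thT ^ A := by
  refine (trav_moment hcd hbt hA hinj hmem hx (by linarith)).trans ?_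
  have h0 : 0 ≤ thT ^ A := pow_nonneg thT_nonneg _
  rw [div_le_iff₀ (by linarith)]
  nlinarith [mul_nonneg (by linarith : (0:ℝ) ≤ x) h0]

end chart

end Full.Lev
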