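import Pool.Agent.Full.Loc1.Capped
import Pool.Agent.Full.Loc1.Det

/-!
# The zone behind a blocking chain

`LeftZ`, `RightZ`: the half edges of a channel on the left, on the right of a blocking chain.  They are
invariant under the tiles, under the gluing except at the ends of the channel, and under a closed wall.
-/

set_option autoImplicit false

namespace Full.Loc1
open Function Relation

variable {τ : Type*}

/-- the half edges of the channel on the left of the chain `Q` -/
def LeftZ (φ : ℤ × ℤ → τ) (c d b t r : ℤ) (Q : Finset (ℤ × ℤ)) : Set (Half τ) :=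
  {x | ∃ i j v, c ≤ i ∧ i < d ∧ b ≤ j ∧ j < t ∧ x = (φ (i, j), v) ∧ sep r Q ((i, j), v) = 0}

/-- the half edges of the channel on the right of the chain `Q` -/
def RightZ (φ : ℤ × ℤ → τ) (c d b t r : ℤ) (Q : Finset (ℤ × ℤ)) : Set (Half τ) :=
  {x | ∃ i j v, c ≤ i ∧ i < d ∧ b ≤ j ∧ j < t ∧ x = (φ (i, j), v) ∧ sep r Q ((i, j), v) = 1}

section pot
variable {r c1 d1 b t : ℤ} {S Q : Finset (ℤ × ℤ)}

/-- columns on the left of the box -/
theorem sep_left (h : Block r c1 d1 b t S Q) {i j : ℤ} (hi : i < c1) (v : Dir) :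
    sep r Q ((i, j), v) = 0 := by
  have h1 : cum Q j i = 0 := h.left hi.le
  have h2 : cum Q j (i + 1) = 0 := h.left (by omega)
  unfold sep
  cases v <;> simp [h1, h2]

/-- columns on the right of the box -/
theorem sep_right (h : Block r c1 d1 b t S Q) {i j : ℤ} (hi : d1 ≤ i) (hj : b ≤ j) (hj' : j < t)
    (v : Dir) : sep r Q ((i, j), v) = 1 := by
  have h1 : cum Q j i = 1 := h.right hi hj hj'
  have h2 : cum Q j (i + 1) = 1 := h.right (by omega) hj hj'
  unfold sep
  cases v <;> simp [h1, h2]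

/-- the strands of a configuration do not cross a chain in a chart -/
theorem sep_mate_chart [DecidableEq τ] {φ : ℤ × ℤ → τ} {ω : Finset τ}
    (h : Block r c1 d1 b t (pre φ (box c1 d1 b t) ω) Q) (p : ℤ × ℤ) (v : Dir) :
    sep r Q (p, (mate ω (φ p, v)).2) = sep r Q (p, v) := by
  obtain ⟨i, j⟩ := p
  by_cases hQ : (i, j) ∈ Q
  · have h1 := h.sep_mate ((i, j), v)
    have h2 : (i, j) ∈ pre φ (box c1 d1 b t) ω ↔ φ (i, j) ∈ ω := by
      unfold pre
      rw [Finset.mem_filter, mem_box]
      exact and_iff_right (h.sub _ hQ)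
    have h3 : mate ω (φ (i, j), v) = (φ (i, j), (mate (pre φ (box c1 d1 b t) ω) ((i, j), v)).2) := by
      unfold mate
      simp only [h2]
    rw [h3, ← h1]
    rfl
  · have h2 : cum Q j (i + 1) = cum Q j i := by
      rw [cum_succ]
      unfold ind
      rw [if_neg hQ, add_zero]
    have h3 : ∀ e, sep r Q ((i, j), e) = cum Q j i := by
      intro e
      unfold sep
      cases e <;> simp [h2]
    rw [h3, h3]

end pot

section zone
variable {T : Finset τ} {g w : Half τ → Half τ} {φ : ℤ × ℤ → τ} {c d b t r c1 d1 : ℤ}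
  {S Q : Finset (ℤ × ℤ)}

theorem LeftZ.mate [DecidableEq τ] {ω : Finset τ} (h : Block r c1 d1 b t (pre φ (box c1 d1 b t) ω) Q)
    {x : Half τ} (hx : x ∈ LeftZ φ c d b t r Q) : Full.mate ω x ∈ LeftZ φ c d b t r Q := by
  obtain ⟨i, j, v, h1, h2, h3, h4, rfl, h5⟩ := hx
  exact ⟨i, j, (Full.mate ω (φ (i, j), v)).2, h1, h2, h3, h4, rfl, by rw [sep_mate_chart h]; exact h5⟩

theorem RightZ.mate [DecidableEq τ] {ω : Finset τ} (h : Block r c1 d1 b t (pre φ (box c1 d1 b t) ω) Q)
    {x : Half τ} (hx : x ∈ RightZ φ c d b t r Q) : Full.mate ω x ∈ RightZ φ c d b t r Q := by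
  obtain ⟨i, j, v, h1, h2, h3, h4, rfl, h5⟩ := hx
  exact ⟨i, j, (Full.mate ω (φ (i, j), v)).2, h1, h2, h3, h4, rfl, by rw [sep_mate_chart h]; exact h5⟩

/-- across a glued side or at a wall of the channel the potential does not change -/
theorem chan_glue (hG : Glu T g) (h : Channel T g φ c d b t) (hr : r = 0 ∨ r = 1)
    (hB : Block r c1 d1 b t S Q) {i j : ℤ} {v : Dir} (h1 : c ≤ i) (h2 : i < d) (h3 : b ≤ j)
    (h4 : j < t) :
    (∃ i' j' v', c ≤ i' ∧ i' < d ∧ b ≤ j' ∧ j' < t ∧ g (φ (i, j), v) = (φ (i', j'), v') ∧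
      sep r Q ((i', j'), v') = sep r Q ((i, j), v)) ∨ (i = c ∧ v = .W) ∨ (i = d - 1 ∧ v = .E) := by
  cases v with
  | E =>
    by_cases h5 : i + 1 < d
    · left
      exact ⟨i + 1, j, .W, by omega, h5, h3, h4, h.east i j h1 h5 h3 h4,
        (Block.sep_h r Q i j).symm⟩
    · right; right; exact ⟨by omega, rfl⟩
  | W =>
    by_cases h5 : c < i
    · left
      refine ⟨i - 1, j, .E, by omega, by omega, h3, h4, h.west hG h5 h2 h3 h4, ?_⟩
      rw [Block.sep_h r Q (i - 1) j, sub_add_cancel]
    · right; left; exact ⟨by omega, rfl⟩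
  | N =>
    left
    by_cases h5 : j + 1 < t
    · exact ⟨i, j + 1, .S, h1, h2, by omega, h5, h.north i j h1 h2 h3 h5, (hB.sep_v hr h3 h5).symm⟩
    · have e : j = t - 1 := by omega
      subst e
      exact ⟨i, t - 1, .N, h1, h2, h3, h4, h.ceil i h1 h2, rfl⟩
  | S =>
    left
    by_cases h5 : b < j
    · refine ⟨i, j - 1, .N, h1, h2, by omega, by omega, h.south hG h1 h2 h5 h4, ?_⟩
      rw [hB.sep_v hr (by omega) (by omega), sub_add_cancel]
    · have e : j = b := by omega
      subst e
      exact ⟨i, j, .S, h1, h2, h3, h4, h.floor i h1 h2, rfl⟩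

/-- the gluing does not leave the zone on the left except at the left end -/
theorem LeftZ.glue (hG : Glu T g) (h : Channel T g φ c d b t) (hr : r = 0 ∨ r = 1)
    (hB : Block r c1 d1 b t S Q) (hd : d1 < d) {x : Half τ} (hx : x ∈ LeftZ φ c d b t r Q) :
    g x ∈ LeftZ φ c d b t r Q ∨ ∃ j, b ≤ j ∧ j < t ∧ x = (φ (c, j), .W) := by
  obtain ⟨i, j, v, h1, h2, h3, h4, rfl, h5⟩ := hx
  rcases chan_glue hG h hr hB (v := v) h1 h2 h3 h4 with
    ⟨i', j', v', a1, a2, a3, a4, a5, a6⟩ | ⟨rfl, rfl⟩ | ⟨rfl, rfl⟩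
  · exact Or.inl ⟨i', j', v', a1, a2, a3, a4, a5, a6.trans h5⟩
  · exact Or.inr ⟨j, h3, h4, rfl⟩
  · exfalso
    rw [sep_right hB (by omega) h3 h4] at h5
    exact one_ne_zero h5

/-- the gluing does not leave the zone on the right except at the right end -/
theorem RightZ.glue (hG : Glu T g) (h : Channel T g φ c d b t) (hr : r = 0 ∨ r = 1)
    (hB : Block r c1 d1 b t S Q) (hc : c < c1) {x : Half τ} (hx : x ∈ RightZ φ c d b t r Q) :
    g x ∈ RightZ φ c d b t r Q ∨ ∃ j, b ≤ j ∧ j < t ∧ x = (φ (d - 1, j), .E) := by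
  obtain ⟨i, j, v, h1, h2, h3, h4, rfl, h5⟩ := hx
  rcases chan_glue hG h hr hB (v := v) h1 h2 h3 h4 with
    ⟨i', j', v', a1, a2, a3, a4, a5, a6⟩ | ⟨rfl, rfl⟩ | ⟨rfl, rfl⟩
  · exact Or.inl ⟨i', j', v', a1, a2, a3, a4, a5, a6.trans h5⟩
  · exfalso
    rw [sep_left hB (by omega)] at h5
    exact zero_ne_one h5
  · exact Or.inr ⟨j, h3, h4, rfl⟩

/-- a boundary half edge of the channel lies on the boundary path of the left end -/
theorem exists_endL (hG : Glu T g) (h : Channel T g φ c d b t) (_hcd : c < d) {i j : ℤ} {v : Dir} (h1 : c ≤ i)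
    (h2 : i + 1 < d) (h3 : b ≤ j) (h4 : j < t) (hx : g (φ (i, j), v) = (φ (i, j), v)) :
    ∃ s, c - 1 - i ≤ s ∧ s ≤ t - b + (i - c) ∧ (φ (i, j), v) = endL φ c b t s := by
  cases v with
  | E =>
    rw [h.east i j h1 h2 h3 h4] at hx
    exact absurd (congrArg Prod.snd hx) (show ¬ Dir.W = Dir.E by decide)
  | W =>
    by_cases h5 : c < i
    · rw [h.west hG h5 (by omega) h3 h4] at hx
      exact absurd (congrArg Prod.snd hx) (show ¬ Dir.E = Dir.W by decide)
    · have e : i = c := by omega
      subst e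
      refine ⟨t - 1 - j, by omega, by omega, ?_⟩
      unfold endL
      rw [if_neg (by omega), if_pos (by omega), show t - 1 - (t - 1 - j) = j by ring]
  | N =>
    by_cases h5 : j + 1 < t
    · rw [h.north i j h1 (by omega) h3 h5] at hx
      exact absurd (congrArg Prod.snd hx) (show ¬ Dir.S = Dir.N by decide)
    · have e : j = t - 1 := by omega
      subst e
      refine ⟨c - 1 - i, le_rfl, by omega, ?_⟩
      unfold endL
      rw [if_pos (by omega), show c - 1 - (c - 1 - i) = i by ring]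
  | S =>
    by_cases h5 : b < j
    · rw [h.south hG h1 (by omega) h5 h4] at hx
      exact absurd (congrArg Prod.snd hx) (show ¬ Dir.N = Dir.S by decide)
    · have e : j = b := by omega
      subst e
      refine ⟨t - j + (i - c), by omega, le_rfl, ?_⟩
      unfold endL
      rw [if_neg (by omega), if_neg (by omega), show c + (t - j + (i - c) - (t - j)) = i by ring]

/-- a boundary half edge of the channel lies on the boundary path of the right end -/
theorem exists_endR (hG : Glu T g) (h : Channel T g φ c d b t) (_hcd : c < d) {i j : ℤ} {v : Dir} (h1 : c < i)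
    (h2 : i < d) (h3 : b ≤ j) (h4 : j < t) (hx : g (φ (i, j), v) = (φ (i, j), v)) :
    ∃ s, i - d ≤ s ∧ s ≤ t - b + (d - 1 - i) ∧ (φ (i, j), v) = endR φ d b t s := by
  cases v with
  | E =>
    by_cases h5 : i + 1 < d
    · rw [h.east i j (by omega) h5 h3 h4] at hx
      exact absurd (congrArg Prod.snd hx) (show ¬ Dir.W = Dir.E by decide)
    · have e : i = d - 1 := by omega
      subst e
      refine ⟨j - b, by omega, by omega, ?_⟩
      unfold endR
      rw [if_neg (by omega), if_pos (by omega), show b + (j - b) = j by ring]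
  | W =>
    rw [h.west hG h1 h2 h3 h4] at hx
    exact absurd (congrArg Prod.snd hx) (show ¬ Dir.E = Dir.W by decide)
  | N =>
    by_cases h5 : j + 1 < t
    · rw [h.north i j (by omega) h2 h3 h5] at hx
      exact absurd (congrArg Prod.snd hx) (show ¬ Dir.S = Dir.N by decide)
    · have e : j = t - 1 := by omega
      subst e
      refine ⟨t - b + (d - 1 - i), by omega, by omega, ?_⟩
      unfold endR
      rw [if_neg (by omega), if_neg (by omega), show d - 1 - (t - b + (d - 1 - i) - (t - b)) = i by ring]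
  | S =>
    by_cases h5 : b < j
    · rw [h.south hG (by omega) h2 h5 h4] at hx
      exact absurd (congrArg Prod.snd hx) (show ¬ Dir.N = Dir.S by decide)
    · have e : j = b := by omega
      subst e
      refine ⟨i - d, le_rfl, by omega, ?_⟩
      unfold endR
      rw [if_pos (by omega), show d + (i - d) = i by ring]

end zone

end Full.Loc1
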