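import Pool.Agent.Full.Loc1.Zone

/-!
# The zone behind a blocking chain of the colour of the wall is invariant under the closed wall
-/

set_option autoImplicit false

namespace Full.Loc1
open Function Relation

variable {τ : Type*} {T : Finset τ} {g w : Half τ → Half τ} {φ : ℤ × ℤ → τ} {c d b t e c1 d1 : ℤ}
  {S Q : Finset (ℤ × ℤ)}

/-- the boundary path in the chart: column, row, side -/
theorem endL_chart (φ : ℤ × ℤ → τ) (c b t s : ℤ) :
    endL φ c b t s = (φ (endL id c b t s).1, (endL id c b t s).2) := by
  unfold endL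
  split_ifs <;> rfl

theorem endR_chart (φ : ℤ × ℤ → τ) (d b t s : ℤ) :
    endR φ d b t s = (φ (endR id d b t s).1, (endR id d b t s).2) := by
  unfold endR
  split_ifs <;> rfl

theorem endL_box (hbt : b < t) (hcd : c < d) {s : ℤ} (h1 : c - d ≤ s) (h2 : s < t - b + (d - c)) :
    c ≤ (endL id c b t s).1.1 ∧ (endL id c b t s).1.1 < d ∧ b ≤ (endL id c b t s).1.2 ∧
      (endL id c b t s).1.2 < t := by
  unfold endL
  split_ifs <;> simp only [id] <;> omega

theorem endR_box (hbt : b < t) (hcd : c < d) {s : ℤ} (h1 : c - d ≤ s) (h2 : s < t - b + (d - c)) :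
    c ≤ (endR id d b t s).1.1 ∧ (endR id d b t s).1.1 < d ∧ b ≤ (endR id d b t s).1.2 ∧
      (endR id d b t s).1.2 < t := by
  unfold endR
  split_ifs <;> simp only [id] <;> omega

theorem endL_col (_hbt : b < t) {s : ℤ} (h1 : -1 ≤ s) (h2 : s ≤ t - b) :
    (endL id c b t s).1.1 = c := by
  unfold endL
  split_ifs <;> simp only [id] <;> omega

theorem endR_col (_hbt : b < t) {s : ℤ} (h1 : -1 ≤ s) (h2 : s ≤ t - b) :
    (endR id d b t s).1.1 = d - 1 := by
  unfold endR
  split_ifs <;> simp only [id] <;> omega

theorem sep_left' {r : ℤ} (h : Block r c1 d1 b t S Q) {x : Half (ℤ × ℤ)} (hi : x.1.1 < c1) :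
    sep r Q x = 0 := sep_left h (i := x.1.1) (j := x.1.2) hi x.2

theorem sep_right' {r : ℤ} (h : Block r c1 d1 b t S Q) {x : Half (ℤ × ℤ)} (hi : d1 ≤ x.1.1)
    (hj : b ≤ x.1.2) (hj' : x.1.2 < t) : sep r Q x = 1 :=
  sep_right h (i := x.1.1) (j := x.1.2) hi hj hj' x.2

/-- the potential along the pairs of the wall at a left end -/
theorem sep_endL (he : e = 0 ∨ e = 1) (hB : Block e c1 d1 b t S Q) (hbt : b < t) (hc : c < c1) {s : ℤ}
    (hs : (c + s + t + e) % 2 = 0) :
    sep e Q (endL id c b t (s + 1)) = sep e Q (endL id c b t s) := by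
  by_cases a1 : s + 1 < 0
  · have e1 : endL id c b t s = ((c - 1 - s, t - 1), .N) := if_pos (by omega)
    have e2 : endL id c b t (s + 1) = ((c - 1 - s - 1, t - 1), .N) := by
      unfold endL
      rw [if_pos a1, show c - 1 - (s + 1) = c - 1 - s - 1 by ring]
      rfl
    rw [e1, e2]
    exact Block.sep_ceil he (by omega)
  · by_cases a2 : s < t - b
    · rw [sep_left' hB (by rw [endL_col hbt (by omega) (by omega)]; exact hc),
        sep_left' hB (by rw [endL_col hbt (by omega) (by omega)]; exact hc)]
    · have e1 : endL id c b t s = ((c + (s + 1 - (t - b)) - 1, b), .S) := by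
        unfold endL
        rw [if_neg (by omega), if_neg (by omega), show c + (s - (t - b)) = c + (s + 1 - (t - b)) - 1 by ring]
        rfl
      have e2 : endL id c b t (s + 1) = ((c + (s + 1 - (t - b)), b), .S) := by
        unfold endL
        rw [if_neg (by omega), if_neg (by omega)]
        rfl
      rw [e1, e2]
      exact (Block.sep_floor he (by omega)).symm

/-- the potential along the pairs of the wall at a right end -/
theorem sep_endR (he : e = 0 ∨ e = 1) (hB : Block e c1 d1 b t S Q) (hbt : b < t) (hd : d1 < d) {s : ℤ}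
    (hs : (d + s + b + e) % 2 = 0) :
    sep e Q (endR id d b t (s + 1)) = sep e Q (endR id d b t s) := by
  by_cases a1 : s + 1 < 0
  · have e1 : endR id d b t s = ((d + (s + 1) - 1, b), .S) := by
      unfold endR
      rw [if_pos (by omega), show d + s = d + (s + 1) - 1 by ring]
      rfl
    have e2 : endR id d b t (s + 1) = ((d + (s + 1), b), .S) := if_pos a1
    rw [e1, e2]
    exact (Block.sep_floor he (by omega)).symm
  · by_cases a2 : s < t - b
    · have h1 : ∀ s', -1 ≤ s' → s' ≤ t - b → sep e Q (endR id d b t s') = 1 := by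
        intro s' b1 b2
        have h2 := endR_box (c := d - 1) (d := d) hbt (by omega) (s := s') (by omega) (by omega)
        exact sep_right' hB (by rw [endR_col hbt b1 b2]; omega) h2.2.2.1 h2.2.2.2
      rw [h1 _ (by omega) (by omega), h1 _ (by omega) (by omega)]
    · have e1 : endR id d b t s = ((d - 1 - (s - (t - b)), t - 1), .N) := by
        unfold endR
        rw [if_neg (by omega), if_neg (by omega)]
        rfl
      have e2 : endR id d b t (s + 1) = ((d - 1 - (s - (t - b)) - 1, t - 1), .N) := by
        unfold endR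
        rw [if_neg (by omega), if_neg (by omega),
          show d - 1 - (s + 1 - (t - b)) = d - 1 - (s - (t - b)) - 1 by ring]
        rfl
      rw [e1, e2]
      exact Block.sep_ceil he (by omega)

/-- the pairs of the closed wall at a left end; `e` is the colour of the wall -/
def PairsL (w : Half τ → Half τ) (φ : ℤ × ℤ → τ) (c d b t e : ℤ) : Prop :=
  ∀ s, c - d ≤ s → s + 1 < t - b + (d - c) → (c + s + t + e) % 2 = 0 →
    w (endL φ c b t s) = endL φ c b t (s + 1)

/-- the pairs of the closed wall at a right end; `e` is the colour of the wall -/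
def PairsR (w : Half τ → Half τ) (φ : ℤ × ℤ → τ) (c d b t e : ℤ) : Prop :=
  ∀ s, c - d ≤ s → s + 1 < t - b + (d - c) → (d + s + b + e) % 2 = 0 →
    w (endR φ d b t s) = endR φ d b t (s + 1)

/-- **the zone at a left dead end is invariant under the closed wall** -/
theorem LeftZ.wall (hG : Glu T g) (h : Channel T g φ c d b t) (hwl : WallL g φ c b t)
    (hw : Ext T g w) (he : e = 0 ∨ e = 1) (hp : PairsL w φ c d b t e) (hB : Block e c1 d1 b t S Q)
    (hbt : b < t) (hc : c < c1) (hd : d1 < d) {x : Half τ} (hx : x ∈ LeftZ φ c d b t e Q) :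
    w x ∈ LeftZ φ c d b t e Q := by
  by_cases hgx : g x = x
  · obtain ⟨i, j, v, h1, h2, h3, h4, rfl, h5⟩ := hx
    have hid : i < d1 := by
      by_contra h6
      rw [sep_right hB (by omega) h3 h4] at h5
      exact one_ne_zero h5
    obtain ⟨s, s1, s2, s3⟩ := exists_endL hG h (by omega) h1 (by omega) h3 h4 hgx
    have hpos : ((i, j), v) = endL id c b t s := by
      have h6 := s3
      rw [endL_chart] at h6
      have hb := endL_box (c := c) (d := d) hbt (by omega) (s := s) (by omega) (by omega)
      have h7 := h.inj i j (endL id c b t s).1.1 (endL id c b t s).1.2 h1 h2 h3 h4 hb.1 hb.2.1 hb.2.2.1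
        hb.2.2.2 (congrArg Prod.fst h6)
      have h8 : v = (endL id c b t s).2 := congrArg Prod.snd h6
      exact Prod.ext (Prod.ext h7.1 h7.2) h8
    rw [hpos] at h5
    have key : ∀ s', c - d ≤ s' → s' < t - b + (d - c) → sep e Q (endL id c b t s') = 0 →
        endL φ c b t s' ∈ LeftZ φ c d b t e Q := by
      intro s' a1 a2 a3
      have hb := endL_box (c := c) (d := d) hbt (by omega) a1 a2
      exact ⟨(endL id c b t s').1.1, (endL id c b t s').1.2, (endL id c b t s').2, hb.1, hb.2.1,
        hb.2.2.1, hb.2.2.2, endL_chart φ c b t s', a3⟩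
    rw [s3]
    by_cases hs : (c + s + t + e) % 2 = 0
    · rw [hp s (by omega) (by omega) hs]
      exact key _ (by omega) (by omega) (by rw [sep_endL he hB hbt hc hs]; exact h5)
    · have h6 := hp (s - 1) (by omega) (by omega) (by omega)
      rw [sub_add_cancel] at h6
      rw [← h6, hw.inv]
      refine key _ (by omega) (by omega) ?_
      have h7 := sep_endL (s := s - 1) he hB hbt hc (by omega)
      rw [sub_add_cancel] at h7
      rw [← h7]; exact h5
  · rw [hw.ext x hgx]
    rcases LeftZ.glue hG h he hB hd hx with h1 | ⟨j, h1, h2, rfl⟩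
    · exact h1
    · exact absurd (hwl j h1 h2) hgx

/-- **the zone at a right dead end is invariant under the closed wall** -/
theorem RightZ.wall (hG : Glu T g) (h : Channel T g φ c d b t) (hwr : WallR g φ d b t)
    (hw : Ext T g w) (he : e = 0 ∨ e = 1) (hp : PairsR w φ c d b t e) (hB : Block e c1 d1 b t S Q)
    (hbt : b < t) (hc : c < c1) (hd : d1 < d) {x : Half τ} (hx : x ∈ RightZ φ c d b t e Q) :
    w x ∈ RightZ φ c d b t e Q := by
  by_cases hgx : g x = x
  · obtain ⟨i, j, v, h1, h2, h3, h4, rfl, h5⟩ := hx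
    have hid : c1 ≤ i := by
      by_contra h6
      rw [sep_left hB (by omega)] at h5
      exact zero_ne_one h5
    obtain ⟨s, s1, s2, s3⟩ := exists_endR hG h (by omega) (by omega) h2 h3 h4 hgx
    have hpos : ((i, j), v) = endR id d b t s := by
      have h6 := s3
      rw [endR_chart] at h6
      have hb := endR_box (c := c) (d := d) hbt (by omega) (s := s) (by omega) (by omega)
      have h7 := h.inj i j (endR id d b t s).1.1 (endR id d b t s).1.2 h1 h2 h3 h4 hb.1 hb.2.1 hb.2.2.1
        hb.2.2.2 (congrArg Prod.fst h6)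
      have h8 : v = (endR id d b t s).2 := congrArg Prod.snd h6
      exact Prod.ext (Prod.ext h7.1 h7.2) h8
    rw [hpos] at h5
    have key : ∀ s', c - d ≤ s' → s' < t - b + (d - c) → sep e Q (endR id d b t s') = 1 →
        endR φ d b t s' ∈ RightZ φ c d b t e Q := by
      intro s' a1 a2 a3
      have hb := endR_box (c := c) (d := d) hbt (by omega) a1 a2
      exact ⟨(endR id d b t s').1.1, (endR id d b t s').1.2, (endR id d b t s').2, hb.1, hb.2.1,
        hb.2.2.1, hb.2.2.2, endR_chart φ d b t s', a3⟩
    rw [s3]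
    by_cases hs : (d + s + b + e) % 2 = 0
    · rw [hp s (by omega) (by omega) hs]
      exact key _ (by omega) (by omega) (by rw [sep_endR he hB hbt hd hs]; exact h5)
    · have h6 := hp (s - 1) (by omega) (by omega) (by omega)
      rw [sub_add_cancel] at h6
      rw [← h6, hw.inv]
      refine key _ (by omega) (by omega) ?_
      have h7 := sep_endR (s := s - 1) he hB hbt hd (by omega)
      rw [sub_add_cancel] at h7
      rw [← h7]; exact h5
  · rw [hw.ext x hgx]
    rcases RightZ.glue hG h he hB hc hx with h1 | ⟨j, h1, h2, rfl⟩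
    · exact h1
    · exact absurd (hwr j h1 h2) hgx

end Full.Loc1
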